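import Pool.Agent.Work.MP_3cad78_co.Defs
import Mathlib

-- merged part: Pool.Agent.Work.MP_3cad78_co.Core
section
/-! Colour form of schemes, contraction of a monochromatic edge, and the induction principle. -/

namespace Pool.Agent.Work.MP_3cad78_co

variable {V W : Type}

/-- Connected by a walk all of whose steps lie in `S`. -/
def Conn (G : SimpleGraph V) (S : Set V) : V → V → Prop :=
  Relation.ReflTransGen fun a b => a ∈ S ∧ b ∈ S ∧ G.Adj a b

theorem Conn.refl {G : SimpleGraph V} {S : Set V} (a : V) : Conn G S a a :=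
  Relation.ReflTransGen.refl

theorem Conn.trans {G : SimpleGraph V} {S : Set V} {a b c : V} (h : Conn G S a b)
    (h' : Conn G S b c) : Conn G S a c := Relation.ReflTransGen.trans h h'

theorem Conn.step {G : SimpleGraph V} {S : Set V} {a b : V} (ha : a ∈ S) (hb : b ∈ S)
    (h : G.Adj a b) : Conn G S a b := Relation.ReflTransGen.single ⟨ha, hb, h⟩

theorem Conn.symm {G : SimpleGraph V} {S : Set V} {a b : V} (h : Conn G S a b) :
    Conn G S b a := by
  induction h with
  | refl => exact Conn.refl _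
  | tail _ h ih => exact (Conn.step h.2.1 h.1 h.2.2.symm).trans ih

theorem Conn.mono {G : SimpleGraph V} {S S' : Set V} (hS : S ⊆ S') {a b : V}
    (h : Conn G S a b) : Conn G S' a b := by
  induction h with
  | refl => exact Conn.refl _
  | tail _ h ih => exact ih.trans (Conn.step (hS h.1) (hS h.2.1) h.2.2)

theorem Conn.mem {G : SimpleGraph V} {S : Set V} {a b : V} (h : Conn G S a b) (ha : a ∈ S) :
    b ∈ S := by
  induction h with
  | refl => exact ha
  | tail _ h _ => exact h.2.1

/-- The colouring `c` fixes the roots and joins adjacent roots by two-coloured walks. -/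
def Kempe (H : SimpleGraph W) (G : SimpleGraph V) (ι : W → V) (c : V → W) : Prop :=
  (∀ w, c (ι w) = w) ∧
    ∀ u v, H.Adj u v → Conn G {x | c x = u ∨ c x = v} (ι u) (ι v)

/-- A rooted model given by vertex sets. -/
def Rooted (H : SimpleGraph W) (G : SimpleGraph V) (ι : W → V) : Prop :=
  ∃ C : W → Set V, (∀ w, ι w ∈ C w) ∧ (∀ w, ∀ x ∈ C w, Conn G (C w) (ι w) x) ∧
    (∀ u v, u ≠ v → Disjoint (C u) (C v)) ∧
    ∀ u v, H.Adj u v → ∃ x ∈ C u, ∃ y ∈ C v, G.Adj x y

section Contract

variable (G : SimpleGraph V) {x y : V} (hxy : x ≠ y)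

open Classical in
/-- The map which sends `y` to `x`. -/
noncomputable def cmap (hxy : x ≠ y) (v : V) : {v // v ≠ y} :=
  if h : v = y then ⟨x, hxy⟩ else ⟨v, h⟩

/-- The graph obtained by identifying `y` with `x`. -/
def cgraph : SimpleGraph {v // v ≠ y} where
  Adj a b := a ≠ b ∧ ∃ u v, cmap hxy u = a ∧ cmap hxy v = b ∧ G.Adj u v
  symm := ⟨fun _ _ ⟨h, u, v, hu, hv, huv⟩ => ⟨h.symm, v, u, hv, hu, huv.symm⟩⟩
  loopless := ⟨fun _ h => h.1 rfl⟩

theorem cmap_eq {u v : V} (h : cmap hxy u = cmap hxy v) :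
    u = v ∨ (u = x ∧ v = y) ∨ (u = y ∧ v = x) := by
  unfold cmap at h
  split_ifs at h with h1 h2 h2
  · exact Or.inl (h1.trans h2.symm)
  · exact Or.inr (Or.inr ⟨h1, (Subtype.ext_iff.1 h).symm⟩)
  · exact Or.inr (Or.inl ⟨Subtype.ext_iff.1 h, h2⟩)
  · exact Or.inl (Subtype.ext_iff.1 h)

theorem col_cmap {c : V → W} (hc : c x = c y) (v : V) : c (cmap hxy v).1 = c v := by
  unfold cmap
  split_ifs with h
  · rw [h]; exact hc
  · rfl

theorem kempe_contract {H : SimpleGraph W} {ι : W → V} {c : V → W} (hc : c x = c y)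
    (hK : Kempe H G ι c) :
    Kempe H (cgraph G hxy) (fun w => cmap hxy (ι w)) (fun a => c a.1) := by
  refine ⟨fun w => (col_cmap hxy hc _).trans (hK.1 w), fun u v huv => ?_⟩
  have key : ∀ z, Conn G {x | c x = u ∨ c x = v} (ι u) z →
      Conn (cgraph G hxy) {a | c a.1 = u ∨ c a.1 = v} (cmap hxy (ι u)) (cmap hxy z) := by
    intro z hz
    induction hz with
    | refl => exact Conn.refl _
    | @tail a b _ h ih =>
      by_cases e : cmap hxy a = cmap hxy b
      · exact e ▸ ih
      · refine ih.trans (Conn.step ?_ ?_ ⟨e, a, b, rfl, rfl, h.2.2⟩)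
        · show _ ∨ _
          rw [col_cmap hxy hc]; exact h.1
        · show _ ∨ _
          rw [col_cmap hxy hc]; exact h.2.1
  exact key _ (hK.2 u v huv)

theorem rooted_contract {H : SimpleGraph W} {ι : W → V} (hadj : G.Adj x y)
    (h : Rooted H (cgraph G hxy) fun w => cmap hxy (ι w)) : Rooted H G ι := by
  obtain ⟨C, h1, h2, h3, h4⟩ := h
  have fib : ∀ w a b, cmap hxy a = cmap hxy b → cmap hxy a ∈ C w →
      Conn G (cmap hxy ⁻¹' C w) a b := by
    intro w a b e ha
    have hb : cmap hxy b ∈ C w := e ▸ ha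
    rcases cmap_eq hxy e with rfl | ⟨rfl, rfl⟩ | ⟨rfl, rfl⟩
    · exact Conn.refl _
    · exact Conn.step ha hb hadj
    · exact Conn.step ha hb hadj.symm
  refine ⟨fun w => cmap hxy ⁻¹' C w, h1, fun w z hz => ?_,
    fun u v huv => (h3 u v huv).preimage _, fun u v huv => ?_⟩
  · have key : ∀ a, Conn (cgraph G hxy) (C w) (cmap hxy (ι w)) a → ∀ z, cmap hxy z = a →
        Conn G (cmap hxy ⁻¹' C w) (ι w) z := by
      intro a ha
      induction ha with
      | refl => exact fun z e => fib w _ _ e.symm (h1 w)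
      | @tail a b _ h ih =>
        intro z e
        obtain ⟨ha, hb, -, p, q, hp, hq, hpq⟩ := h
        have hp' : cmap hxy p ∈ C w := hp ▸ ha
        have hq' : cmap hxy q ∈ C w := hq ▸ hb
        exact ((ih p hp).trans (Conn.step hp' hq' hpq)).trans (fib w _ _ (hq.trans e.symm) hq')
    exact key _ (h2 w _ hz) z rfl
  · obtain ⟨a, ha, b, hb, -, p, q, hp, hq, hpq⟩ := h4 u v huv
    exact ⟨p, show cmap hxy p ∈ C u from hp ▸ ha, q, show cmap hxy q ∈ C v from hq ▸ hb, hpq⟩

end Contract

/-- To prove that Kempe colourings force rooted minors it suffices to treat proper colourings, and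
there one may answer with another Kempe colouring which has a monochromatic edge. -/
theorem rooted_of_step (H : SimpleGraph W)
    (step : ∀ (V : Type) [Finite V] (G : SimpleGraph V) (ι : W → V) (c : V → W), Kempe H G ι c →
      (∀ a b, G.Adj a b → c a ≠ c b) →
      Rooted H G ι ∨ ∃ c' : V → W, Kempe H G ι c' ∧ ∃ a b, G.Adj a b ∧ c' a = c' b) :
    ∀ (n : ℕ) (V : Type) [Finite V] (G : SimpleGraph V) (ι : W → V) (c : V → W),
      Nat.card V = n → Kempe H G ι c → Rooted H G ι := by
  intro n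
  induction n using Nat.strong_induction_on with
  | _ n ih =>
  intro V _ G ι c hn hK
  have mono : ∀ c' : V → W, Kempe H G ι c' → (∃ a b, G.Adj a b ∧ c' a = c' b) → Rooted H G ι := by
    rintro c' hK' ⟨a, b, hab, e⟩
    refine rooted_contract G hab.ne hab
      (ih _ ?_ _ _ _ _ rfl (kempe_contract G hab.ne e hK'))
    rw [← hn]
    exact Finite.card_subtype_lt (x := b) (by simp)
  by_cases h : ∃ a b, G.Adj a b ∧ c a = c b
  · exact mono c hK h
  · rcases step V G ι c hK (fun a b hab e => h ⟨a, b, hab, e⟩) with h' | ⟨c', hK', h'⟩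
    · exact h'
    · exact mono c' hK' h'

theorem conn_of_walk {G : SimpleGraph V} {S : Set V} {a b : V} (p : G.Walk a b)
    (h : ∀ x ∈ p.support, x ∈ S) : Conn G S a b := by
  induction p with
  | nil => exact Conn.refl _
  | cons hadj p ih =>
    refine (Conn.step (h _ (by simp)) (h _ (by simp)) hadj).trans (ih fun x hx => h x ?_)
    simp [hx]

/-- A scheme gives a Kempe colouring. -/
theorem kempe_of_scheme [Finite W] [Nonempty W] {H : SimpleGraph W} {G : SimpleGraph V}
    {ι : W ↪ V} {S : H.edgeSet → Set V} (h : IsScheme H G ι S) : ∃ c, Kempe H G ι c := by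
  classical
  have hex : ∀ x : V, ∃ u : W, (∀ w, ι w = x → u = w) ∧
      ((¬ ∃ w, ι w = x) → ∀ e : H.edgeSet, x ∈ S e → u ∈ e.1) := by
    intro x
    by_cases hx : ∃ w, ι w = x
    · obtain ⟨w, hw⟩ := hx
      exact ⟨w, fun w' hw' => ι.injective (hw.trans hw'.symm), fun hn => (hn ⟨w, hw⟩).elim⟩
    · by_cases he : ∃ e : H.edgeSet, x ∈ S e
      · have : Fintype H.edgeSet := Fintype.ofFinite _
        obtain ⟨e0, he0⟩ := he
        obtain ⟨u, hu⟩ := h.2 (Finset.univ.filter fun e => x ∈ S e) ⟨e0, by simp [he0]⟩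
          ⟨x, fun e he => (Finset.mem_filter.1 he).2⟩
        exact ⟨u, fun w hw => (hx ⟨w, hw⟩).elim, fun _ e he => hu e (by simp [he])⟩
      · exact ⟨Classical.arbitrary W, fun w hw => (hx ⟨w, hw⟩).elim,
          fun _ e hx' => (he ⟨e, hx'⟩).elim⟩
  choose c hc1 hc2 using hex
  refine ⟨c, fun w => hc1 _ w rfl, fun u v huv => ?_⟩
  obtain ⟨p, -, hp, hr⟩ := h.1 u v huv
  refine conn_of_walk p fun x hx => ?_
  by_cases hx' : ∃ w, ι w = x
  · obtain ⟨w, rfl⟩ := hx'
    show _ ∨ _
    rw [hc1 _ w rfl]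
    exact hr w hx
  · have := hc2 x hx' _ ((hp x).2 hx)
    exact Sym2.mem_iff.1 this

/-- A rooted model by sets gives one by subgraphs. -/
theorem model_of_rooted {H : SimpleGraph W} {G : SimpleGraph V} {ι : W → V} (h : Rooted H G ι) :
    ∃ C : W → G.Subgraph, IsModel H G C ∧ ∀ w, ι w ∈ (C w).verts := by
  obtain ⟨C, h1, h2, h3, h4⟩ := h
  refine ⟨fun w => (⊤ : G.Subgraph).induce (C w), ⟨fun w => ?_, h3, h4⟩, h1⟩
  rw [SimpleGraph.Subgraph.connected_iff']
  have : Nonempty ((⊤ : G.Subgraph).induce (C w)).verts := ⟨⟨ι w, h1 w⟩⟩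
  have key : ∀ z, Conn G (C w) (ι w) z → ∀ hz : z ∈ C w,
      ((⊤ : G.Subgraph).induce (C w)).coe.Reachable ⟨ι w, h1 w⟩ ⟨z, hz⟩ := by
    intro z hz
    induction hz with
    | refl => exact fun _ => SimpleGraph.Reachable.refl _
    | @tail a b _ h ih =>
      intro hb
      refine (ih h.1).trans (SimpleGraph.Adj.reachable ?_)
      simp only [SimpleGraph.Subgraph.coe_adj, SimpleGraph.Subgraph.induce_adj,
        SimpleGraph.Subgraph.top_adj]
      exact h
  exact ⟨fun a b => (key a.1 (h2 w _ a.2) a.2).symm.trans (key b.1 (h2 w _ b.2) b.2)⟩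

/-- Contractibility from the colour form. -/
theorem contractible_of_kempe [Finite W] {H : SimpleGraph W}
    (h : ∀ (V : Type) [Finite V] (G : SimpleGraph V) (ι : W → V) (c : V → W),
      Kempe H G ι c → Rooted H G ι) : Contractible H := by
  intro V _ G ι S hS
  rcases isEmpty_or_nonempty W with hW | hW
  · exact ⟨fun w => isEmptyElim w, ⟨fun w => isEmptyElim w, fun w => isEmptyElim w,
      fun w => isEmptyElim w⟩, fun w => isEmptyElim w⟩
  · obtain ⟨c, hc⟩ := kempe_of_scheme hS
    exact model_of_rooted (h V G ι c hc)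

end Pool.Agent.Work.MP_3cad78_co
end

-- merged part: Pool.Agent.Work.MP_3cad78_co.Rado
section
/-! Rado's theorem for a monotone submodular rank function (the proof of Welsh). -/

namespace Pool.Agent.Work.MP_3cad78_co

open Finset

theorem rado_rank {I E : Type} [DecidableEq I] [DecidableEq E] (r : Finset E → ℕ)
    (mono : ∀ X Y, X ⊆ Y → r X ≤ r Y)
    (sub : ∀ X Y, r (X ∪ Y) + r (X ∩ Y) ≤ r X + r Y) (r0 : r ∅ = 0) (T : Finset I) :
    ∀ (n : ℕ) (A : I → Finset E), ∑ i ∈ T, (A i).card = n →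
      (∀ S ⊆ T, S.card ≤ r (S.biUnion A)) →
      ∃ B : I → Finset E, (∀ i ∈ T, ∃ a ∈ A i, B i = {a}) ∧ T.card ≤ r (T.biUnion B) := by
  intro n
  induction n using Nat.strong_induction_on with
  | _ n ih =>
  intro A hn hA
  by_cases h : ∃ i ∈ T, 1 < (A i).card
  · obtain ⟨i, hi, h2⟩ := h
    obtain ⟨a, ha, b, hb, hab⟩ := Finset.one_lt_card.1 h2
    have step : ∀ x ∈ A i, (∀ S ⊆ T, S.card ≤ r (S.biUnion (Function.update A i ((A i).erase x)))) →
        ∃ B : I → Finset E, (∀ i ∈ T, ∃ a ∈ A i, B i = {a}) ∧ T.card ≤ r (T.biUnion B) := by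
      intro x hx hS
      have hlt : ∑ j ∈ T, (Function.update A i ((A i).erase x) j).card < n := by
        rw [← hn]
        refine Finset.sum_lt_sum (fun j _ => ?_) ⟨i, hi, ?_⟩
        · by_cases hj : j = i
          · subst hj
            simp only [Function.update_self]
            exact Finset.card_le_card (Finset.erase_subset _ _)
          · rw [Function.update_of_ne hj]
        · simp only [Function.update_self]
          exact Finset.card_lt_card (Finset.erase_ssubset hx)
      obtain ⟨B, hB, hT⟩ := ih _ hlt _ rfl hS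
      refine ⟨B, fun j hj => ?_, hT⟩
      obtain ⟨y, hy, e⟩ := hB j hj
      refine ⟨y, ?_, e⟩
      by_cases hji : j = i
      · subst hji
        simp only [Function.update_self] at hy
        exact Finset.mem_of_mem_erase hy
      · rwa [Function.update_of_ne hji] at hy
    by_contra hcon
    have bad : ∀ x ∈ A i, ∃ S ⊆ T, i ∉ S ∧ r (S.biUnion A ∪ (A i).erase x) ≤ S.card := by
      intro x hx
      have h1 : ¬ ∀ S ⊆ T, S.card ≤ r (S.biUnion (Function.update A i ((A i).erase x))) :=
        fun hS => hcon (step x hx hS)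
      push Not at h1
      obtain ⟨S, hS, hlt⟩ := h1
      have hsame : ∀ U : Finset I, i ∉ U →
          U.biUnion (Function.update A i ((A i).erase x)) = U.biUnion A := by
        intro U hU
        refine Finset.biUnion_congr rfl fun j hj => ?_
        have hne : j ≠ i := fun e => hU (e ▸ hj)
        rw [Function.update_of_ne hne]
      have hiS : i ∈ S := by
        by_contra hiS
        rw [hsame S hiS] at hlt
        exact absurd (hA S hS) (not_le.2 hlt)
      refine ⟨S.erase i, (Finset.erase_subset _ _).trans hS, Finset.notMem_erase _ _, ?_⟩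
      have e1 : S.biUnion (Function.update A i ((A i).erase x))
          = (S.erase i).biUnion A ∪ (A i).erase x := by
        conv_lhs => rw [← Finset.insert_erase hiS]
        rw [Finset.biUnion_insert, hsame _ (Finset.notMem_erase _ _), Function.update_self,
          Finset.union_comm]
      rw [e1] at hlt
      have := Finset.card_erase_of_mem hiS
      omega
    obtain ⟨S1, hS1, hi1, h1⟩ := bad a ha
    obtain ⟨S2, hS2, hi2, h2'⟩ := bad b hb
    have hs := sub (S1.biUnion A ∪ (A i).erase a) (S2.biUnion A ∪ (A i).erase b)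
    have hU : (insert i (S1 ∪ S2)).card ≤ r ((insert i (S1 ∪ S2)).biUnion A) :=
      hA _ (Finset.insert_subset hi (Finset.union_subset hS1 hS2))
    have hI : (S1 ∩ S2).card ≤ r ((S1 ∩ S2).biUnion A) :=
      hA _ (Finset.inter_subset_left.trans hS1)
    have m1 : r ((insert i (S1 ∪ S2)).biUnion A) ≤
        r ((S1.biUnion A ∪ (A i).erase a) ∪ (S2.biUnion A ∪ (A i).erase b)) := by
      apply mono
      intro x hx
      simp only [Finset.mem_biUnion, Finset.mem_insert, Finset.mem_union, Finset.mem_erase] at hx ⊢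
      obtain ⟨j, hj, hx⟩ := hx
      rcases hj with rfl | hj | hj
      · by_cases hxa : x = a
        · exact Or.inr (Or.inr ⟨fun e => hab (hxa ▸ e), hx⟩)
        · exact Or.inl (Or.inr ⟨hxa, hx⟩)
      · exact Or.inl (Or.inl ⟨j, hj, hx⟩)
      · exact Or.inr (Or.inl ⟨j, hj, hx⟩)
    have m2 : r ((S1 ∩ S2).biUnion A) ≤
        r ((S1.biUnion A ∪ (A i).erase a) ∩ (S2.biUnion A ∪ (A i).erase b)) := by
      apply mono
      intro x hx
      simp only [Finset.mem_biUnion, Finset.mem_inter, Finset.mem_union] at hx ⊢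
      obtain ⟨j, hj, hx⟩ := hx
      exact ⟨Or.inl ⟨j, hj.1, hx⟩, Or.inl ⟨j, hj.2, hx⟩⟩
    have c1 : (insert i (S1 ∪ S2)).card = (S1 ∪ S2).card + 1 :=
      Finset.card_insert_of_notMem (by simp [hi1, hi2])
    have c2 := Finset.card_union_add_card_inter S1 S2
    omega
  · push Not at h
    refine ⟨A, fun i hi => ?_, hA T (Finset.Subset.refl _)⟩
    have h1 := hA {i} (Finset.singleton_subset_iff.2 hi)
    simp only [Finset.card_singleton, Finset.singleton_biUnion] at h1
    have hne : (A i).Nonempty := by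
      rw [Finset.nonempty_iff_ne_empty]
      intro e
      rw [e, r0] at h1
      omega
    have h2 : (A i).card = 1 := le_antisymm (h i hi) hne.card_pos
    obtain ⟨a, ha⟩ := Finset.card_eq_one.1 h2
    exact ⟨a, by simp [ha], ha⟩

end Pool.Agent.Work.MP_3cad78_co
end

-- merged part: Pool.Agent.Work.MP_3cad78_co.Red
section
/-! The reduction along an independent set of small rank. -/

namespace Pool.Agent.Work.MP_3cad78_co

open Finset Module

variable {V W : Type}

/-- The difference vector of a pair of vertices. -/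
noncomputable def vec [DecidableEq V] (p : V × V) : V → ℚ := Pi.single p.1 1 - Pi.single p.2 1

/-- The rank of a set of pairs in the cycle matroid. -/
noncomputable def rk [DecidableEq V] (X : Finset (V × V)) : ℕ :=
  finrank ℚ (Submodule.span ℚ (vec '' (X : Set (V × V))))

theorem rk_mono [Fintype V] [DecidableEq V] (X Y : Finset (V × V)) (h : X ⊆ Y) : rk X ≤ rk Y :=
  Submodule.finrank_mono (Submodule.span_mono (Set.image_mono (by exact_mod_cast h)))

theorem rk_sub [Fintype V] [DecidableEq V] (X Y : Finset (V × V)) :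
    rk (X ∪ Y) + rk (X ∩ Y) ≤ rk X + rk Y := by
  unfold rk
  rw [← Submodule.finrank_sup_add_finrank_inf_eq (Submodule.span ℚ (vec '' (X : Set (V × V)))),
    Finset.coe_union, Set.image_union, Submodule.span_union]
  have h : Submodule.span ℚ (vec '' ((X ∩ Y : Finset (V × V)) : Set (V × V))) ≤
      Submodule.span ℚ (vec '' (X : Set (V × V))) ⊓ Submodule.span ℚ (vec '' (Y : Set (V × V))) :=
    le_inf (Submodule.span_mono (Set.image_mono (by simp)))
      (Submodule.span_mono (Set.image_mono (by simp)))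
  exact Nat.add_le_add_left (Submodule.finrank_mono h) _

theorem rk_empty [DecidableEq V] : rk (∅ : Finset (V × V)) = 0 := by
  unfold rk
  rw [Finset.coe_empty, Set.image_empty, Submodule.span_empty, finrank_bot]

theorem mem_of_span [Fintype V] [DecidableEq V] (P : Set (V × V)) (D : Set V)
    (hP : ∀ p ∈ P, p.1 ∈ D ↔ p.2 ∈ D) {q : V × V} (hq : vec q ∈ Submodule.span ℚ (vec '' P))
    (h1 : q.1 ∈ D) : q.2 ∈ D := by
  classical
  let l : (V → ℚ) →ₗ[ℚ] ℚ := ∑ z ∈ Finset.univ.filter (· ∈ D), LinearMap.proj z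
  have hl : ∀ x : V, l (Pi.single x 1) = if x ∈ D then 1 else 0 := by
    intro x
    simp only [l, LinearMap.coe_sum, Finset.sum_apply, LinearMap.proj_apply, Pi.single_apply]
    simp
  have hle : Submodule.span ℚ (vec '' P) ≤ LinearMap.ker l := by
    rw [Submodule.span_le]
    rintro _ ⟨p, hp, rfl⟩
    simp only [SetLike.mem_coe, LinearMap.mem_ker, vec, map_sub, hl, hP p hp, sub_self]
  have := hle hq
  simp only [LinearMap.mem_ker, vec, map_sub, hl, h1, if_true] at this
  by_contra h2
  simp [h2] at this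

/-- Recolouring a set `T` along chosen pairs of neighbours which span all pairs. -/
theorem kempe_recolour [Fintype V] [DecidableEq V] {H : SimpleGraph W} {G : SimpleGraph V}
    {ι : W → V} {c : V → W} (hK : Kempe H G ι c) (hp : ∀ a b, G.Adj a b → c a ≠ c b)
    (T : Finset V) (hroot : ∀ w, ι w ∉ T)
    (hind : ∀ y ∈ T, ∀ x, G.Adj y x → H.Adj (c y) (c x) → x ∉ T) (f : V → V × V)
    (hf : ∀ y ∈ T, G.Adj y (f y).1 ∧ G.Adj y (f y).2 ∧ c (f y).1 = c (f y).2 ∧
      (f y).1 ∉ T ∧ (f y).2 ∉ T)
    (hspan : ∀ y ∈ T, ∀ a b, G.Adj y a → G.Adj y b → c a = c b → H.Adj (c y) (c a) →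
      vec (a, b) ∈ Submodule.span ℚ (vec '' (f '' T))) :
    Kempe H G ι fun x => if x ∈ T then c (f x).1 else c x := by
  set c' : V → W := fun x => if x ∈ T then c (f x).1 else c x with hc'
  have out : ∀ x, x ∉ T → c' x = c x := fun x hx => by simp [hc', hx]
  have inn : ∀ x, x ∈ T → c' x = c (f x).1 := fun x hx => by simp [hc', hx]
  refine ⟨fun w => (out _ (hroot w)).trans (hK.1 w), fun u v huv => ?_⟩
  set S' : Set V := {x | c' x = u ∨ c' x = v} with hS'
  have hne := huv.ne
  have hadj : ∀ a b, G.Adj a b → (c a = u ∨ c a = v) → (c b = u ∨ c b = v) →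
      H.Adj (c a) (c b) := by
    intro a b hab ha hb
    have := hp a b hab
    rcases ha with ha | ha <;> rcases hb with hb | hb <;> rw [ha, hb] at this ⊢
    · exact (this rfl).elim
    · exact huv
    · exact huv.symm
    · exact (this rfl).elim
  have link : ∀ y ∈ T, ∀ a b, G.Adj y a → G.Adj y b → c a = c b → H.Adj (c y) (c a) →
      (c a = u ∨ c a = v) → Conn G S' a b := by
    intro y hy a b ha hb e hH hcol
    refine (mem_of_span (f '' T) {z | Conn G S' a z ∧ c z = c a} ?_
      (hspan y hy a b ha hb e hH) ⟨Conn.refl _, rfl⟩).1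
    rintro _ ⟨z, hz, rfl⟩
    obtain ⟨h1, h2, h3, h4, h5⟩ := hf z hz
    have main : c (f z).1 = c a → Conn G S' (f z).1 (f z).2 := by
      intro e1
      have m1 : (f z).1 ∈ S' := by
        show _ ∨ _
        rw [out _ h4, e1]; exact hcol
      have m2 : (f z).2 ∈ S' := by
        show _ ∨ _
        rw [out _ h5, ← h3, e1]; exact hcol
      have m3 : z ∈ S' := by
        show _ ∨ _
        rw [inn _ hz, e1]; exact hcol
      exact (Conn.step m1 m3 h1.symm).trans (Conn.step m3 m2 h2)
    constructor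
    · rintro ⟨k1, k2⟩
      exact ⟨k1.trans (main k2), h3 ▸ k2⟩
    · rintro ⟨k1, k2⟩
      exact ⟨k1.trans (main (h3.trans k2)).symm, h3.trans k2⟩
  have key : ∀ z, Conn G {x | c x = u ∨ c x = v} (ι u) z → (z ∉ T → Conn G S' (ι u) z) ∧
      (z ∈ T → ∃ x, G.Adj z x ∧ (c x = u ∨ c x = v) ∧ Conn G S' (ι u) x) := by
    intro z hz
    induction hz with
    | refl => exact ⟨fun _ => Conn.refl _, fun h => (hroot u h).elim⟩
    | @tail a b _ h ih =>
      obtain ⟨ha, hb, hab⟩ := h
      have ha : c a = u ∨ c a = v := ha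
      have hb : c b = u ∨ c b = v := hb
      by_cases haT : a ∈ T
      · have hbT : b ∉ T := hind a haT b hab (hadj a b hab ha hb)
        refine ⟨fun _ => ?_, fun h => (hbT h).elim⟩
        obtain ⟨x, hx, hcx, hcon⟩ := ih.2 haT
        have e : c x = c b := by
          have h1 := hp a x hx
          have h2 := hp a b hab
          rcases ha with ha | ha <;> rcases hb with hb | hb <;> rcases hcx with hcx | hcx <;>
            simp_all
        exact hcon.trans (link a haT x b hx hab e (hadj a x hx ha hcx) hcx)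
      · refine ⟨fun hbT => (ih.1 haT).trans (Conn.step ?_ ?_ hab),
          fun _ => ⟨a, hab.symm, ha, ih.1 haT⟩⟩
        · show _ ∨ _
          rw [out _ haT]; exact ha
        · show _ ∨ _
          rw [out _ hbT]; exact hb
  exact (key _ (hK.2 u v huv)).1 (hroot v)

open Classical in
/-- The pairs of equally coloured neighbours of `y` whose colour is adjacent to that of `y`. -/
noncomputable def prs [Fintype V] (H : SimpleGraph W) (G : SimpleGraph V) (c : V → W) (y : V) :
    Finset (V × V) :=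
  Finset.univ.filter fun p => G.Adj y p.1 ∧ G.Adj y p.2 ∧ c p.1 = c p.2 ∧ H.Adj (c y) (c p.1)

theorem mem_prs [Fintype V] {H : SimpleGraph W} {G : SimpleGraph V} {c : V → W} {y : V}
    {p : V × V} : p ∈ prs H G c y ↔
      G.Adj y p.1 ∧ G.Adj y p.2 ∧ c p.1 = c p.2 ∧ H.Adj (c y) (c p.1) := by
  simp [prs]

/-- An independent set of non-roots whose pairs have rank at most its size gives a Kempe colouring
with a monochromatic edge. -/
theorem reduce_of_rank [Fintype V] [DecidableEq V] {H : SimpleGraph W} {G : SimpleGraph V}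
    {ι : W → V} {c : V → W} (hK : Kempe H G ι c) (hp : ∀ a b, G.Adj a b → c a ≠ c b)
    (T0 : Finset V) (hne : T0.Nonempty) (hroot : ∀ w, ι w ∉ T0)
    (hind : ∀ y ∈ T0, ∀ x, G.Adj y x → H.Adj (c y) (c x) → x ∉ T0)
    (hnb : ∀ y ∈ T0, ∃ x, G.Adj y x) (hr : rk (T0.biUnion (prs H G c)) ≤ T0.card) :
    ∃ c' : V → W, Kempe H G ι c' ∧ ∃ a b, G.Adj a b ∧ c' a = c' b := by
  classical
  obtain ⟨T, hT, hmin⟩ := Finset.exists_min_image
    (T0.powerset.filter fun T => T.Nonempty ∧ rk (T.biUnion (prs H G c)) ≤ T.card) Finset.card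
    ⟨T0, by simp [hne, hr]⟩
  simp only [Finset.mem_filter, Finset.mem_powerset] at hT hmin
  obtain ⟨hT0, hTne, hTr⟩ := hT
  have hind' : ∀ y ∈ T, ∀ x, G.Adj y x → H.Adj (c y) (c x) → x ∉ T :=
    fun y hy x h1 h2 hx => hind y (hT0 hy) x h1 h2 (hT0 hx)
  have fin : ∀ f : V → V × V, (∀ y ∈ T, G.Adj y (f y).1 ∧ G.Adj y (f y).2 ∧
      c (f y).1 = c (f y).2 ∧ (f y).1 ∉ T ∧ (f y).2 ∉ T) →
      (∀ y ∈ T, ∀ p ∈ prs H G c y, vec p ∈ Submodule.span ℚ (vec '' (f '' T))) →
      ∃ c' : V → W, Kempe H G ι c' ∧ ∃ a b, G.Adj a b ∧ c' a = c' b := by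
    intro f hf hs
    refine ⟨_, kempe_recolour hK hp T (fun w hw => hroot w (hT0 hw)) hind' f hf
      (fun y hy a b h1 h2 h3 h4 => hs y hy (a, b) (mem_prs.2 ⟨h1, h2, h3, h4⟩)), ?_⟩
    obtain ⟨y, hy⟩ := hTne
    exact ⟨y, (f y).1, (hf y hy).1, by simp [hy, (hf y hy).2.2.2.1]⟩
  have proper : ∀ S ⊆ T, S.Nonempty → S ≠ T → S.card < rk (S.biUnion (prs H G c)) := by
    intro S hS hSne hST
    by_contra hcon
    have h1 := hmin S ⟨hS.trans hT0, hSne, not_lt.1 hcon⟩
    exact hST (Finset.eq_of_subset_of_card_le hS h1)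
  by_cases hfull : T.card ≤ rk (T.biUnion (prs H G c))
  · obtain ⟨B, hB, hBr⟩ := rado_rank rk rk_mono rk_sub rk_empty T _ (prs H G c) rfl (by
      intro S hS
      by_cases h1 : S = T
      · rw [h1]; exact hfull
      · rcases S.eq_empty_or_nonempty with rfl | h2
        · simp
        · exact (proper S hS h2 h1).le)
    have hB' : ∀ y, ∃ a : V × V, y ∈ T → a ∈ prs H G c y ∧ B y = {a} := by
      intro y
      by_cases hy : y ∈ T
      · obtain ⟨a, ha⟩ := hB y hy
        exact ⟨a, fun _ => ha⟩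
      · exact ⟨(y, y), fun h => (hy h).elim⟩
    choose f hf using hB'
    have e1 : ((T.biUnion B : Finset (V × V)) : Set (V × V)) = f '' T := by
      ext p
      simp only [Finset.coe_biUnion, Set.mem_iUnion, Finset.mem_coe, Set.mem_image]
      constructor
      · rintro ⟨y, hy, hp⟩
        rw [(hf y hy).2] at hp
        exact ⟨y, hy, (Finset.mem_singleton.1 hp).symm⟩
      · rintro ⟨y, hy, rfl⟩
        exact ⟨y, hy, by rw [(hf y hy).2]; simp⟩
    have hle : Submodule.span ℚ (vec '' (f '' T)) ≤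
        Submodule.span ℚ (vec '' ((T.biUnion (prs H G c) : Finset (V × V)) : Set (V × V))) := by
      refine Submodule.span_mono (Set.image_mono ?_)
      rintro _ ⟨y, hy, rfl⟩
      exact Finset.mem_coe.2 (Finset.mem_biUnion.2 ⟨y, hy, (hf y hy).1⟩)
    have heq := Submodule.eq_of_le_of_finrank_le hle (by
      have := hTr.trans hBr
      unfold rk at this
      rwa [e1] at this)
    refine fin f (fun y hy => ?_) (fun y hy p hp' => ?_)
    · obtain ⟨h1, h2, h3, h4⟩ := mem_prs.1 (hf y hy).1
      exact ⟨h1, h2, h3, hind' y hy _ h1 h4, hind' y hy _ h2 (h3 ▸ h4)⟩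
    · rw [heq]
      exact Submodule.subset_span
        ⟨p, Finset.mem_coe.2 (Finset.mem_biUnion.2 ⟨y, hy, hp'⟩), rfl⟩
  · obtain ⟨y, hy⟩ := hTne
    have hT1 : T = {y} := by
      by_contra hcon
      have hne' : (T.erase y).Nonempty := by
        rw [Finset.nonempty_iff_ne_empty]
        intro e
        rcases (Finset.erase_eq_empty_iff T y).1 e with h | h
        · simp [h] at hy
        · exact hcon h
      have h1 := proper (T.erase y) (Finset.erase_subset _ _) hne'
        (fun e => Finset.notMem_erase y T (e.symm ▸ hy))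
      have h2 := rk_mono _ _ (Finset.biUnion_subset_biUnion_of_subset_left (prs H G c)
        (Finset.erase_subset y T))
      have h3 := Finset.card_erase_of_mem hy
      omega
    obtain ⟨x, hx⟩ := hnb y (hT0 hy)
    have hx' : x ∉ T := by
      rw [hT1, Finset.mem_singleton]
      exact hx.ne'
    refine fin (fun _ => (x, x)) (fun z hz => ?_) (fun z hz p hp' => ?_)
    · have : z = y := by rwa [hT1, Finset.mem_singleton] at hz
      subst this
      exact ⟨hx, hx, rfl, hx', hx'⟩
    · have h0 : rk (T.biUnion (prs H G c)) = 0 := by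
        have : T.card = 1 := by rw [hT1]; simp
        omega
      unfold rk at h0
      rw [Submodule.finrank_eq_zero] at h0
      have : vec p ∈ Submodule.span ℚ
          (vec '' ((T.biUnion (prs H G c) : Finset (V × V)) : Set (V × V))) :=
        Submodule.subset_span ⟨p, Finset.mem_coe.2 (Finset.mem_biUnion.2 ⟨z, hz, hp'⟩), rfl⟩
      rw [h0, Submodule.mem_bot] at this
      rw [this]
      exact Submodule.zero_mem _

/-- The rank of the pairs is at most the size of any set containing their non-root members. -/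
theorem rk_le_card [Fintype V] [DecidableEq V] {ι : W → V} {c : V → W} (hc : ∀ w, c (ι w) = w)
    (X : Finset (V × V)) (N : Finset V)
    (h : ∀ p ∈ X, c p.1 = c p.2 ∧ (p.1 ∈ N ∨ ∃ w, ι w = p.1) ∧ (p.2 ∈ N ∨ ∃ w, ι w = p.2)) :
    rk X ≤ N.card := by
  classical
  have hm : ∀ x, (x ∈ N ∨ ∃ w, ι w = x) → vec (x, ι (c x)) ∈
      Submodule.span ℚ ((N.image fun x => vec (x, ι (c x)) : Finset (V → ℚ)) : Set (V → ℚ)) := by
    rintro x (hx | ⟨w, rfl⟩)
    · exact Submodule.subset_span (Finset.mem_coe.2 (Finset.mem_image.2 ⟨x, hx, rfl⟩))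
    · simp [vec, hc]
  refine le_trans (Submodule.finrank_mono ?_) ((finrank_span_finset_le_card
    (R := ℚ) (N.image fun x => vec (x, ι (c x)))).trans Finset.card_image_le)
  rw [Submodule.span_le]
  rintro _ ⟨p, hp, rfl⟩
  obtain ⟨e, h1, h2⟩ := h p hp
  have : vec p = vec (p.1, ι (c p.1)) - vec (p.2, ι (c p.2)) := by
    simp [vec, e]
  rw [this]
  exact Submodule.sub_mem _ (hm _ h1) (hm _ h2)

end Pool.Agent.Work.MP_3cad78_co
end

-- merged part: Pool.Agent.Work.MP_3cad78_co.Bip
section
/-! Every bipartite graph is contractible. -/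

namespace Pool.Agent.Work.MP_3cad78_co

variable {V W : Type}

theorem rooted_of_adj {H : SimpleGraph W} {G : SimpleGraph V} {ι : W → V} {c : V → W}
    (hc : ∀ w, c (ι w) = w) (h : ∀ u v, H.Adj u v → G.Adj (ι u) (ι v)) : Rooted H G ι := by
  refine ⟨fun w => {ι w}, fun w => rfl, fun w x hx => ?_, fun u v huv => ?_,
    fun u v huv => ⟨_, rfl, _, rfl, h u v huv⟩⟩
  · rw [Set.mem_singleton_iff.1 hx]; exact Conn.refl _
  · rw [Set.disjoint_singleton]
    intro e
    exact huv (by rw [← hc u, e, hc])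

theorem bip_kempe (H : SimpleGraph W) (s : W → Bool) (hs : ∀ u v, H.Adj u v → s u ≠ s v)
    (V : Type) [Finite V] (G : SimpleGraph V) (ι : W → V) (c : V → W) (hK : Kempe H G ι c) :
    Rooted H G ι := by
  refine rooted_of_step H ?_ _ V G ι c rfl hK
  intro V _ G ι c hK hp
  classical
  have := Fintype.ofFinite V
  let N : Bool → Finset V := fun b => Finset.univ.filter fun x =>
    (¬ ∃ w, ι w = x) ∧ (∃ z, G.Adj x z) ∧ s (c x) = b
  have hN : ∀ b x, x ∈ N b ↔ (¬ ∃ w, ι w = x) ∧ (∃ z, G.Adj x z) ∧ s (c x) = b := by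
    intro b x; simp [N]
  have main : ∀ b, (N b).Nonempty → (N (!b)).card ≤ (N b).card →
      ∃ c' : V → W, Kempe H G ι c' ∧ ∃ a b, G.Adj a b ∧ c' a = c' b := by
    intro b hne hle
    refine reduce_of_rank hK hp (N b) hne (fun w hw => ((hN _ _).1 hw).1 ⟨w, rfl⟩)
      (fun y hy x _ h2 hx => hs _ _ h2 (((hN _ _).1 hy).2.2.trans ((hN _ _).1 hx).2.2.symm))
      (fun y hy => ((hN _ _).1 hy).2.1) (le_trans (rk_le_card hK.1 _ _ ?_) hle)
    intro p hp'
    obtain ⟨y, hy, hp'⟩ := Finset.mem_biUnion.1 hp'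
    obtain ⟨h1, h2, h3, h4⟩ := mem_prs.1 hp'
    have h5 : s (c p.1) = !b := by
      have k1 := hs _ _ h4
      rw [((hN _ _).1 hy).2.2] at k1
      revert k1
      cases s (c p.1) <;> cases b <;> simp
    refine ⟨h3, ?_, ?_⟩
    · by_cases hr : ∃ w, ι w = p.1
      · exact Or.inr hr
      · exact Or.inl ((hN _ _).2 ⟨hr, ⟨y, h1.symm⟩, h5⟩)
    · by_cases hr : ∃ w, ι w = p.2
      · exact Or.inr hr
      · exact Or.inl ((hN _ _).2 ⟨hr, ⟨y, h2.symm⟩, h3 ▸ h5⟩)
  by_cases h0 : (N true).card = 0 ∧ (N false).card = 0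
  · refine Or.inl (rooted_of_adj hK.1 fun u v huv => ?_)
    have hroot : ∀ x z, G.Adj x z → ∃ w, ι w = x := by
      intro x z hxz
      by_contra hcon
      have h1 : x ∈ N (s (c x)) := (hN _ _).2 ⟨hcon, ⟨z, hxz⟩, rfl⟩
      have h2 := Finset.card_pos.2 ⟨x, h1⟩
      cases h : s (c x) <;> rw [h] at h2 <;> omega
    rcases Relation.ReflTransGen.cases_head (hK.2 u v huv) with e | ⟨z, ⟨-, hz, hadj⟩, -⟩
    · exact (huv.ne (by rw [← hK.1 u, e, hK.1])).elim
    · obtain ⟨w, rfl⟩ := hroot z _ hadj.symm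
      have hz : c (ι w) = u ∨ c (ι w) = v := hz
      rw [hK.1] at hz
      rcases hz with rfl | rfl
      · exact (hadj.ne rfl).elim
      · exact hadj
  · right
    rcases le_total (N true).card (N false).card with h | h
    · exact main false (Finset.card_pos.1 (by omega)) h
    · exact main true (Finset.card_pos.1 (by omega)) h

theorem contractible_of_bipartite [Finite W] (H : SimpleGraph W) (h : H.IsBipartite) :
    Contractible H := by
  obtain ⟨col⟩ := h
  refine contractible_of_kempe (bip_kempe H (fun w => decide (col w = 0)) fun u v huv => ?_)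
  have h1 := col.valid huv
  revert h1
  generalize col u = a
  generalize col v = b
  revert a b
  decide

end Pool.Agent.Work.MP_3cad78_co
end
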