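import Pool.Agent.Work.MP_3cad78_co.Neg

/-! The complete bipartite graph with parts of sizes three and five plus one edge is not
contractible: a finite search on a graph with nineteen vertices. -/

namespace Pool.Agent.Work.MP_3cad78_co

namespace Cert

def am (v : ℕ) : ℕ := [70400, 23552, 7936, 278528, 139264, 294912, 196608, 303104, 278533, 139269,
  294918, 196614, 303111, 4752, 65802, 5280, 18497, 2640, 5544].getD v 0

def he : List (ℕ × ℕ) := [(0, 1), (0, 3), (0, 4), (0, 7), (1, 5), (1, 6), (1, 7), (2, 3), (2, 4),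
  (2, 5), (2, 6), (2, 7)]

def nbl (r : ℕ) : List ℕ → ℕ
  | [] => 0
  | v :: l => if r.testBit v then am v ||| nbl r l else nbl r l

def nb (r : ℕ) : ℕ := nbl r [0, 1, 2, 3, 4, 5, 6, 7, 8, 9, 10, 11, 12, 13, 14, 15, 16, 17, 18]

def force {α : Type} (n : ℕ) (k : ℕ → α) : α :=
  match n with
  | 0 => k 0
  | m + 1 => k (m + 1)

def forceL {α : Type} : List ℕ → (List ℕ → α) → α
  | [], k => k []
  | a :: l, k => force a fun a' => forceL l fun l' => k (a' :: l')

def clo (A : ℕ) : ℕ → ℕ → ℕ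
  | 0, _ => A
  | f + 1, r => force (r ||| (nb r &&& A)) fun n => if n = r then r else clo A f n

def clear (r x : ℕ) : ℕ := r ^^^ (r &&& 2 ^ x)

def go : ℕ → List ℕ → (ℕ → ℕ) → Option (List ℕ)
  | 0, _, _ => none
  | f + 1, c, A =>
    forceL ([0, 1, 2, 3, 4, 5, 6, 7].map fun u => force (A u) fun a => clo a 12 (2 ^ u)) fun R =>
      if he.any fun e => (nb (R.getD e.1 0) &&& R.getD e.2 0) == 0 then some c else
      match c with
      | [] => none
      | a :: c =>
        match go f c fun v => if v = a / 32 then R.getD v 0 else clear (R.getD v 0) (a % 32) with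
        | none => none
        | some c' => go f c' fun v => if v = a / 32 then clear (R.getD v 0) (a % 32) else R.getD v 0

def cert : List ℕ := [
  8, 209, 141, 114, 140, 175, 47, 140, 42, 170, 16, 82, 175, 47, 110, 75, 107, 82, 175, 47, 75,
  80, 82, 14, 82, 175, 47, 13, 173, 145, 139, 114, 175, 47, 208, 82, 175, 47, 48, 17, 237, 145,
  139, 114, 175, 208, 12, 43, 73, 76, 108, 42, 170, 172, 44, 233, 48, 47, 208, 82, 15, 239, 43,
  46, 73, 79, 206, 75, 137, 44, 76, 74, 172, 48, 17, 140, 112, 49, 43, 73, 18, 242, 42, 170, 75,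
  114, 44, 9, 13, 80, 106, 110, 74, 14, 16, 17, 47, 175, 175, 47, 44, 10, 41, 73, 80, 110, 82,
  14, 80, 110, 82, 14, 145, 208, 114, 239, 12, 42, 13, 47, 82, 239, 15, 13, 47, 203, 9, 12, 42,
  208, 114, 108, 9, 239, 15, 13, 47, 82, 239, 15, 13, 47, 73, 12, 42, 73, 81, 12, 48, 42, 170,
  16, 209, 141, 140, 242, 232, 114, 175, 47, 178, 15, 239, 46, 168, 11, 14, 44, 75, 76, 9, 78,
  172, 74, 201, 234, 12, 43, 73, 12, 9, 11, 75, 201, 42, 82, 46, 15, 239, 46, 18, 170, 232, 11,
  46, 73, 75, 78, 201, 43, 238, 175, 242, 14, 44, 232, 50, 79, 47, 82, 13, 49, 9, 208, 140, 104,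
  141, 42, 170, 114, 175, 44, 236, 104, 17, 43, 47, 200, 18, 12, 17, 43, 178, 104, 15, 42, 170,
  203, 110, 18, 78, 104, 43, 110, 203, 44, 178, 110, 43, 203, 12, 44, 242, 110, 43, 203, 12, 44,
  12, 139, 46, 75, 46, 42, 82, 114, 170, 18, 175, 114, 145, 48, 44, 236, 75, 46, 81, 237, 110,
  141, 43, 203, 77, 114, 47, 110, 43, 203, 140, 141, 76, 40, 50, 12, 145, 208, 200, 42, 170, 114,
  15, 42, 170, 178, 104, 15, 42, 170, 42, 82, 72, 46, 18, 170, 232, 48, 178, 110, 237, 107, 74,
  75, 41, 15, 201, 77, 234, 110, 237, 107, 42, 82, 75, 41, 201, 15, 72, 112, 49, 77, 81, 13, 239,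
  170, 45, 210, 114, 237, 15, 42, 170, 41, 18, 237, 78, 42, 170, 41, 40, 209, 141, 236, 112, 42,
  46, 173, 236, 112, 49, 237, 145, 139, 80, 208, 108, 137, 236, 112, 49, 41, 208, 140, 104, 178,
  110, 236, 43, 242, 110, 175, 75, 44, 203, 44, 47, 236, 139, 46, 43, 141, 206, 114, 239, 114,
  239, 110, 140, 242, 232, 137, 137, 206, 114, 236, 48, 72, 236, 48, 44, 178, 110, 233, 139, 110,
  107, 137, 233, 139, 242, 232, 75, 137, 104, 233, 139, 46, 114, 175, 237, 145, 48, 47]

/-- Packed tables of neighbourhoods (twenty bits per entry). -/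
def tab0 : ℕ := 0x7ff007ff007ff007ff007ff007fc007f3007e0007ff007ff007bf007bf007ff007fc007b3007a0007df007df007df007df007df007dc007d3007c0007df007df0079f0079f007df007dc00793007800077f0077f0077f0077f0077f0077c00773007600037f0037f0033f0033f0037f0037c00333003200075f0075f0075f0075f0075f0075c00753007400035f0035f0031f0031f0035f0035c0031300300007ff006ff007ff006ff007ff006fc007f3006e0007ff006ff007bf006bf007ff006fc007b3006a0005df004df005df004df005df004dc005d3004c0005df004df0059f0049f005df004dc00593004800077f0067f0077f0067f0077f0067c00773006600037f0027f0033f0023f0037f0027c00333002200055f0045f0055f0045f0055f0045c00553004400015f0005f0011f0001f0015f0005c001130000000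

/-- Packed tables of neighbourhoods (twenty bits per entry). -/
def tab1 : ℕ := 0x7e0077e0077a0077a0077e0077e0077a0077a0077e0077e0077a0077a0077e0077e0077a0077a0076e0076e0076a0076a0074e0074e0074a0074a0076e0076e0076a0076a0074e0074e0074a0074a0077e0077e0077a0077a0077e0077c0077a006780067e007760077a007320077e007740077a006300066e0076e0076a0076a0074e0074c0074a006480066e005660056a005220054e005440054a00000000

/-- Packed tables of neighbourhoods (twenty bits per entry). -/
def tab2 : ℕ := 0x15ffb15ffb05ff905ff915ffb15ffb05ff905ff911ffa11ffa01ff801ff811ffa11ffa01ff801ff815ffb15deb05ff905de915ffb15deb05ff905de9117ba115aa017b8015a8117ba115aa017b8015a815ffb15ffb05ef105ef115bdb14b5b05ad104a5111ffa11ffa01ef001ef011bda10b5a01ad000a5015ffb15deb05ef105ce115bdb1494b05ad104841117ba115aa016b0014a01139a1010a0129000000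

/-- Table lookup. -/
def look (T x : ℕ) : ℕ := Nat.mod (Nat.shiftRight T (Nat.mul x 20)) 1048576

/-- The neighbourhood of a set, by three lookups. -/
def nbF (r : ℕ) : ℕ :=
  Nat.lor (look tab0 (Nat.mod r 128)) (Nat.lor (look tab1 (Nat.mod (Nat.shiftRight r 7) 64))
    (look tab2 (Nat.mod (Nat.shiftRight r 13) 64)))

theorem nbl_append (r : ℕ) (l l' : List ℕ) : nbl r (l ++ l') = nbl r l ||| nbl r l' := by
  induction l with
  | nil => simp [nbl]
  | cons v l ih =>
    simp only [List.cons_append, nbl, ih]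
    split_ifs
    · rw [Nat.or_assoc]
    · rfl

theorem nbl_congr {r s : ℕ} (l : List ℕ) (h : ∀ v ∈ l, r.testBit v = s.testBit v) :
    nbl r l = nbl s l := by
  induction l with
  | nil => rfl
  | cons v l ih =>
    simp only [nbl, h v List.mem_cons_self, ih fun w hw => h w (List.mem_cons_of_mem _ hw)]

theorem nbl_window (r a k : ℕ) (l : List ℕ) (h : ∀ v ∈ l, a ≤ v ∧ v < a + k) :
    nbl r l = nbl (((r >>> a) % 2 ^ k) <<< a) l := by
  refine nbl_congr l fun v hv => ?_
  obtain ⟨h1, h2⟩ := h v hv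
  have h3 : v - a < k := by omega
  have h4 : a + (v - a) = v := by omega
  simp [Nat.testBit_shiftLeft, Nat.testBit_mod_two_pow, Nat.testBit_shiftRight, h1, h3, h4]

theorem tab0_ok : ∀ x < 2 ^ 7, nbl (x <<< 0) [0, 1, 2, 3, 4, 5, 6] = look tab0 x := by
  decide +kernel

theorem tab1_ok : ∀ x < 2 ^ 6, nbl (x <<< 7) [7, 8, 9, 10, 11, 12] = look tab1 x := by
  decide +kernel

theorem tab2_ok : ∀ x < 2 ^ 6, nbl (x <<< 13) [13, 14, 15, 16, 17, 18] = look tab2 x := by
  decide +kernel

theorem nb_eq (r : ℕ) : nb r = nbF r := by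
  have e : nb r = nbl r ([0, 1, 2, 3, 4, 5, 6] ++ ([7, 8, 9, 10, 11, 12] ++
    [13, 14, 15, 16, 17, 18])) := rfl
  rw [e, nbl_append, nbl_append, nbl_window r 0 7 _ (by decide), nbl_window r 7 6 _ (by decide),
    nbl_window r 13 6 [13, 14, 15, 16, 17, 18] (by decide),
    tab0_ok _ (Nat.mod_lt _ (by decide)), tab1_ok _ (Nat.mod_lt _ (by decide)),
    tab2_ok _ (Nat.mod_lt _ (by decide))]
  rfl

/-- The closure, with table lookups. -/
def cloF (A : ℕ) : ℕ → ℕ → ℕ
  | 0, _ => A
  | f + 1, r => force (Nat.lor r (Nat.land (nbF r) A)) fun n =>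
      cond (Nat.beq n r) r (cloF A f n)

theorem clo_eq (A f r : ℕ) : clo A f r = cloF A f r := by
  induction f generalizing r with
  | zero => rfl
  | succ f ih =>
    rw [clo, cloF, nb_eq]
    congr 1
    funext n
    by_cases h : n = r
    · rw [if_pos h, h, Nat.beq_refl]; rfl
    · rw [if_neg h, ih, Bool.eq_false_iff.2 fun e => h (Nat.eq_of_beq_eq_true e)]; rfl

/-- Deleting a point from a set. -/
def clearF (r x : ℕ) : ℕ := Nat.xor r (Nat.land r (Nat.pow 2 x))

/-- The search, with table lookups. -/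
def goF : ℕ → List ℕ → (ℕ → ℕ) → Option (List ℕ)
  | 0, _, _ => none
  | f + 1, c, A =>
    forceL ([0, 1, 2, 3, 4, 5, 6, 7].map fun u => force (A u) fun a => cloF a 12 (Nat.pow 2 u))
      fun R =>
      cond (he.any fun e => Nat.beq (Nat.land (nbF (R.getD e.1 0)) (R.getD e.2 0)) 0) (some c) <|
      match c with
      | [] => none
      | a :: c =>
        force (Nat.div a 32) fun i => force (Nat.mod a 32) fun x =>
        match goF f c fun v => cond (Nat.beq v i) (R.getD v 0) (clearF (R.getD v 0) x) with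
        | none => none
        | some c' => goF f c' fun v => cond (Nat.beq v i) (clearF (R.getD v 0) x) (R.getD v 0)

theorem force_eq' {α : Type} (n : ℕ) (k : ℕ → α) : force n k = k n := by cases n <;> rfl

theorem cond_beq {α : Type} (v i : ℕ) (x y : α) :
    cond (Nat.beq v i) x y = if v = i then x else y := by
  by_cases h : v = i
  · rw [if_pos h, h, Nat.beq_refl]; rfl
  · rw [if_neg h, Bool.eq_false_iff.2 fun e => h (Nat.eq_of_beq_eq_true e)]; rfl

theorem beq_eq_beq (a b : ℕ) : Nat.beq a b = (a == b) := by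
  by_cases h : a = b
  · rw [h, Nat.beq_refl, beq_self_eq_true]
  · rw [Bool.eq_false_iff.2 fun e => h (Nat.eq_of_beq_eq_true e), beq_false_of_ne h]

theorem go_eq (f : ℕ) (c : List ℕ) (A : ℕ → ℕ) : go f c A = goF f c A := by
  induction f generalizing c A with
  | zero => rfl
  | succ f ih =>
    simp only [go, goF, clo_eq, nb_eq, ih, force_eq', cond_beq]
    simp only [beq_eq_beq, Bool.cond_eq_ite]
    rfl

theorem run : (go 40 cert fun u => 524032 ||| 2 ^ u).isSome = true := by
  rw [go_eq]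
  decide +kernel

theorem force_eq {α : Type} (n : ℕ) (k : ℕ → α) : force n k = k n := by cases n <;> rfl

theorem forceL_eq {α : Type} (l : List ℕ) (k : List ℕ → α) : forceL l k = k l := by
  induction l generalizing k with
  | nil => rfl
  | cons a l ih => simp only [forceL, force_eq, ih]

theorem nbl_bit {r x y : ℕ} (l : List ℕ) (hx : x ∈ l) (h1 : r.testBit x) (h2 : (am x).testBit y) :
    (nbl r l).testBit y := by
  induction l with
  | nil => cases hx
  | cons v l ih =>
    rcases List.mem_cons.1 hx with rfl | hx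
    · simp [nbl, h1, h2]
    · unfold nbl
      split_ifs
      · simp [ih hx]
      · exact ih hx

theorem nb_bit {r x y : ℕ} (hx : x < 19) (h1 : r.testBit x) (h2 : (am x).testBit y) :
    (nb r).testBit y :=
  nbl_bit _ (by simp only [List.mem_cons]; omega) h1 h2

theorem clear_bit {r x y : ℕ} (h : r.testBit y) (hne : y ≠ x) : (clear r x).testBit y := by
  simp [clear, h, hne.symm]

structure Mod (D : ℕ → ℕ → Prop) : Prop where
  dis : ∀ u v x, u < 8 → v < 8 → D u x → D v x → u = v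
  con : ∀ u < 8, ∀ r : ℕ, r.testBit u →
    (∀ x y, x < 19 → r.testBit x → (am x).testBit y → D u y → r.testBit y) →
    ∀ y, D u y → r.testBit y
  adj : ∀ e ∈ he, ∃ x y, x < 19 ∧ D e.1 x ∧ D e.2 y ∧ (am x).testBit y

variable {D : ℕ → ℕ → Prop}

theorem clo_bit (h : Mod D) {u A : ℕ} (hu : u < 8) (hA : ∀ y, D u y → A.testBit y) (f r : ℕ)
    (hr : r.testBit u) : ∀ y, D u y → (clo A f r).testBit y := by
  induction f generalizing r with
  | zero => exact hA
  | succ f ih =>
    rw [clo, force_eq]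
    split_ifs with e
    · refine h.con u hu r hr fun x y a b c d => ?_
      rw [← e]
      simp [nb_bit a b c, hA y d]
    · exact ih _ (by simp [hr])

theorem go_sound (h : Mod D) (hlt : ∀ u x, D u x → u < 8) (f : ℕ) (c : List ℕ) (A : ℕ → ℕ)
    (hA : ∀ u < 8, ∀ y, D u y → (A u).testBit y) : go f c A = none := by
  induction f generalizing c A with
  | zero => rfl
  | succ f ih =>
    rw [go, forceL_eq]
    generalize hR : ([0, 1, 2, 3, 4, 5, 6, 7].map fun u =>
      force (A u) fun a => clo a 12 (2 ^ u)) = R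
    have k : ∀ u < 8, ∀ y, D u y → (R.getD u 0).testBit y := by
      intro u hu y hy
      have := clo_bit h hu (hA u hu) 12 (2 ^ u) (by simp) y hy
      rw [← hR]
      simp only [force_eq]
      interval_cases u <;> exact this
    split_ifs with e
    · obtain ⟨e, he1, he2⟩ := List.any_eq_true.1 e
      obtain ⟨x, y, a, b, c, d⟩ := h.adj e he1
      have z : (nb (R.getD e.1 0) &&& R.getD e.2 0).testBit y := by
        rw [Nat.testBit_and, nb_bit a (k _ (hlt _ _ b) x b) d, k _ (hlt _ _ c) y c]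
        rfl
      rw [beq_iff_eq.1 he2] at z
      simp at z
    · rcases c with _ | ⟨a, c⟩
      · rfl
      · by_cases hd : D (a / 32) (a % 32)
        · simp only
          rw [ih]
          intro u hu y hy
          split_ifs with e
          · exact k u hu y hy
          · exact clear_bit (k u hu y hy) fun q => e (h.dis _ _ y hu (hlt _ _ hd) hy (q ▸ hd))
        · simp only
          split
          · rfl
          · refine ih _ _ fun u hu y hy => ?_
            split_ifs with e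
            · exact clear_bit (k u hu y hy) fun q => hd (e ▸ q ▸ hy)
            · exact k u hu y hy

def col : Fin 11 → Fin 8 := ![3, 4, 5, 6, 7, 0, 0, 1, 1, 2, 2]

def fg : SimpleGraph (Fin 11) where
  Adj j j' := (am (j + 8)).testBit (j' + 8)
  symm := ⟨by decide⟩
  loopless := ⟨by decide⟩

end Cert

open Cert

variable {W : Type} {H : SimpleGraph W}

/-- Two adjacent vertices and a third vertex with five common neighbours. -/
def K35e (H : SimpleGraph W) : Prop :=
  ∃ (a b c : W) (s : Fin 5 → W), H.Adj a b ∧ a ≠ c ∧ b ≠ c ∧ Function.Injective s ∧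
    ∀ i, H.Adj a (s i) ∧ H.Adj b (s i) ∧ H.Adj c (s i)

theorem K35e.not_contractible [Finite W] (h : K35e H) : ¬ Contractible H := by
  intro hH
  obtain ⟨a, b, c, s, h1, h2, h3, h4, h5⟩ := h
  let φ : Fin 8 → W := ![a, b, c, s 0, s 1, s 2, s 3, s 4]
  have hφ : Function.Injective φ := by
    have k1 := fun i => (h5 i).1.ne
    have k2 := fun i => (h5 i).2.1.ne
    have k3 := fun i => (h5 i).2.2.ne
    have k4 := fun i => (h5 i).1.ne'
    have k5 := fun i => (h5 i).2.1.ne'
    have k6 := fun i => (h5 i).2.2.ne'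
    intro i j
    fin_cases i <;> fin_cases j <;>
      simp [φ, k1, k2, k3, k4, k5, k6, h1.ne, h1.ne', h2, h3, h2.symm, h3.symm, h4.eq_iff]
  have hE : ∀ u v : Fin 8, (u.1, v.1) ∈ he → H.Adj (φ u) (φ v) := by
    intro u v
    fin_cases u <;> fin_cases v <;> simp [φ, he, h1, h5]
  have f1 : ∀ j j' : Fin 11, (am (j + 8)).testBit (j' + 8) →
      (((col j).1, (col j').1) ∈ he ∨ ((col j').1, (col j).1) ∈ he) ∧
      (am (col j')).testBit (j + 8) ∧ (am (j + 8)).testBit (col j') := by decide +kernel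
  have f2 : ∀ e ∈ he, ∃ j j' : Fin 11, (am (j + 8)).testBit (j' + 8) ∧ (col j).1 = e.1 ∧
      (col j').1 = e.2 := by decide +kernel
  obtain ⟨D, d1, d2, d3⟩ := dbl_model hH fg (fun j => φ (col j)) fun j j' h =>
    (f1 j j' h).1.elim (hE _ _) fun k => (hE _ _ k).symm
  have := go_sound (D := fun u x => ∃ i : Fin 8, i.1 = u ∧
      (x = u ∨ ∃ j : Fin 11, x = j + 8 ∧ j ∈ D (φ i))) ⟨?_, ?_, ?_⟩ ?_ 40 cert
    (fun u => 524032 ||| 2 ^ u) ?_
  · have k := run
    rw [this] at k
    cases k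
  · rintro _ _ x - - ⟨i, rfl, a | ⟨j, a, b⟩⟩ ⟨i', rfl, a' | ⟨j', a', b'⟩⟩
    · omega
    · omega
    · omega
    · obtain rfl : j = j' := Fin.ext (by omega)
      rw [hφ (d1 _ _ j b b')]
  · rintro _ - r k1 k2 y ⟨i, rfl, rfl | ⟨j, rfl, b⟩⟩
    · exact k1
    · refine d2 (φ i) {j | r.testBit (j + 8)} ?_ ?_ b
      · rintro j hj ⟨j', a, e⟩
        obtain rfl := hφ e
        exact k2 _ _ (by omega) k1 (f1 j j' a).2.1 ⟨_, rfl, Or.inr ⟨j, rfl, hj⟩⟩
      · intro j hj _ j' hj' a
        exact k2 _ _ (by omega) hj a ⟨_, rfl, Or.inr ⟨j', rfl, hj'⟩⟩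
  · intro e he
    obtain ⟨j0, j1, a, e1, e2⟩ := f2 e he
    rw [← e1, ← e2]
    rcases d3 j0 j1 a with ⟨j, hj, j', b, e⟩ | ⟨j, hj, j', b, e⟩ | ⟨j, hj, j', hj', b⟩
    · exact ⟨_, _, by omega, ⟨_, rfl, Or.inl rfl⟩, ⟨_, rfl, Or.inr ⟨j, rfl, hj⟩⟩,
        hφ e ▸ (f1 j j' b).2.1⟩
    · exact ⟨_, _, by omega, ⟨_, rfl, Or.inr ⟨j, rfl, hj⟩⟩, ⟨_, rfl, Or.inl rfl⟩,
        hφ e ▸ (f1 j j' b).2.2⟩
    · exact ⟨_, _, by omega, ⟨_, rfl, Or.inr ⟨j, rfl, hj⟩⟩, ⟨_, rfl, Or.inr ⟨j', rfl, hj'⟩⟩, b⟩
  · rintro _ x ⟨i, rfl, -⟩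
    exact i.2
  · rintro _ - y ⟨i, rfl, rfl | ⟨j, rfl, -⟩⟩
    · simp
    · rw [Nat.testBit_or, (by decide : ∀ j : Fin 11, Nat.testBit 524032 (j + 8) = true) j]
      rfl

end Pool.Agent.Work.MP_3cad78_co
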