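import Pool.Agent.Work.MP_3cad78_co.Bip

/-! Every graph whose edges are covered by two vertices is contractible. -/

namespace Pool.Agent.Work.MP_3cad78_co

variable {V W : Type}

/-- Last visit of a walk to its first vertex. -/
theorem Conn.last {G : SimpleGraph V} {S : Set V} {a b : V} (h : Conn G S a b) (hne : a ≠ b) :
    ∃ w, G.Adj a w ∧ a ∈ S ∧ w ∈ S ∧ w ≠ a ∧ Conn G (S \ {a}) w b := by
  have key : ∀ z, Conn G S a z →
      z = a ∨ ∃ w, G.Adj a w ∧ a ∈ S ∧ w ∈ S ∧ w ≠ a ∧ z ≠ a ∧ Conn G (S \ {a}) w z := by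
    intro z hz
    induction hz with
    | refl => exact Or.inl rfl
    | @tail p q _ hpq ih =>
      obtain ⟨hp, hq', hadj⟩ := hpq
      by_cases hq : q = a
      · exact Or.inl hq
      · right
        rcases ih with e | ⟨w, h1, h2, h3, h4, h5, h6⟩
        · exact ⟨q, e ▸ hadj, e ▸ hp, hq', hq, hq, Conn.refl _⟩
        · exact ⟨w, h1, h2, h3, h4, hq,
            h6.trans (Conn.step (S := S \ {a}) ⟨hp, h5⟩ ⟨hq', hq⟩ hadj)⟩
  rcases key b h with e | ⟨w, h1, h2, h3, h4, -, h6⟩
  · exact (hne e.symm).elim
  · exact ⟨w, h1, h2, h3, h4, h6⟩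

/-- A walk to `b` from a neighbour of `a` either avoids `w` or reaches `w` from `b`. -/
theorem Conn.avoid {G : SimpleGraph V} {S : Set V} {a b w : V} (h : Conn G S a b)
    (hw : ¬ Conn G S w b) : Conn G (S \ {w}) a b := by
  induction h using Relation.ReflTransGen.head_induction_on with
  | refl => exact Conn.refl _
  | @head p q h1 h2 ih =>
    have hq : q ≠ w := fun e => hw (e ▸ h2)
    have hp : p ≠ w := fun e => hw (e ▸ Relation.ReflTransGen.head h1 h2)
    exact (Conn.step (S := S \ {w}) ⟨h1.1, hp⟩ ⟨h1.2.1, hq⟩ h1.2.2).trans ih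

theorem cover2_kempe (H : SimpleGraph W) (x y : W)
    (hc : ∀ u v, H.Adj u v → u = x ∨ u = y ∨ v = x ∨ v = y)
    (V : Type) [Finite V] (G : SimpleGraph V) (ι : W → V) (c : V → W) (hK : Kempe H G ι c) :
    Rooted H G ι := by
  classical
  refine rooted_of_step H ?_ _ V G ι c rfl hK
  intro V _ G ι c hK hp
  have inj : ∀ u v, ι u = ι v → u = v := fun u v e => by rw [← hK.1 u, e, hK.1]
  by_cases hxy : H.Adj x y ∧ ¬ G.Adj (ι x) (ι y)
  swap
  · left
    let H' : SimpleGraph W :=
      { Adj := fun u v => H.Adj u v ∧ ¬ ((u = x ∨ u = y) ∧ (v = x ∨ v = y))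
        symm := ⟨fun u v h => ⟨h.1.symm, fun k => h.2 ⟨k.2, k.1⟩⟩⟩
        loopless := ⟨fun u h => h.1.ne rfl⟩ }
    obtain ⟨C, h1, h2, h3, h4⟩ := bip_kempe H' (fun u => decide (u = x ∨ u = y)) (by
      intro u v huv e
      have k := hc u v huv.1
      have e' : (u = x ∨ u = y) ↔ (v = x ∨ v = y) := decide_eq_decide.1 e
      have := huv.2
      tauto) V G ι c ⟨hK.1, fun u v huv => hK.2 u v huv.1⟩
    refine ⟨C, h1, h2, h3, fun u v huv => ?_⟩
    by_cases k : (u = x ∨ u = y) ∧ (v = x ∨ v = y)
    · refine ⟨_, h1 u, _, h1 v, ?_⟩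
      have hne := huv.ne
      obtain ⟨rfl | rfl, rfl | rfl⟩ := k
      · exact (hne rfl).elim
      · by_contra hn; exact hxy ⟨huv, hn⟩
      · by_contra hn; exact hxy ⟨huv.symm, fun h => hn h.symm⟩
      · exact (hne rfl).elim
    · exact h4 u v ⟨huv, k⟩
  obtain ⟨hxy, hnadj⟩ := hxy
  right
  -- the statement for an ordered pair of hubs
  have side : ∀ p q : W, p ≠ q → (∀ u v, H.Adj u v → u = p ∨ u = q ∨ v = p ∨ v = q) →
      ∀ b, H.Adj p b → b ≠ q →
      (∃ c' : V → W, Kempe H G ι c' ∧ ∃ a b, G.Adj a b ∧ c' a = c' b) ∨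
      ∃ w, G.Adj (ι p) w ∧ c w = b ∧
        Conn G ({z | c z = q ∨ c z = b} \ {ι q}) w (ι b) := by
    intro p q hpq hcov b hb hbq
    obtain ⟨w, h1, -, h3, h4, h5⟩ := (hK.2 p b hb).last (fun e => hb.ne (inj _ _ e))
    have hw : c w = b := by
      rcases h3 with h3 | h3
      · exact (hp _ _ h1 ((hK.1 p).trans h3.symm)).elim
      · exact h3
    by_cases hcon : Conn G ({z | c z = q ∨ c z = b} \ {ι q}) w (ι b)
    · exact Or.inr ⟨w, h1, hw, hcon⟩
    left
    have hwr : ∀ u, ι u ≠ w := by
      intro u e
      have : u = b := by rw [← hK.1 u, e, hw]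
      subst this
      exact hcon (e ▸ Conn.refl _)
    refine ⟨Function.update c w p, ⟨fun u => ?_, ?_⟩, ι p, w, h1, ?_⟩
    · rw [Function.update_of_ne (hwr u), hK.1]
    · have sub : ∀ u v : W, {z | c z = u ∨ c z = v} \ {w} ⊆
          {z | Function.update c w p z = u ∨ Function.update c w p z = v} := by
        intro u v z hz
        show _ ∨ _
        rw [Function.update_of_ne hz.2]
        exact hz.1
      have one : ∀ u v, H.Adj u v → u ≠ b → Conn G
          {z | Function.update c w p z = u ∨ Function.update c w p z = v} (ι u) (ι v) := by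
        intro u v huv hub
        by_cases hvb : v = b
        · subst hvb
          by_cases hup : u = p
          · subst hup
            refine (hK.2 u v huv).mono fun z hz => ?_
            show _ ∨ _
            by_cases e : z = w
            · rw [e, Function.update_self]; exact Or.inl rfl
            · rw [Function.update_of_ne e]; exact hz
          · have huq : u = q := by
              rcases hcov u v huv with h | h | h | h
              · exact (hup h).elim
              · exact h
              · exact (hb.ne h.symm).elim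
              · exact (hbq h).elim
            subst huq
            obtain ⟨w', k1, k2, k3, -, k5⟩ := (hK.2 u v huv).last (fun e => huv.ne (inj _ _ e))
            have k6 := k5.avoid hcon
            have hw' : w' ≠ w := fun e => hcon (e ▸ k5)
            refine (Conn.step (sub _ _ ⟨k2, hwr u⟩) (sub _ _ ⟨k3, hw'⟩) k1).trans
              (k6.mono fun z hz => sub _ _ ⟨hz.1.1, hz.2⟩)
        · refine (hK.2 u v huv).mono fun z hz => sub _ _ ⟨hz, fun e => ?_⟩
          have e' : z = w := e
          rw [e'] at hz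
          rcases hz with hz | hz
          · exact hub (hz.symm.trans hw)
          · exact hvb (hz.symm.trans hw)
      intro u v huv
      by_cases hub : u = b
      · have := one v u huv.symm (fun e => huv.ne (hub.trans e.symm))
        exact this.symm.mono fun z hz => Or.symm hz
      · exact one u v huv hub
    · rw [Function.update_of_ne (hwr p), Function.update_self, hK.1]
  by_contra hcon
  have sx := fun b h1 h2 => (side x y hxy.ne hc b h1 h2).resolve_left hcon
  have sy := fun b h1 h2 => (side y x hxy.ne' (fun u v h => by have := hc u v h; tauto)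
    b h1 h2).resolve_left hcon
  let c' : V → W := fun z => if z = ι x ∨ z = ι y then c z else Equiv.swap x y (c z)
  have cx : c' (ι x) = x := by simp [c', hK.1]
  have cy : c' (ι y) = y := by simp [c', hK.1]
  have fix : ∀ z, c z ≠ x → c z ≠ y → c' z = c z := by
    intro z h1 h2
    simp only [c']
    split_ifs
    · rfl
    · exact Equiv.swap_apply_of_ne_of_ne h1 h2
  have toy : ∀ z, c z = x → z ≠ ι x → c' z = y := by
    intro z h1 h2
    have : z ≠ ι y := fun e => hxy.ne (by rw [← h1, e, hK.1])
    simp [c', h1, h2, this]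
  have tox : ∀ z, c z = y → z ≠ ι y → c' z = x := by
    intro z h1 h2
    have : z ≠ ι x := fun e => hxy.ne (by rw [← h1, e, hK.1])
    simp [c', h1, h2, this]
  have root : ∀ u, c' (ι u) = u := by
    intro u
    by_cases h1 : u = x
    · rw [h1, cx]
    · by_cases h2 : u = y
      · rw [h2, cy]
      · rw [fix _ (by rwa [hK.1]) (by rwa [hK.1]), hK.1]
  have hxy' : Conn G {z | c' z = x ∨ c' z = y} (ι x) (ι y) := by
    refine (hK.2 x y hxy).mono fun z hz => ?_
    show _ ∨ _
    rcases hz with hz | hz
    · by_cases e : z = ι x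
      · rw [e, cx]; exact Or.inl rfl
      · exact Or.inr (toy z hz e)
    · by_cases e : z = ι y
      · rw [e, cy]; exact Or.inr rfl
      · exact Or.inl (tox z hz e)
  have hx' : ∀ b, H.Adj x b → Conn G {z | c' z = x ∨ c' z = b} (ι x) (ι b) := by
    intro b hb
    by_cases hby : b = y
    · rw [hby]; exact hxy'
    · obtain ⟨w, h1, h2, h3⟩ := sx b hb hby
      have fb : ∀ z, c z = b → c' z = b := fun z hz =>
        (fix z (by rw [hz]; exact hb.ne') (by rw [hz]; exact hby)).trans hz
      refine (Conn.step (S := {z | c' z = x ∨ c' z = b}) (Or.inl cx) (Or.inr (fb w h2)) h1).trans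
        (h3.mono fun z hz => ?_)
      rcases hz.1 with h | h
      · exact Or.inl (tox z h hz.2)
      · exact Or.inr (fb z h)
  have hy' : ∀ b, H.Adj y b → Conn G {z | c' z = y ∨ c' z = b} (ι y) (ι b) := by
    intro b hb
    by_cases hbx : b = x
    · rw [hbx]; exact hxy'.symm.mono fun z hz => Or.symm hz
    · obtain ⟨w, h1, h2, h3⟩ := sy b hb hbx
      have fb : ∀ z, c z = b → c' z = b := fun z hz =>
        (fix z (by rw [hz]; exact hbx) (by rw [hz]; exact hb.ne')).trans hz
      refine (Conn.step (S := {z | c' z = y ∨ c' z = b}) (Or.inl cy) (Or.inr (fb w h2)) h1).trans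
        (h3.mono fun z hz => ?_)
      rcases hz.1 with h | h
      · exact Or.inl (toy z h hz.2)
      · exact Or.inr (fb z h)
  obtain ⟨w, h1, -, h3, -, -⟩ := (hK.2 x y hxy).last (fun e => hxy.ne (inj _ _ e))
  have hw : c w = y := by
    rcases h3 with h3 | h3
    · exact (hp _ _ h1 ((hK.1 x).trans h3.symm)).elim
    · exact h3
  refine hcon ⟨c', ⟨root, fun u v huv => ?_⟩, ι x, w, h1,
    cx.trans (tox w hw fun e => hnadj (e ▸ h1)).symm⟩
  rcases hc u v huv with rfl | rfl | rfl | rfl
  · exact hx' v huv
  · exact hy' v huv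
  · exact (hx' u huv.symm).symm.mono fun z hz => Or.symm hz
  · exact (hy' u huv.symm).symm.mono fun z hz => Or.symm hz

theorem contractible_of_cover2 [Finite W] (H : SimpleGraph W) (x y : W)
    (hc : ∀ u v, H.Adj u v → u = x ∨ u = y ∨ v = x ∨ v = y) : Contractible H :=
  contractible_of_kempe (cover2_kempe H x y hc)

end Pool.Agent.Work.MP_3cad78_co
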