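import Mathlib

/-! Graph schemes, rooted minors and contractible graphs. -/

namespace Pool.Agent.Work.MP_3cad78_co

variable {V W : Type}

/-- `S e` is the vertex set of the path chosen for the edge `e` of `H`; the vertices of `H` sit in
`G` through the embedding `ι`. -/
def IsScheme (H : SimpleGraph W) (G : SimpleGraph V) (ι : W ↪ V) (S : H.edgeSet → Set V) : Prop :=
  (∀ (u v : W) (h : H.Adj u v), ∃ p : G.Walk (ι u) (ι v), p.IsPath ∧
      (∀ x, x ∈ S ⟨s(u, v), h⟩ ↔ x ∈ p.support) ∧ ∀ w, ι w ∈ p.support → w = u ∨ w = v) ∧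
  ∀ F : Finset H.edgeSet, F.Nonempty → (∃ x, ∀ e ∈ F, x ∈ S e) → ∃ u : W, ∀ e ∈ F, u ∈ e.1

/-- `C` is a model of `H` in `G`: disjoint connected subgraphs, joined along the edges of `H`. -/
def IsModel (H : SimpleGraph W) (G : SimpleGraph V) (C : W → G.Subgraph) : Prop :=
  (∀ w, (C w).Connected) ∧ (∀ u v, u ≠ v → Disjoint (C u).verts (C v).verts) ∧
  ∀ u v, H.Adj u v → ∃ x ∈ (C u).verts, ∃ y ∈ (C v).verts, G.Adj x y

/-- Every finite graph containing an `H`-scheme has a rooted `H`-minor. -/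
def Contractible (H : SimpleGraph W) : Prop :=
  ∀ (V : Type) [Finite V] (G : SimpleGraph V) (ι : W ↪ V) (S : H.edgeSet → Set V),
    IsScheme H G ι S → ∃ C : W → G.Subgraph, IsModel H G C ∧ ∀ w, ι w ∈ (C w).verts

/-- Every finite graph containing an `H`-scheme has an `H`-minor. -/
def WeaklyContractible (H : SimpleGraph W) : Prop :=
  ∀ (V : Type) [Finite V] (G : SimpleGraph V) (ι : W ↪ V) (S : H.edgeSet → Set V),
    IsScheme H G ι S → ∃ C : W → G.Subgraph, IsModel H G C

end Pool.Agent.Work.MP_3cad78_co
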