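import Pool.Agent.Work.MP_3cad78_co.Bip

/-! The doubled graph of a subgraph and the counting criterion for non-contractibility. -/

namespace Pool.Agent.Work.MP_3cad78_co

variable {V W J : Type}

theorem walk_of_conn {G : SimpleGraph V} {S : Set V} {a b : V} (h : Conn G S a b) (ha : a ∈ S) :
    ∃ p : G.Walk a b, p.IsPath ∧ ∀ x ∈ p.support, x ∈ S := by
  classical
  have : ∃ p : G.Walk a b, ∀ x ∈ p.support, x ∈ S := by
    induction h with
    | refl => exact ⟨.nil, by simpa using ha⟩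
    | tail _ h ih =>
      obtain ⟨p, hp⟩ := ih
      refine ⟨p.concat h.2.2, fun x hx => ?_⟩
      rw [SimpleGraph.Walk.support_concat, List.mem_append] at hx
      rcases hx with hx | hx
      · exact hp x hx
      · rw [List.mem_singleton.1 hx]; exact h.2.1
  obtain ⟨p, hp⟩ := this
  exact ⟨p.bypass, p.bypass_isPath, fun x hx => hp x (p.support_bypass_subset_support hx)⟩

theorem rooted_of_contractible [Finite V] {H : SimpleGraph W} (hH : Contractible H)
    {G : SimpleGraph V} {ι : W → V} {c : V → W} (hK : Kempe H G ι c) : Rooted H G ι := by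
  have inj : Function.Injective ι := fun u v e => by rw [← hK.1 u, e, hK.1]
  have hex : ∀ e : H.edgeSet, ∃ S : Set V, ∀ u v (h : H.Adj u v), e = ⟨s(u, v), h⟩ →
      (∀ x ∈ S, c x = u ∨ c x = v) ∧
      ∃ p : G.Walk (ι u) (ι v), p.IsPath ∧ ∀ x, x ∈ S ↔ x ∈ p.support := by
    rintro ⟨e, he⟩
    induction e using Sym2.ind with
    | _ u0 v0 =>
    obtain ⟨p, hp, hs⟩ := walk_of_conn (hK.2 u0 v0 he) (Or.inl (hK.1 u0))
    refine ⟨{x | x ∈ p.support}, fun u v h e => ?_⟩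
    rcases Sym2.eq_iff.1 (Subtype.ext_iff.1 e) with ⟨rfl, rfl⟩ | ⟨rfl, rfl⟩
    · exact ⟨hs, p, hp, fun x => Iff.rfl⟩
    · exact ⟨fun x hx => Or.symm (hs x hx), p.reverse, hp.reverse, fun x => by simp⟩
  choose S hS using hex
  obtain ⟨C, ⟨h1, h2, h3⟩, h4⟩ := hH V G ⟨ι, inj⟩ S ⟨fun u v h => by
      obtain ⟨k1, p, k2, k3⟩ := hS _ u v h rfl
      refine ⟨p, k2, k3, fun w hw => ?_⟩
      have := k1 _ ((k3 _).2 hw)
      rwa [show c ((⟨ι, inj⟩ : W ↪ V) w) = w from hK.1 w] at this,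
    fun F _ ⟨x, hx⟩ => ⟨c x, fun e he => by
      obtain ⟨e, he'⟩ := e
      induction e using Sym2.ind with
      | _ u v => exact Sym2.mem_iff.2 ((hS _ u v he' rfl).1 x (hx _ he))⟩⟩
  refine ⟨fun w => (C w).verts, h4, fun w x hx => ?_, h2, h3⟩
  obtain ⟨q⟩ := (h1 w).preconnected ⟨_, h4 w⟩ ⟨x, hx⟩
  have key : ∀ (a b : (C w).verts) (_ : (C w).coe.Walk a b), Conn G (C w).verts a.1 b.1 := by
    intro a b q
    induction q with
    | nil => exact Conn.refl _
    | @cons a b _ h _ ih => exact (Conn.step a.2 b.2 ((C w).adj_sub h)).trans ih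
  exact key _ _ q

/-- Every edge of `H` which is the image of an edge of `F` is replaced by paths of length three
through the vertices of `F`. -/
def dbl (H : SimpleGraph W) (F : SimpleGraph J) (κ : J → W) : SimpleGraph (W ⊕ J) where
  Adj
    | .inl u, .inl v => H.Adj u v ∧ ¬ ∃ j j', F.Adj j j' ∧ κ j = u ∧ κ j' = v
    | .inl u, .inr j => ∃ j', F.Adj j j' ∧ κ j' = u
    | .inr j, .inl u => ∃ j', F.Adj j j' ∧ κ j' = u
    | .inr j, .inr j' => F.Adj j j'
  symm := ⟨by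
    rintro (u | j) (v | j') h
    · exact ⟨h.1.symm, fun ⟨a, b, k1, k2, k3⟩ => h.2 ⟨b, a, k1.symm, k3, k2⟩⟩
    · exact h
    · exact h
    · exact F.symm.1 _ _ h⟩
  loopless := ⟨by
    rintro (u | j) h
    · exact h.1.ne rfl
    · exact F.loopless.1 _ h⟩

theorem dbl_model [Finite W] [Finite J] {H : SimpleGraph W} (hH : Contractible H)
    (F : SimpleGraph J) (κ : J → W) (hκ : ∀ j j', F.Adj j j' → H.Adj (κ j) (κ j')) :
    ∃ D : W → Set J, (∀ u v j, j ∈ D u → j ∈ D v → u = v) ∧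
      (∀ u (S : Set J), (∀ j ∈ D u, (∃ j', F.Adj j j' ∧ κ j' = u) → j ∈ S) →
        (∀ j ∈ S, j ∈ D u → ∀ j' ∈ D u, F.Adj j j' → j' ∈ S) → D u ⊆ S) ∧
      ∀ j0 j1, F.Adj j0 j1 → (∃ j ∈ D (κ j1), ∃ j', F.Adj j j' ∧ κ j' = κ j0) ∨
        (∃ j ∈ D (κ j0), ∃ j', F.Adj j j' ∧ κ j' = κ j1) ∨
        ∃ j ∈ D (κ j0), ∃ j' ∈ D (κ j1), F.Adj j j' := by
  have hK : Kempe H (dbl H F κ) Sum.inl (Sum.elim id κ) := by
    refine ⟨fun w => rfl, fun u v huv => ?_⟩
    by_cases h : ∃ j j', F.Adj j j' ∧ κ j = u ∧ κ j' = v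
    · obtain ⟨j, j', h1, h2, h3⟩ := h
      have a1 : (Sum.inl u : W ⊕ J) ∈ {x | Sum.elim id κ x = u ∨ Sum.elim id κ x = v} := Or.inl rfl
      have a2 : (Sum.inr j' : W ⊕ J) ∈ {x | Sum.elim id κ x = u ∨ Sum.elim id κ x = v} := Or.inr h3
      have a3 : (Sum.inr j : W ⊕ J) ∈ {x | Sum.elim id κ x = u ∨ Sum.elim id κ x = v} := Or.inl h2
      have a4 : (Sum.inl v : W ⊕ J) ∈ {x | Sum.elim id κ x = u ∨ Sum.elim id κ x = v} := Or.inr rfl
      have b1 : (dbl H F κ).Adj (.inl u) (.inr j') := ⟨j, h1.symm, h2⟩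
      have b2 : (dbl H F κ).Adj (.inr j') (.inr j) := h1.symm
      have b3 : (dbl H F κ).Adj (.inr j) (.inl v) := ⟨j', h1, h3⟩
      exact ((Conn.step a1 a2 b1).trans (Conn.step a2 a3 b2)).trans (Conn.step a3 a4 b3)
    · exact Conn.step (S := {x | Sum.elim id κ x = u ∨ Sum.elim id κ x = v})
        (Or.inl rfl) (Or.inr rfl) ⟨huv, h⟩
  obtain ⟨C, h1, h2, h3, h4⟩ := rooted_of_contractible hH hK
  have dis : ∀ u v x, x ∈ C u → x ∈ C v → u = v := fun u v x a b => by
    by_contra hne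
    exact Set.disjoint_left.1 (h3 u v hne) a b
  refine ⟨fun u => {j | Sum.inr j ∈ C u}, fun u v j => dis u v _, fun u S k1 k2 j hj => ?_,
    fun j0 j1 h => ?_⟩
  · have key : ∀ x, Conn (dbl H F κ) (C u) (Sum.inl u) x → ∀ j, x = Sum.inr j → j ∈ S := by
      intro x hx
      induction hx with
      | refl => intro j e; cases e
      | @tail a b _ hab ih =>
        rintro j rfl
        obtain ⟨ha, hb, hab⟩ := hab
        rcases a with w | j'
        · obtain rfl := dis _ _ _ (h1 w) ha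
          exact k1 j hb hab
        · exact k2 j' (ih j' rfl) ha j hb hab
    exact key _ (h2 u _ hj) j rfl
  · obtain ⟨x, hx, y, hy, hxy⟩ := h4 _ _ (hκ j0 j1 h)
    rcases x with u | j <;> rcases y with v | j'
    · obtain rfl := dis _ _ _ (h1 u) hx
      obtain rfl := dis _ _ _ (h1 v) hy
      exact (hxy.2 ⟨j0, j1, h, rfl, rfl⟩).elim
    · obtain rfl := dis _ _ _ (h1 u) hx
      exact Or.inl ⟨j', hy, hxy⟩
    · obtain rfl := dis _ _ _ (h1 v) hy
      exact Or.inr (Or.inl ⟨j, hx, hxy⟩)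
    · exact Or.inr (Or.inr ⟨j, hx, j', hy, hxy⟩)

/-- The counting criterion. -/
theorem not_contractible_of_lp [Finite W] {H K : SimpleGraph W} (hKH : K ≤ H) (U : Finset W)
    (hU : ∀ u v, K.Adj u v → u ∈ U)
    (tri : ∀ u v w, K.Adj u v → K.Adj v w → K.Adj w u → False)
    (lp : ∀ f : W → ℤ, (∀ u v, K.Adj u v → f u + f v ≤ 0) → 0 ≤ ∑ u ∈ U, f u → ∀ u ∈ U, f u = 0)
    (ns : ∀ σ : W → W, Set.InjOn σ U → (∀ v ∈ U, K.Adj v (σ v)) →
      (∀ u v, K.Adj u v → K.Adj (σ u) (σ v)) → False) : ¬ Contractible H := by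
  classical
  intro hH
  obtain ⟨D, h1, h2, h3⟩ := dbl_model hH K id fun j j' h => hKH h
  simp only [id, exists_eq_right] at h2 h3
  have hD : ∀ u, ∀ x ∈ D u, x ∈ U := fun u =>
    h2 u U (fun j _ h => hU _ _ h) fun j _ _ j' _ h => hU _ _ h.symm
  let E : W → Finset W := fun u => U.filter (· ∈ D u)
  have mE : ∀ u x, x ∈ E u ↔ x ∈ D u := fun u x => by
    simp only [E, Finset.mem_filter]
    exact ⟨fun h => h.2, fun h => ⟨hD u x h, h⟩⟩
  have one : ∀ v x, x ∈ D v → (E v).card ≤ 1 → K.Adj x v := fun v x hx hc =>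
    h2 v {j | K.Adj j v} (fun j _ h => h) (fun j _ hj j' hj' h => by
      have := Finset.card_le_one.1 hc j ((mE _ _).2 hj) j' ((mE _ _).2 hj')
      exact (h.ne this).elim) hx
  have half : ∀ u v, K.Adj u v → (E u).card = 0 → 2 ≤ (E v).card := by
    intro u v huv h0
    have e : ∀ x, x ∉ D u := fun x hx => by
      have := (mE _ _).2 hx
      rw [Finset.card_eq_zero.1 h0] at this
      exact absurd this (Finset.notMem_empty _)
    by_contra hc
    rcases h3 u v huv with ⟨j, hj, k⟩ | ⟨j, hj, -⟩ | ⟨j, hj, -⟩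
    · exact tri u v j huv (one v j hj (by omega)).symm k
    · exact e j hj
    · exact e j hj
  have hz := lp (fun v => 1 - ((E v).card : ℤ)) (fun u v huv => by
      have a := half u v huv
      have b := half v u huv.symm
      omega) (by
      have a : ∑ u ∈ U, (E u).card ≤ U.card := by
        rw [← Finset.card_biUnion]
        · exact Finset.card_le_card (Finset.biUnion_subset.2 fun u _ => Finset.filter_subset _ _)
        · intro u _ v _ huv
          exact Finset.disjoint_left.2 fun x a b => huv (h1 u v x ((mE _ _).1 a) ((mE _ _).1 b))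
      rw [Finset.sum_sub_distrib, Finset.sum_const, ← Nat.cast_sum]
      simp only [nsmul_eq_mul, mul_one, sub_nonneg]
      exact_mod_cast a)
  have hex : ∀ v, ∃ x, v ∈ U → x ∈ D v ∧ (E v).card ≤ 1 := by
    intro v
    by_cases hv : v ∈ U
    · have a : (E v).card = 1 := by have := hz v hv; omega
      obtain ⟨x, hx⟩ := Finset.card_pos.1 (show 0 < (E v).card by omega)
      exact ⟨x, fun _ => ⟨(mE _ _).1 hx, a.le⟩⟩
    · exact ⟨v, fun h => (hv h).elim⟩
  choose σ hσ using hex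
  have uq : ∀ v ∈ U, ∀ x ∈ D v, x = σ v := fun v hv x hx =>
    Finset.card_le_one.1 (hσ v hv).2 x ((mE _ _).2 hx) _ ((mE _ _).2 (hσ v hv).1)
  have ad : ∀ v ∈ U, K.Adj v (σ v) := fun v hv => (one v _ (hσ v hv).1 (hσ v hv).2).symm
  refine ns σ (fun u hu v hv e => h1 u v _ (hσ u hu).1 (e ▸ (hσ v hv).1)) ad fun u v huv => ?_
  have hu := hU _ _ huv
  have hv := hU _ _ huv.symm
  rcases h3 u v huv with ⟨j, hj, k⟩ | ⟨j, hj, k⟩ | ⟨j, hj, j', hj', k⟩
  · exact (tri u v j huv (uq v hv j hj ▸ ad v hv) k).elim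
  · exact (tri v u j huv.symm (uq u hu j hj ▸ ad u hu) k).elim
  · rwa [← uq u hu j hj, ← uq v hv j' hj']

end Pool.Agent.Work.MP_3cad78_co
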