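import Pool.Agent.Work.MP_3cad78_co.Thr

/-! Paths with prescribed vertex sets and two families of non-contractible subgraphs. -/

namespace Pool.Agent.Work.MP_3cad78_co

open Finset

variable {W T : Type}

/-- There is a path of length `L` from `a` to `b` inside `S`. -/
def Pa (H : SimpleGraph W) (a b : W) (L : ℕ) (S : Set W) : Prop :=
  ∃ p : ℕ → W, p 0 = a ∧ p L = b ∧ (∀ j, j < L → H.Adj (p j) (p (j + 1))) ∧
    (∀ i j, i ≤ L → j ≤ L → p i = p j → i = j) ∧ ∀ j, j ≤ L → p j ∈ S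

/-- A triangle-free theta subgraph with two odd paths and one even path. -/
def Theta (H : SimpleGraph W) : Prop :=
  ∃ (x y : W) (L1 L2 L3 : ℕ) (S1 S2 S3 : Set W), Pa H x y L1 S1 ∧ Pa H x y L2 S2 ∧ Pa H x y L3 S3 ∧
    S1 ∩ S2 ⊆ {x, y} ∧ S1 ∩ S3 ⊆ {x, y} ∧ S2 ∩ S3 ⊆ {x, y} ∧
    L1 % 2 = 1 ∧ L2 % 2 = 1 ∧ L3 % 2 = 0 ∧ 4 ≤ L1 + L2 ∧ 5 ≤ L1 + L3 ∧ 5 ≤ L2 + L3

/-- A triangle-free subdivision of the complete graph on four vertices with all paths odd. -/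
def OddK4 (H : SimpleGraph W) : Prop :=
  ∃ (y a b c : W) (l1 l2 l3 r1 r2 r3 : ℕ) (S1 S2 S3 R1 R2 R3 : Set W),
    Pa H y a l1 S1 ∧ Pa H y b l2 S2 ∧ Pa H y c l3 S3 ∧ Pa H a b r1 R1 ∧ Pa H b c r2 R2 ∧
    Pa H c a r3 R3 ∧ S1 ∩ S2 ⊆ {y} ∧ S1 ∩ S3 ⊆ {y} ∧ S2 ∩ S3 ⊆ {y} ∧
    R1 ∩ R2 ⊆ {b} ∧ R2 ∩ R3 ⊆ {c} ∧ R3 ∩ R1 ⊆ {a} ∧
    S1 ∩ (R1 ∪ R2 ∪ R3) ⊆ {a} ∧ S2 ∩ (R1 ∪ R2 ∪ R3) ⊆ {b} ∧ S3 ∩ (R1 ∪ R2 ∪ R3) ⊆ {c} ∧
    l1 % 2 = 1 ∧ l2 % 2 = 1 ∧ l3 % 2 = 1 ∧ r1 % 2 = 1 ∧ r2 % 2 = 1 ∧ r3 % 2 = 1 ∧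
    5 ≤ l1 + l2 + r1 ∧ 5 ≤ l2 + l3 + r2 ∧ 5 ≤ l3 + l1 + r3 ∧ 5 ≤ r1 + r2 + r3

variable {H : SimpleGraph W}

theorem Pa.left {a b : W} {L : ℕ} {S : Set W} (h : Pa H a b L S) : a ∈ S := by
  obtain ⟨p, h1, -, -, -, h5⟩ := h
  exact h1 ▸ h5 0 (Nat.zero_le _)

theorem Pa.right {a b : W} {L : ℕ} {S : Set W} (h : Pa H a b L S) : b ∈ S := by
  obtain ⟨p, -, h2, -, -, h5⟩ := h
  exact h2 ▸ h5 L le_rfl

theorem Pa.ne {a b : W} {L : ℕ} {S : Set W} (h : Pa H a b L S) (hL : L ≠ 0) : a ≠ b := by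
  obtain ⟨p, h1, h2, -, h4, -⟩ := h
  exact fun e => hL (h4 0 L (Nat.zero_le _) le_rfl (by rw [h1, h2, e])).symm

theorem Pa.pos {a b : W} {L : ℕ} {S : Set W} (h : Pa H a b L S) (hL : a ≠ b) : 0 < L := by
  obtain ⟨p, h1, h2, -⟩ := h
  exact Nat.pos_of_ne_zero fun e => hL (by rw [← h1, ← h2, e])

theorem Pa.adj {a b : W} {S : Set W} (h : Pa H a b 1 S) : H.Adj a b := by
  obtain ⟨p, h1, h2, h3, -⟩ := h
  exact h1 ▸ h2 ▸ h3 0 one_pos

theorem thr_of_pa (a b : T → W) (len : T → ℕ) (S : T → Set W) (B : Finset W)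
    (h : ∀ i, Pa H (a i) (b i) (len i) (S i)) (ha : ∀ i, a i ∈ B) (hb : ∀ i, b i ∈ B)
    (hne : ∀ i, a i ≠ b i) (h1 : ∀ i, ∀ z ∈ S i, z ∈ B → z = a i ∨ z = b i)
    (h2 : ∀ i j, i ≠ j → ∀ z ∈ S i, z ∈ S j → z ∈ B) :
    ∃ p, Thr H len p B ∧ (∀ i, p i 0 = a i) ∧ ∀ i, p i (len i) = b i := by
  choose p p1 p2 p3 p4 p5 using h
  have inn : ∀ i j, 0 < j → j < len i → p i j ∉ B := by
    intro i j k1 k2 k
    rcases h1 i _ (p5 i j k2.le) k with e | e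
    · have := p4 i j 0 k2.le (Nat.zero_le _) (e.trans (p1 i).symm)
      omega
    · have := p4 i j _ k2.le le_rfl (e.trans (p2 i).symm)
      omega
  refine ⟨p, ⟨p3, fun i => p1 i ▸ ha i, fun i => p2 i ▸ hb i, fun i => ?_, inn, ?_⟩, p1, p2⟩
  · rw [p1, p2]; exact hne i
  · intro i j i' j' k1 k2 k3 k4 e
    by_cases hi : i = i'
    · subst hi
      exact ⟨rfl, p4 i j j' k2.le k4.le e⟩
    · exact (inn i j k1 k2 (h2 i i' hi _ (p5 i j k2.le) (e ▸ p5 i' j' k4.le))).elim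

theorem Theta.not_contractible [Finite W] (h : Theta H) : ¬ Contractible H := by
  classical
  obtain ⟨x, y, L1, L2, L3, S1, S2, S3, p1, p2, p3, d1, d2, d3, o1, o2, o3, n1, n2, n3⟩ := h
  have hxy : x ≠ y := p1.ne (by omega)
  have h3 := p3.pos hxy
  obtain ⟨p, hp, e0, e1⟩ := thr_of_pa (H := H) (fun _ : Fin 3 => x) (fun _ => y) ![L1, L2, L3]
    ![S1, S2, S3] {x, y} (fun i => by fin_cases i <;> assumption) (by simp) (by simp)
    (fun _ => hxy) (fun i z _ hz => by simpa using hz) (fun i j hij z a b => by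
      have k : z ∈ ({x, y} : Set W) := by
        fin_cases i <;> fin_cases j
        exacts [(hij rfl).elim, d1 ⟨a, b⟩, d2 ⟨a, b⟩, d1 ⟨b, a⟩, (hij rfl).elim, d3 ⟨a, b⟩,
          d2 ⟨b, a⟩, d3 ⟨b, a⟩, (hij rfl).elim]
      simpa using k)
  have ad : ∀ u v, Ad1 ![L1, L2, L3] p u v →
      (L1 = 1 ∨ L2 = 1) ∧ (u = x ∧ v = y ∨ v = x ∧ u = y) := by
    rintro u v ⟨i, k1, k2⟩
    have := e1 i
    rw [k1] at this
    rw [e0, this] at k2
    refine ⟨?_, k2⟩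
    fin_cases i
    · exact Or.inl k1
    · exact Or.inr k1
    · have : L3 = 1 := k1
      omega
  refine hp.not_contractible (fun f s k1 k2 k3 => ?_) (fun b hb => ?_) (fun i j hij a b _ => ?_)
    (fun i a k => ?_) (fun u v w a b c => ?_) ⟨2, ?_, fun a => ?_⟩
  · have a0 := k1 0 o1
    have a1 := k1 1 o2
    have a2 := k2 2 o3
    simp only [e0, e1] at a0 a1 a2
    rw [sum_pair hxy, Fin.sum_univ_three] at k3
    refine ⟨fun b hb => ?_, fun i => ?_⟩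
    · rcases mem_insert.1 hb with rfl | hb
      · omega
      · rw [mem_singleton.1 hb]; omega
    · fin_cases i
      · show s 0 = 0; omega
      · show s 1 = 0; omega
      · show s 2 = 0; omega
  · refine ⟨0, 1, 2, by decide, by decide, by decide, ?_⟩
    simp only [e0, e1]
    simpa [eq_comm] using hb
  · fin_cases i <;> fin_cases j <;> simp at a b hij <;> omega
  · have := (ad _ _ k).1
    fin_cases i <;> simp at a <;> omega
  · rcases (ad _ _ a).2 with ⟨a1, a2⟩ | ⟨a1, a2⟩ <;> rcases (ad _ _ b).2 with ⟨b1, b2⟩ | ⟨b1, b2⟩ <;>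
      rcases (ad _ _ c).2 with ⟨c1, c2⟩ | ⟨c1, c2⟩ <;> simp_all
  · show 2 ≤ L3
    omega
  · have : L3 = 3 := a
    omega

set_option synthInstance.maxSize 4000 in
theorem k4_tri (s t : Fin 6 → Fin 4) (hs : s = ![0, 0, 0, 1, 2, 3]) (ht : t = ![1, 2, 3, 2, 3, 1]) :
    ∀ (i j k : Fin 6) (u v w : Fin 4), (u = s i ∧ v = t i ∨ v = s i ∧ u = t i) →
      (v = s j ∧ w = t j ∨ w = s j ∧ v = t j) → (w = s k ∧ u = t k ∨ u = s k ∧ w = t k) →
      ∃ e ∈ [((0 : Fin 6), (1 : Fin 6), (3 : Fin 6)), (1, 2, 4), (2, 0, 5), (3, 4, 5)],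
        ∀ z ∈ [e.1, e.2.1, e.2.2], z = i ∨ z = j ∨ z = k := by
  subst hs ht
  simp only [List.mem_cons, List.not_mem_nil, or_false, exists_eq_or_imp, exists_eq_left,
    forall_eq_or_imp, forall_eq]
  decide +kernel

theorem OddK4.not_contractible [Finite W] (h : OddK4 H) : ¬ Contractible H := by
  classical
  obtain ⟨y, a, b, c, l1, l2, l3, r1, r2, r3, S1, S2, S3, R1, R2, R3, p1, p2, p3, q1, q2, q3,
    d1, d2, d3, d4, d5, d6, d7, d8, d9, o1, o2, o3, o4, o5, o6, n1, n2, n3, n4⟩ := h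
  have ya := p1.ne (by omega)
  have yb := p2.ne (by omega)
  have yc := p3.ne (by omega)
  have ab := q1.ne (by omega)
  have bc := q2.ne (by omega)
  have ca := q3.ne (by omega)
  let φ : Fin 4 → W := ![y, a, b, c]
  have hφ : Function.Injective φ := by
    intro i j
    fin_cases i <;> fin_cases j <;> simp [φ, *, ya.symm, yb.symm, yc.symm, ab.symm, bc.symm, ca.symm]
  let s : Fin 6 → Fin 4 := ![0, 0, 0, 1, 2, 3]
  let t : Fin 6 → Fin 4 := ![1, 2, 3, 2, 3, 1]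
  let len : Fin 6 → ℕ := ![l1, l2, l3, r1, r2, r3]
  have m1 := p1.left
  have m2 := p2.left
  have m3 := p3.left
  have m4 := p1.right
  have m5 := p2.right
  have m6 := p3.right
  have m7 := q1.left
  have m8 := q2.left
  have m9 := q3.left
  have m10 := q1.right
  have m11 := q2.right
  have m12 := q3.right
  simp only [Set.subset_def, Set.mem_inter_iff, Set.mem_union, Set.mem_singleton_iff, and_imp,
    or_imp, forall_and] at d1 d2 d3 d4 d5 d6 d7 d8 d9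
  obtain ⟨p, hp, e0, e1⟩ := thr_of_pa (H := H) (fun i => φ (s i)) (fun i => φ (t i)) len
    ![S1, S2, S3, R1, R2, R3] (univ.image φ) (fun i => by fin_cases i <;> assumption) (by simp)
    (by simp) (fun i e => (by decide : ∀ i, s i ≠ t i) i (hφ e)) (fun i z k hz => by
      obtain ⟨j, -, rfl⟩ := mem_image.1 hz
      fin_cases i <;> fin_cases j <;> simp [φ, s, t] at k ⊢ <;> grind) (fun i j hij z k l => by
      have k : z = y ∨ z = a ∨ z = b ∨ z = c := by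
        fin_cases i <;> fin_cases j <;> simp at k l hij <;> grind
      rcases k with rfl | rfl | rfl | rfl
      exacts [mem_image_of_mem φ (mem_univ 0), mem_image_of_mem φ (mem_univ 1),
        mem_image_of_mem φ (mem_univ 2), mem_image_of_mem φ (mem_univ 3)])
  have odd : ∀ i, len i % 2 = 1 := fun i => by fin_cases i <;> assumption
  have ad : ∀ u v, Ad1 len p u v → ∃ i, len i = 1 ∧
      (u = φ (s i) ∧ v = φ (t i) ∨ v = φ (s i) ∧ u = φ (t i)) := by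
    rintro u v ⟨i, k1, k2⟩
    have := e1 i
    rw [k1] at this
    rw [e0, this] at k2
    exact ⟨i, k1, k2⟩
  refine hp.not_contractible (fun f g k1 _ k3 => ?_) (fun b hb => ?_) (fun i j hij a b k => ?_)
    (fun i a k => ?_) (fun u v w a b c => ?_) ?_
  · have a0 := k1 0 o1
    have a1 := k1 1 o2
    have a2 := k1 2 o3
    have a3 := k1 3 o4
    have a4 := k1 4 o5
    have a5 := k1 5 o6
    simp only [e0, e1] at a0 a1 a2 a3 a4 a5
    rw [sum_image fun _ _ _ _ e => hφ e, Fin.sum_univ_four, Fin.sum_univ_six] at k3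
    change _ ∧ _ + f (φ 0) + f (φ 1) ≤ 0 at a0
    change _ ∧ _ + f (φ 0) + f (φ 2) ≤ 0 at a1
    change _ ∧ _ + f (φ 0) + f (φ 3) ≤ 0 at a2
    change _ ∧ _ + f (φ 1) + f (φ 2) ≤ 0 at a3
    change _ ∧ _ + f (φ 2) + f (φ 3) ≤ 0 at a4
    change _ ∧ _ + f (φ 3) + f (φ 1) ≤ 0 at a5
    refine ⟨fun b hb => ?_, fun i => ?_⟩
    · obtain ⟨j, -, rfl⟩ := mem_image.1 hb
      fin_cases j
      · show f (φ 0) = 0; omega
      · show f (φ 1) = 0; omega
      · show f (φ 2) = 0; omega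
      · show f (φ 3) = 0; omega
    · fin_cases i
      · show g 0 = 0; omega
      · show g 1 = 0; omega
      · show g 2 = 0; omega
      · show g 3 = 0; omega
      · show g 4 = 0; omega
      · show g 5 = 0; omega
  · obtain ⟨j, -, rfl⟩ := mem_image.1 hb
    simp only [e0, e1, hφ.eq_iff]
    clear hb
    revert j
    decide
  · have a' := e1 i
    have b' := e1 j
    rw [a] at a'
    rw [b] at b'
    simp only [e0, a', b', hφ.eq_iff] at k
    revert k hij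
    clear a b a' b'
    revert i j
    decide
  · have := odd i
    omega
  · obtain ⟨i, a1, a2⟩ := ad _ _ a
    obtain ⟨j, b1, b2⟩ := ad _ _ b
    obtain ⟨k, c1, c2⟩ := ad _ _ c
    obtain ⟨u', rfl⟩ : ∃ u', u = φ u' := a2.elim (fun a => ⟨_, a.1⟩) fun a => ⟨_, a.2⟩
    obtain ⟨v', rfl⟩ : ∃ u', v = φ u' := a2.elim (fun a => ⟨_, a.2⟩) fun a => ⟨_, a.1⟩
    obtain ⟨w', rfl⟩ : ∃ u', w = φ u' := b2.elim (fun a => ⟨_, a.2⟩) fun a => ⟨_, a.1⟩
    simp only [hφ.eq_iff] at a2 b2 c2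
    obtain ⟨e, he, hz⟩ := k4_tri s t rfl rfl i j k _ _ _ a2 b2 c2
    have one : ∀ z ∈ [e.1, e.2.1, e.2.2], len z = 1 := fun z h => by
      rcases hz z h with rfl | rfl | rfl <;> assumption
    simp only [List.mem_cons, List.not_mem_nil, or_false] at he
    rcases he with rfl | rfl | rfl | rfl <;> simp [len] at one <;> omega
  · obtain ⟨i, hi⟩ : ∃ i, 3 ≤ len i := by
      by_contra k
      have a3 : ¬ 3 ≤ r1 := fun e => k ⟨3, e⟩
      have a4 : ¬ 3 ≤ r2 := fun e => k ⟨4, e⟩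
      have a5 : ¬ 3 ≤ r3 := fun e => k ⟨5, e⟩
      omega
    refine ⟨i, by omega, fun a k => ?_⟩
    obtain ⟨j, b1, b2⟩ := ad _ _ k
    have a' := e1 i
    rw [a] at a'
    simp only [e0, a', hφ.eq_iff] at b2
    have : i = j := by
      revert b2
      clear a b1 a' hi k
      revert i j
      decide
    subst this
    omega

end Pool.Agent.Work.MP_3cad78_co
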