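import Pool.Agent.Work.MP_3cad78_co.Neg

/-! Subdivided graphs given by threads, and the counting criterion for them. -/

namespace Pool.Agent.Work.MP_3cad78_co

open Finset

variable {W T : Type}

theorem alt_sum (g : ℕ → ℤ) (a m : ℕ) (h : ∀ j, a ≤ j → j + 1 < a + 2 * m → g j + g (j + 1) ≤ 0) :
    ∑ j ∈ Ico a (a + 2 * m), g j ≤ 0 ∧
      (∑ j ∈ Ico a (a + 2 * m), g j = 0 → ∀ t < m, g (a + 2 * t) + g (a + 2 * t + 1) = 0) := by
  induction m with
  | zero => simp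
  | succ m ih =>
    obtain ⟨i1, i2⟩ := ih fun j a b => h j a (by omega)
    have k := h (a + 2 * m) (by omega) (by omega)
    rw [show a + 2 * (m + 1) = a + 2 * m + 1 + 1 by ring, sum_Ico_succ_top (by omega),
      sum_Ico_succ_top (by omega)]
    refine ⟨by omega, fun e t ht => ?_⟩
    rcases Nat.lt_succ_iff_lt_or_eq.1 ht with ht | rfl
    · exact i2 (by omega) t ht
    · omega

theorem thread_sum (g : ℕ → ℤ) (L : ℕ) (hL : 0 < L) (h : ∀ j < L, g j + g (j + 1) ≤ 0) :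
    (L % 2 = 1 → ∑ j ∈ Ico 1 L, g j ≤ 0 ∧ ∑ j ∈ Ico 1 L, g j + g 0 + g L ≤ 0) ∧
    (L % 2 = 0 → ∑ j ∈ Ico 1 L, g j + g 0 ≤ 0 ∧ ∑ j ∈ Ico 1 L, g j + g L ≤ 0) ∧
    (g 0 = 0 → g L = 0 → ∑ j ∈ Ico 1 L, g j = 0 → ∀ j ≤ L, g j = 0) := by
  have e0 : ∑ j ∈ Ico 0 L, g j = g 0 + ∑ j ∈ Ico 1 L, g j := sum_eq_sum_Ico_succ_bot hL g
  have e1 : ∑ j ∈ Ico 1 (L + 1), g j = ∑ j ∈ Ico 1 L, g j + g L := sum_Ico_succ_top hL g
  have e2 : ∑ j ∈ Ico 0 (L + 1), g j = ∑ j ∈ Ico 0 L, g j + g L := sum_Ico_succ_top hL.le g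
  have fin : g 0 = 0 → (∀ j < L, g j + g (j + 1) = 0) → ∀ j ≤ L, g j = 0 := by
    intro h0 ht j
    induction j with
    | zero => exact fun _ => h0
    | succ j ih => intro hj; have := ht j (by omega); have := ih (by omega); omega
  rcases Nat.even_or_odd' L with ⟨m, rfl | rfl⟩
  · obtain ⟨a1, a2⟩ := alt_sum g 0 m fun j _ b => h j (by omega)
    obtain ⟨b1, b2⟩ := alt_sum g 1 m fun j _ b => h j (by omega)
    rw [Nat.zero_add] at a1 a2
    rw [Nat.add_comm 1] at b1 b2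
    refine ⟨by omega, fun _ => ⟨by omega, by omega⟩, fun k1 k2 k3 => fin k1 fun j hj => ?_⟩
    rcases Nat.even_or_odd' j with ⟨t, rfl | rfl⟩
    · simpa using a2 (by omega) t (by omega)
    · simpa [Nat.add_comm 1] using b2 (by omega) t (by omega)
  · obtain ⟨a1, a2⟩ := alt_sum g 0 (m + 1) fun j _ b => h j (by omega)
    obtain ⟨b1, b2⟩ := alt_sum g 1 m fun j _ b => h j (by omega)
    rw [show 0 + 2 * (m + 1) = 2 * m + 1 + 1 by ring] at a1 a2
    rw [Nat.add_comm 1] at b1 b2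
    refine ⟨fun _ => ⟨by omega, by omega⟩, by omega, fun k1 k2 k3 => fin k1 fun j hj => ?_⟩
    rcases Nat.even_or_odd' j with ⟨t, rfl | rfl⟩
    · simpa using a2 (by omega) t (by omega)
    · simpa [Nat.add_comm 1] using b2 (by omega) t (by omega)

/-- Paths `p i` with ends in `B` which are otherwise disjoint from `B` and from each other. -/
structure Thr (H : SimpleGraph W) (len : T → ℕ) (p : T → ℕ → W) (B : Finset W) : Prop where
  adj : ∀ i j, j < len i → H.Adj (p i j) (p i (j + 1))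
  hs : ∀ i, p i 0 ∈ B
  he : ∀ i, p i (len i) ∈ B
  ne : ∀ i, p i 0 ≠ p i (len i)
  inn : ∀ i j, 0 < j → j < len i → p i j ∉ B
  inj : ∀ i j i' j', 0 < j → j < len i → 0 < j' → j' < len i' → p i j = p i' j' → i = i' ∧ j = j'

/-- Joined by a thread of length one. -/
def Ad1 (len : T → ℕ) (p : T → ℕ → W) (u v : W) : Prop :=
  ∃ i, len i = 1 ∧ (u = p i 0 ∧ v = p i 1 ∨ v = p i 0 ∧ u = p i 1)

namespace Thr

variable {H : SimpleGraph W} {len : T → ℕ} {p : T → ℕ → W} {B : Finset W} (h : Thr H len p B)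

/-- The union of the threads. -/
def gr : SimpleGraph W where
  Adj u v := ∃ i j, j < len i ∧ (u = p i j ∧ v = p i (j + 1) ∨ v = p i j ∧ u = p i (j + 1))
  symm := ⟨fun _ _ ⟨i, j, a, b⟩ => ⟨i, j, a, b.symm⟩⟩
  loopless := ⟨fun _ ⟨i, j, a, b⟩ => (h.adj i j a).ne (by
    rcases b with ⟨b, c⟩ | ⟨b, c⟩ <;> exact b.symm.trans c)⟩

include h in
theorem pos (i : T) : 0 < len i := Nat.pos_of_ne_zero fun e => h.ne i (by rw [e])

theorem step (i : T) (j : ℕ) (hj : j < len i) : h.gr.Adj (p i j) (p i (j + 1)) :=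
  ⟨i, j, hj, Or.inl ⟨rfl, rfl⟩⟩

theorem nbr {i : T} {j : ℕ} {v : W} (h0 : 0 < j) (hj : j < len i) (a : h.gr.Adj (p i j) v) :
    v = p i (j - 1) ∨ v = p i (j + 1) := by
  obtain ⟨i', j', b, ⟨c, d⟩ | ⟨c, d⟩⟩ := a
  · rcases Nat.eq_zero_or_pos j' with rfl | e
    · exact (h.inn i j h0 hj (c ▸ h.hs i')).elim
    · obtain ⟨rfl, rfl⟩ := h.inj _ _ _ _ h0 hj e b c
      exact Or.inr d
  · rcases Nat.lt_or_eq_of_le (Nat.succ_le_of_lt b) with e | e
    · obtain ⟨rfl, rfl⟩ := h.inj _ _ _ _ h0 hj (Nat.succ_pos _) e d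
      exact Or.inl c
    · refine (h.inn i j h0 hj ?_).elim
      rw [d, show j' + 1 = len i' from e]
      exact h.he i'

include h in
theorem idx {i : T} {j : ℕ} (hj : j ≤ len i) (a : p i j ∈ B) : j = 0 ∨ j = len i := by
  by_contra k
  exact h.inn i j (by omega) (by omega) a

theorem bb {u v : W} (hu : u ∈ B) (hv : v ∈ B) (a : h.gr.Adj u v) : Ad1 len p u v := by
  obtain ⟨i, j, b, c⟩ := a
  have k : p i j ∈ B ∧ p i (j + 1) ∈ B := by
    rcases c with ⟨rfl, rfl⟩ | ⟨rfl, rfl⟩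
    · exact ⟨hu, hv⟩
    · exact ⟨hv, hu⟩
  have k1 := h.idx b.le k.1
  have k2 := h.idx b k.2
  obtain rfl : j = 0 := by omega
  exact ⟨i, by omega, c⟩

theorem mem_or {u v : W} (a : h.gr.Adj u v) : u ∈ B ∨ ∃ i j, 0 < j ∧ j < len i ∧ u = p i j := by
  have k : ∃ i j, j ≤ len i ∧ u = p i j := by
    obtain ⟨i, j, b, ⟨c, -⟩ | ⟨-, c⟩⟩ := a
    · exact ⟨i, j, b.le, c⟩
    · exact ⟨i, j + 1, b, c⟩
  obtain ⟨i, j, b, rfl⟩ := k
  by_cases e : j = 0 ∨ j = len i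
  · rcases e with rfl | rfl
    · exact Or.inl (h.hs i)
    · exact Or.inl (h.he i)
  · exact Or.inr ⟨i, j, by omega, by omega, rfl⟩

theorem first {i : T} {b : W} (a : p i 0 = b ∨ p i (len i) = b) : ∃ x, h.gr.Adj b x ∧
    ((∃ j, 0 < j ∧ j < len i ∧ x = p i j) ∨
      len i = 1 ∧ (p i 0 = b ∧ p i 1 = x ∨ p i 0 = x ∧ p i 1 = b)) := by
  have k := h.pos i
  rcases a with rfl | rfl
  · refine ⟨p i 1, h.step i 0 k, ?_⟩
    by_cases e : len i = 1
    · exact Or.inr ⟨e, Or.inl ⟨rfl, rfl⟩⟩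
    · exact Or.inl ⟨1, one_pos, by omega, rfl⟩
  · have := (h.step i (len i - 1) (by omega)).symm
    rw [show len i - 1 + 1 = len i by omega] at this
    refine ⟨_, this, ?_⟩
    by_cases e : len i = 1
    · exact Or.inr ⟨e, Or.inr (by rw [e]; exact ⟨rfl, rfl⟩)⟩
    · exact Or.inl ⟨_, by omega, by omega, rfl⟩

include h in
theorem not_contractible [Finite W] [Fintype T]
    (lp0 : ∀ (f : W → ℤ) (s : T → ℤ),
      (∀ i, len i % 2 = 1 → s i ≤ 0 ∧ s i + f (p i 0) + f (p i (len i)) ≤ 0) →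
      (∀ i, len i % 2 = 0 → s i + f (p i 0) ≤ 0 ∧ s i + f (p i (len i)) ≤ 0) →
      0 ≤ ∑ b ∈ B, f b + ∑ i, s i → (∀ b ∈ B, f b = 0) ∧ ∀ i, s i = 0)
    (deg : ∀ b ∈ B, ∃ i j k : T, i ≠ j ∧ i ≠ k ∧ j ≠ k ∧ (p i 0 = b ∨ p i (len i) = b) ∧
      (p j 0 = b ∨ p j (len j) = b) ∧ (p k 0 = b ∨ p k (len k) = b))
    (simple : ∀ i i', i ≠ i' → len i = 1 → len i' = 1 →
      ¬ (p i 0 = p i' 0 ∧ p i 1 = p i' 1 ∨ p i 0 = p i' 1 ∧ p i 1 = p i' 0))
    (tri2 : ∀ i, len i = 2 → ¬ Ad1 len p (p i 0) (p i 2))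
    (tri3 : ∀ u v w, Ad1 len p u v → Ad1 len p v w → Ad1 len p w u → False)
    (ns : ∃ i, 2 ≤ len i ∧ (len i = 3 → ¬ Ad1 len p (p i 0) (p i 3))) : ¬ Contractible H := by
  classical
  let I : Finset W := univ.biUnion fun i => (Ico 1 (len i)).image (p i)
  have mI : ∀ u, u ∈ I ↔ ∃ i j, 0 < j ∧ j < len i ∧ u = p i j := fun u => by
    simp only [I, mem_biUnion, mem_univ, true_and, mem_image, mem_Ico]
    exact ⟨fun ⟨i, j, ⟨a, b⟩, c⟩ => ⟨i, j, a, b, c.symm⟩,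
      fun ⟨i, j, a, b, c⟩ => ⟨i, j, ⟨a, b⟩, c.symm⟩⟩
  have hU : ∀ u v, h.gr.Adj u v → u ∈ B ∪ I := fun u v a =>
    mem_union.2 ((h.mem_or a).imp id (mI u).2)
  have two : ∀ i j v w, 0 < j → j < len i → h.gr.Adj (p i j) v → h.gr.Adj v w →
      h.gr.Adj w (p i j) → False := by
    intro i j v w h0 hj a b c
    have k : h.gr.Adj (p i (j - 1)) (p i (j + 1)) := by
      rcases h.nbr h0 hj a with rfl | rfl <;> rcases h.nbr h0 hj c.symm with e | e <;>
        rw [e] at b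
      · exact (b.ne rfl).elim
      · exact b
      · exact b.symm
      · exact (b.ne rfl).elim
    have ne : ∀ a b, a < b → b ≤ len i → p i a ≠ p i b := by
      intro a b hab hb e
      rcases Nat.eq_zero_or_pos a with rfl | ha
      · rcases h.idx hb (e ▸ h.hs i) with k | k
        · omega
        · exact h.ne i (k ▸ e)
      · rcases Nat.lt_or_eq_of_le hb with k | k
        · have := (h.inj _ _ _ _ ha (by omega) (by omega) k e).2
          omega
        · exact h.inn i a ha (by omega) (by rw [e, k]; exact h.he i)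
    by_cases e1 : j = 1
    · subst e1
      by_cases e2 : len i = 2
      · exact tri2 i e2 (h.bb (h.hs i) (e2 ▸ h.he i) k)
      · rcases h.nbr (by omega) (by omega) k.symm with e | e
        · exact ne _ _ (by omega) (by omega) e
        · refine tri2 i ?_ ?_ <;> exfalso <;> exact ne _ _ (by omega) (by omega) e
    · rcases h.nbr (by omega) (by omega) k with e | e
      · exact ne _ _ (by omega) (by omega) e.symm
      · exact ne _ _ (by omega) (by omega) e.symm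
  refine not_contractible_of_lp (K := h.gr) ?_ (B ∪ I) hU ?_ ?_ ?_
  · rintro u v ⟨i, j, a, ⟨rfl, rfl⟩ | ⟨rfl, rfl⟩⟩
    · exact h.adj i j a
    · exact (h.adj i j a).symm
  · intro u v w a b c
    rcases h.mem_or a with hu | ⟨i, j, k1, k2, rfl⟩
    · rcases h.mem_or b with hv | ⟨i, j, k1, k2, rfl⟩
      · rcases h.mem_or c with hw | ⟨i, j, k1, k2, rfl⟩
        · exact tri3 u v w (h.bb hu hv a) (h.bb hv hw b) (h.bb hw hu c)
        · exact two i j u v k1 k2 c a b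
      · exact two i j w u k1 k2 b c a
    · exact two i j v w k1 k2 a b c
  · intro f hf hs u hu
    have th := fun i => thread_sum (fun j => f (p i j)) (len i) (h.pos i)
      fun j hj => hf _ _ (h.step i j hj)
    have e : ∑ u ∈ B ∪ I, f u = ∑ b ∈ B, f b + ∑ i, ∑ j ∈ Ico 1 (len i), f (p i j) := by
      rw [sum_union, sum_biUnion]
      · congr 1
        refine sum_congr rfl fun i _ => sum_image fun a ha b hb e => ?_
        have ha := mem_Ico.1 ha
        have hb := mem_Ico.1 hb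
        exact (h.inj _ _ _ _ ha.1 ha.2 hb.1 hb.2 e).2
      · intro i _ i' _ hne
        refine disjoint_left.2 fun x a b => ?_
        obtain ⟨j, a', e'⟩ := mem_image.1 a
        obtain ⟨j', b', e⟩ := mem_image.1 b
        have a := mem_Ico.1 a'
        have b := mem_Ico.1 b'
        exact hne (h.inj _ _ _ _ a.1 a.2 b.1 b.2 (e'.trans e.symm)).1
      · refine disjoint_left.2 fun x a b => ?_
        obtain ⟨i, j, k1, k2, rfl⟩ := (mI x).1 b
        exact h.inn i j k1 k2 a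
    obtain ⟨z1, z2⟩ := lp0 f _ (fun i => (th i).1) (fun i => (th i).2.1) (e ▸ hs)
    rcases mem_union.1 hu with hu | hu
    · exact z1 u hu
    · obtain ⟨i, j, -, k2, rfl⟩ := (mI u).1 hu
      exact (th i).2.2 (z1 _ (h.hs i)) (z1 _ (h.he i)) (z2 i) j k2.le
  · intro σ s1 s2 s3
    have dif : ∀ {i i' : T} {b : W}, i ≠ i' → ∀ {x x' : W},
        ((∃ j, 0 < j ∧ j < len i ∧ x = p i j) ∨
          len i = 1 ∧ (p i 0 = b ∧ p i 1 = x ∨ p i 0 = x ∧ p i 1 = b)) →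
        ((∃ j, 0 < j ∧ j < len i' ∧ x' = p i' j) ∨
          len i' = 1 ∧ (p i' 0 = b ∧ p i' 1 = x' ∨ p i' 0 = x' ∧ p i' 1 = b)) → x ≠ x' := by
      intro i i' b hne x x' a a' e
      subst e
      have inB : ∀ i, len i = 1 → (p i 0 = b ∧ p i 1 = x ∨ p i 0 = x ∧ p i 1 = b) → x ∈ B := by
        rintro i e (⟨-, rfl⟩ | ⟨rfl, -⟩)
        · exact e ▸ h.he i
        · exact h.hs i
      rcases a with ⟨j, k1, k2, k3⟩ | ⟨k1, k2⟩ <;> rcases a' with ⟨j', l1, l2, l3⟩ | ⟨l1, l2⟩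
      · exact hne (h.inj _ _ _ _ k1 k2 l1 l2 (k3.symm.trans l3)).1
      · exact h.inn _ _ k1 k2 (k3 ▸ inB _ l1 l2)
      · exact h.inn _ _ l1 l2 (l3 ▸ inB _ k1 k2)
      · refine simple i i' hne k1 l1 ?_
        rcases k2 with ⟨a, b⟩ | ⟨a, b⟩ <;> rcases l2 with ⟨c, d⟩ | ⟨c, d⟩ <;>
          simp [a, b, c, d]
    have mB : Set.MapsTo σ B B := by
      intro b hb
      obtain ⟨i, j, k, n1, n2, n3, a1, a2, a3⟩ := deg b hb
      obtain ⟨x, x1, x2⟩ := h.first a1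
      obtain ⟨y, y1, y2⟩ := h.first a2
      obtain ⟨z, z1, z2⟩ := h.first a3
      have ux := hU _ _ x1.symm
      have uy := hU _ _ y1.symm
      have uz := hU _ _ z1.symm
      have d1 : σ x ≠ σ y := fun e => dif n1 x2 y2 (s1 ux uy e)
      have d2 : σ x ≠ σ z := fun e => dif n2 x2 z2 (s1 ux uz e)
      have d3 : σ y ≠ σ z := fun e => dif n3 y2 z2 (s1 uy uz e)
      rcases h.mem_or (s3 _ _ x1) with k | ⟨t, l, k1, k2, k3⟩
      · exact k
      · have q1 := h.nbr k1 k2 (k3 ▸ s3 _ _ x1)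
        have q2 := h.nbr k1 k2 (k3 ▸ s3 _ _ y1)
        have q3 := h.nbr k1 k2 (k3 ▸ s3 _ _ z1)
        exfalso
        rcases q1 with q1 | q1 <;> rcases q2 with q2 | q2 <;> rcases q3 with q3 | q3 <;>
          simp_all
    have sB : Set.SurjOn σ B B :=
      ((B.finite_toSet.injOn_iff_bijOn_of_mapsTo mB).1
        (s1.mono (coe_subset.2 subset_union_left))).surjOn
    obtain ⟨i, k1, k2⟩ := ns
    have a0 := h.step i 0 (by omega)
    have u1 := hU _ _ a0.symm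
    have nB : σ (p i 1) ∉ B := fun hb => by
      obtain ⟨b, hb', e⟩ := sB hb
      exact h.inn i 1 one_pos k1
        (s1 (mem_union_left _ hb') u1 e ▸ hb')
    have e2 : σ (p i 1) = p i 2 :=
      (h.nbr one_pos k1 (s2 _ u1)).resolve_left fun e => nB (e ▸ h.hs i)
    have k3 : 2 < len i := lt_of_le_of_ne k1 fun e => nB (by rw [e2, e]; exact h.he i)
    have b0 : σ (p i 0) ∈ B := mB (h.hs i)
    have e3 : σ (p i 0) = p i 3 :=
      (h.nbr two_pos k3 (e2 ▸ (s3 _ _ a0).symm)).resolve_left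
        fun e => h.inn i 1 one_pos k1 (e ▸ b0)
    have k4 := h.idx (show 3 ≤ len i from k3) (e3 ▸ b0)
    exact k2 (by omega) (h.bb (h.hs i) (e3 ▸ b0) (e3 ▸ s2 _ (mem_union_left _ (h.hs i))))

end Thr

end Pool.Agent.Work.MP_3cad78_co
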