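import Pool.Agent.Work.MP_3cad78_co.Obs
import Pool.Agent.Work.MP_3cad78_co.Cover2
import Pool.Agent.Work.MP_97603a_co.Menger
import Pool.Agent.Work.MP_3cad78_co.Cert

-- merged part: Pool.Agent.Work.MP_3cad78_co.PaLib
section
/-! Operations on paths, odd cycles, and fans in three-connected graphs. -/

namespace Pool.Agent.Work.MP_3cad78_co

open Set

variable {V W : Type} {H : SimpleGraph W} {a b c : W} {L L' : ℕ} {S S' : Set W}

theorem Pa.mono (h : Pa H a b L S) (hS : S ⊆ S') : Pa H a b L S' := by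
  obtain ⟨p, h1, h2, h3, h4, h5⟩ := h
  exact ⟨p, h1, h2, h3, h4, fun j hj => hS (h5 j hj)⟩

theorem Pa.nil (a : W) : Pa H a a 0 {a} :=
  ⟨fun _ => a, rfl, rfl, fun _ h => absurd h (Nat.not_lt_zero _), fun _ _ _ _ _ => by omega,
    fun _ _ => rfl⟩

theorem Pa.edge (h : H.Adj a b) : Pa H a b 1 {a, b} := by
  refine ⟨fun j => if j = 0 then a else b, rfl, rfl, fun j hj => ?_, fun i j hi hj e => ?_,
    fun j _ => ?_⟩
  · obtain rfl : j = 0 := by omega
    exact h
  · have := h.ne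
    grind
  · grind

theorem Pa.symm (h : Pa H a b L S) : Pa H b a L S := by
  obtain ⟨p, h1, h2, h3, h4, h5⟩ := h
  refine ⟨fun j => p (L - j), h2, by simpa using h1, fun j hj => ?_, fun i j hi hj e => ?_,
    fun j _ => h5 _ (Nat.sub_le _ _)⟩
  · have := (h3 (L - (j + 1)) (by omega)).symm
    rwa [show L - (j + 1) + 1 = L - j by omega] at this
  · have := h4 _ _ (Nat.sub_le _ _) (Nat.sub_le _ _) e
    omega

theorem Pa.cat (h : Pa H a b L S) (h' : Pa H b c L' S') (hS : S ∩ S' ⊆ {b}) :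
    Pa H a c (L + L') (S ∪ S') := by
  obtain ⟨p, h1, h2, h3, h4, h5⟩ := h
  obtain ⟨q, k1, k2, k3, k4, k5⟩ := h'
  have cross : ∀ i j, i ≤ L → L < j → j ≤ L + L' → p i ≠ q (j - L) := by
    intro i j hi hj hj' e
    have : q (j - L) = q 0 := (hS ⟨e ▸ h5 i hi, k5 _ (by omega)⟩).trans k1.symm
    have := k4 _ _ (by omega) (Nat.zero_le _) this
    omega
  refine ⟨fun j => if j ≤ L then p j else q (j - L), by simpa using h1, ?_, fun j hj => ?_,
    fun i j hi hj e => ?_, fun j hj => ?_⟩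
  · by_cases e : L' = 0
    · subst e
      simp [h2, ← k1, ← k2]
    · simp [e, k2]
  · by_cases e : j < L
    · simpa [e.le, Nat.succ_le_of_lt e] using h3 j e
    · have := k3 (j - L) (by omega)
      by_cases e' : j = L
      · subst e'
        simpa [h2, k1] using this
      · rw [show j - L + 1 = j + 1 - L by omega] at this
        simpa [show ¬ j ≤ L by omega, show ¬ j + 1 ≤ L by omega] using this
  · simp only at e
    split_ifs at e with e1 e2 e2
    · exact h4 i j e1 e2 e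
    · exact (cross i j e1 (by omega) hj e).elim
    · exact (cross j i e2 (by omega) hi e.symm).elim
    · have := k4 _ _ (by omega) (by omega) e
      omega
  · simp only
    split_ifs with e
    · exact Or.inl (h5 j e)
    · exact Or.inr (k5 _ (by omega))

theorem Pa.exact (h : Pa H a b L S) :
    ∃ T ⊆ S, Pa H a b L T ∧ ∀ z ∈ T, ∃ M, Pa H z b M T := by
  obtain ⟨p, h1, h2, h3, h4, h5⟩ := h
  refine ⟨p '' Iic L, ?_, ⟨p, h1, h2, h3, h4, fun j hj => ⟨j, hj, rfl⟩⟩, ?_⟩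
  · rintro _ ⟨j, hj, rfl⟩
    exact h5 j hj
  · rintro _ ⟨j, hj, rfl⟩
    have hj : j ≤ L := hj
    refine ⟨L - j, fun t => p (j + t), rfl, by simpa [hj] using h2, fun t ht => h3 _ (by omega),
      fun s t hs ht e => ?_, fun t ht => ⟨_, show j + t ≤ L by omega, rfl⟩⟩
    have := h4 _ _ (by omega) (by omega) e
    omega

theorem Pa.le_card [Finite W] (h : Pa H a b L S) : L < Nat.card W := by
  obtain ⟨p, -, -, -, h4, -⟩ := h
  have := Nat.card_le_card_of_injective (fun i : Fin (L + 1) => p i) fun i j e =>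
    Fin.ext (h4 _ _ (Nat.le_of_lt_succ i.2) (Nat.le_of_lt_succ j.2) e)
  simpa using this

/-- A walk into `C` contains a path to its first vertex in `C`. -/
theorem Conn.first_hit {C : Set W} (h : Conn H S a b) (hb : b ∈ C) (ha : a ∈ S) :
    ∃ b' ∈ C, ∃ L, ∃ T ⊆ S, Pa H a b' L T ∧ T ∩ C ⊆ {b'} := by
  induction h using Relation.ReflTransGen.head_induction_on with
  | refl => exact ⟨b, hb, 0, {b}, by simpa using ha, Pa.nil b, inter_subset_left⟩
  | @head x y h1 _ ih =>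
    by_cases hx : x ∈ C
    · exact ⟨x, hx, 0, {x}, by simpa using ha, Pa.nil x, inter_subset_left⟩
    · obtain ⟨b', k1, L, T, k2, k3, k4⟩ := ih h1.2.1
      obtain ⟨T', l1, l2, l3⟩ := k3.exact
      by_cases hT : x ∈ T'
      · obtain ⟨M, hM⟩ := l3 x hT
        exact ⟨b', k1, M, T', l1.trans k2, hM, fun z hz => k4 ⟨l1 hz.1, hz.2⟩⟩
      · refine ⟨b', k1, _, _, ?_, (Pa.edge h1.2.2).cat l2 (by grind), ?_⟩
        · have := h1.2.1
          grind
        · rintro z ⟨(rfl | rfl) | hz, hz'⟩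
          · exact (hx hz').elim
          · exact k4 ⟨k3.left, hz'⟩
          · exact k4 ⟨l1 hz, hz'⟩

/-- A walk which enters `C` has an edge which enters `C`. -/
theorem Conn.enter {C : Set W} (h : Conn H S a b) (ha : a ∉ C) (hb : b ∈ C) :
    ∃ u w, u ∉ C ∧ w ∈ C ∧ u ∈ S ∧ w ∈ S ∧ H.Adj u w := by
  induction h with
  | refl => exact (ha hb).elim
  | @tail x y _ h ih =>
    by_cases hx : x ∈ C
    · exact ih hx
    · exact ⟨x, y, hx, hb, h⟩

/-- There is a cycle of length `L + 1`. -/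
def Cy (H : SimpleGraph W) (L : ℕ) : Prop := ∃ a b S, Pa H a b L S ∧ H.Adj b a

theorem exists_odd_cycle (h : ¬ H.Colorable 2) : ∃ L, L % 2 = 0 ∧ 2 ≤ L ∧ Cy H L := by
  have h0 : ∃ m, m % 2 = 1 ∧ ∃ p : ℕ → W, p m = p 0 ∧ ∀ j < m, H.Adj (p j) (p (j + 1)) := by
    rw [SimpleGraph.two_colorable_iff_forall_loop_even] at h
    push Not at h
    obtain ⟨u, w, hw⟩ := h
    exact ⟨w.length, Nat.odd_iff.1 (Nat.not_even_iff_odd.1 hw), w.getVert, by simp,
      fun j hj => w.adj_getVert_succ hj⟩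
  classical
  obtain ⟨hm, p, h1, h2⟩ := Nat.find_spec h0
  have hmin := fun m' (hlt : m' < Nat.find h0) => Nat.find_min h0 hlt
  generalize Nat.find h0 = m at hm h1 h2 hmin
  have inj : ∀ i j, i < j → j < m → p i ≠ p j := by
    intro i j hij hj e
    by_cases ho : (j - i) % 2 = 1
    · exact hmin (j - i) (by omega) ⟨ho, fun t => p (i + t), by simpa [hij.le] using e.symm,
        fun t ht => h2 _ (by omega)⟩
    · refine hmin (m - (j - i)) (by omega) ⟨by omega,
        fun t => if t ≤ i then p t else p (t + (j - i)), ?_, fun t ht => ?_⟩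
      · simp only [Nat.zero_le, if_true, show ¬ m - (j - i) ≤ i by omega, if_false]
        rwa [show m - (j - i) + (j - i) = m by omega]
      · simp only
        split_ifs with e1 e2 e2
        · exact h2 t (by omega)
        · obtain rfl : t = i := by omega
          rw [e, show t + 1 + (j - t) = j + 1 by omega]
          exact h2 j hj
        · omega
        · rw [show t + 1 + (j - i) = t + (j - i) + 1 by omega]
          exact h2 _ (by omega)
  have h3 : m ≠ 1 := by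
    rintro rfl
    exact (h2 0 one_pos).ne h1.symm
  refine ⟨m - 1, by omega, by omega, p 0, p (m - 1), univ, ⟨p, rfl, rfl, fun j hj => h2 j (by omega),
    fun i j hi hj e => ?_, fun _ _ => trivial⟩, ?_⟩
  · rcases lt_trichotomy i j with k | k | k
    · exact (inj i j k (by omega) e).elim
    · exact k
    · exact (inj j i k (by omega) e.symm).elim
  · have := h2 (m - 1) (by omega)
    rwa [show m - 1 + 1 = m by omega, h1] at this

/-- Connected after the removal of any two vertices. -/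
def Conn3 (H : SimpleGraph W) : Prop :=
  ∀ x y a b, a ≠ x → a ≠ y → b ≠ x → b ≠ y → Conn H {v | v ≠ x ∧ v ≠ y} a b

theorem exists_other [Finite W] (l : List W) (h : l.length < Nat.card W) : ∃ z, z ∉ l := by
  classical
  by_contra k
  push Not at k
  have := Fintype.ofFinite W
  have e : (Finset.univ : Finset W) ⊆ l.toFinset := fun z _ => List.mem_toFinset.2 (k z)
  have := (Finset.card_le_card e).trans l.toFinset_card_le
  rw [Nat.card_eq_fintype_card] at h
  rw [Finset.card_univ] at this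
  omega

theorem Conn3.third [Finite W] (h : Conn3 H) (hc : 4 ≤ Nat.card W) (v x y : W) (hx : v ≠ x)
    (hy : v ≠ y) : ∃ w, H.Adj v w ∧ w ≠ x ∧ w ≠ y := by
  obtain ⟨b, hb⟩ := exists_other [v, x, y] hc
  simp only [List.mem_cons, List.not_mem_nil, or_false, not_or] at hb
  obtain ⟨w, h1, -, h3, -⟩ := (h x y v b hx hy hb.2.1 hb.2.2).last (Ne.symm hb.1)
  exact ⟨w, h1, h3⟩

open Pool.Agent.Work.MP_97603a_co in
theorem Conn3.fan [Finite W] (h : Conn3 H) {C : Set W} {v : W} (hv : v ∉ C)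
    (hC : ∀ x y, ∃ z ∈ C, z ≠ x ∧ z ≠ y) :
    ∃ (a : Fin 3 → W) (L : Fin 3 → ℕ) (S : Fin 3 → Set W), (∀ i, a i ∈ C ∧ Pa H v (a i) (L i) (S i) ∧
      S i ∩ C ⊆ {a i}) ∧ ∀ i j, i ≠ j → S i ∩ S j ⊆ {v} := by
  classical
  obtain ⟨s, t, P, h1, h2⟩ := menger 3 (fun a b => H.Adj a b ∧ b ≠ v) {w | H.Adj v w} C (by
    intro Z hZ
    obtain ⟨x, y, hx, hy, hZ'⟩ : ∃ x y, v ≠ x ∧ v ≠ y ∧ ∀ z ∈ Z, z = v ∨ z = x ∨ z = y := by
      obtain ⟨z0, hz0, -⟩ := hC v v
      have n0 : v ≠ z0 := fun e => hv (e ▸ hz0)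
      have : ∃ x y, ∀ z ∈ Z, z = x ∨ z = y := by
        rcases (show Z.card = 0 ∨ Z.card = 1 ∨ Z.card = 2 by omega) with k | k | k
        · exact ⟨v, v, by simp [Finset.card_eq_zero.1 k]⟩
        · obtain ⟨x, rfl⟩ := Finset.card_eq_one.1 k
          exact ⟨x, x, by simp⟩
        · obtain ⟨x, y, -, rfl⟩ := Finset.card_eq_two.1 k
          exact ⟨x, y, by simp⟩
      obtain ⟨x, y, k⟩ := this
      refine ⟨if x = v then z0 else x, if y = v then z0 else y, ?_, ?_, ?_⟩ <;> grind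
    obtain ⟨z, hz, z1, z2⟩ := hC x y
    obtain ⟨w, k1, -, k3, k4, k5⟩ := (h x y v z hx hy z1 z2).last fun e => hv (e ▸ hz)
    have out : ∀ u ∈ {v | v ≠ x ∧ v ≠ y} \ {v}, u ∈ (↑Z : Set W)ᶜ := fun u hu k => by
      have := hZ' u k
      grind
    refine ⟨w, k1, z, hz, out w ⟨k3, k4⟩, ?_⟩
    clear hz z1 z2
    induction k5 with
    | refl => exact .refl
    | tail _ k ih => exact ih.tail ⟨⟨k.2.2, k.2.1.2⟩, out _ k.2.1⟩)
  have key : ∀ i, ∃ a ∈ C, ∃ L, ∃ T ⊆ P i \ {v}, Pa H (s i) a L T ∧ T ∩ C ⊆ {a} := by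
    intro i
    obtain ⟨k1, k2, k3⟩ := h1 i
    have m : s i ∈ P i \ {v} := ⟨k3.1, k1.ne'⟩
    have : ∀ z, Relation.ReflTransGen (fun x y => (H.Adj x y ∧ y ≠ v) ∧ y ∈ P i) (s i) z →
        Conn H (P i \ {v}) (s i) z := by
      intro z hz
      induction hz with
      | refl => exact Conn.refl _
      | tail _ k ih => exact ih.trans (Conn.step (ih.mem m) ⟨k.2, k.1.2⟩ k.1.1)
    exact (this _ k3.2).first_hit k2 m
  choose a a1 L T a2 a3 a4 using key
  refine ⟨a, fun i => 1 + L i, fun i => {v, s i} ∪ T i, fun i => ⟨a1 i,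
    (Pa.edge (h1 i).1).cat (a3 i) ?_, ?_⟩, fun i j hij => ?_⟩
  · have := a2 i
    grind
  · have := (a3 i).left
    have := a4 i
    grind
  · have := Set.disjoint_left.1 (h2 i j hij)
    have := (a3 i).left
    have := (a3 j).left
    have := a2 i
    have := a2 j
    grind

/-- The graph induced on indices. -/
def pb (H : SimpleGraph W) (φ : V → W) (Ω : Set V) : SimpleGraph V where
  Adj a b := a ∈ Ω ∧ b ∈ Ω ∧ H.Adj (φ a) (φ b)
  symm := ⟨fun _ _ h => ⟨h.2.1, h.1, h.2.2.symm⟩⟩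
  loopless := ⟨fun _ h => h.2.2.ne rfl⟩

theorem Pa.map {φ : V → W} {Ω : Set V} (hφ : InjOn φ Ω) {a b : V} {S : Set V}
    (h : Pa (pb H φ Ω) a b L S) (hL : 0 < L) : Pa H (φ a) (φ b) L (φ '' (S ∩ Ω)) := by
  obtain ⟨p, h1, h2, h3, h4, h5⟩ := h
  have m : ∀ j, j ≤ L → p j ∈ Ω := by
    intro j hj
    rcases j with _ | j
    · exact (h3 0 hL).1
    · exact (h3 j hj).2.1
  exact ⟨fun j => φ (p j), congrArg φ h1, congrArg φ h2, fun j hj => (h3 j hj).2.2,
    fun i j hi hj e => h4 i j hi hj (hφ (m i hi) (m j hj) e),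
    fun j hj => ⟨_, ⟨h5 j hj, m j hj⟩, rfl⟩⟩

theorem Theta.map {φ : V → W} {Ω : Set V} (hφ : InjOn φ Ω) (h : Theta (pb H φ Ω)) : Theta H := by
  obtain ⟨x, y, L1, L2, L3, S1, S2, S3, p1, p2, p3, d1, d2, d3, o1, o2, o3, n1, n2, n3⟩ := h
  have k : ∀ S S' : Set V, S ∩ S' ⊆ {x, y} → φ '' (S ∩ Ω) ∩ φ '' (S' ∩ Ω) ⊆ {φ x, φ y} := by
    rintro S S' d _ ⟨⟨a, ha, rfl⟩, b, hb, e⟩
    obtain rfl := hφ hb.2 ha.2 e
    rcases d ⟨ha.1, hb.1⟩ with rfl | rfl <;> simp
  exact ⟨_, _, L1, L2, L3, _, _, _, p1.map hφ (by omega), p2.map hφ (by omega),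
    p3.map hφ (p3.pos (p1.ne (by omega))), k _ _ d1, k _ _ d2, k _ _ d3, o1, o2, o3, n1, n2, n3⟩

theorem Cy.map {φ : V → W} {Ω : Set V} (hφ : InjOn φ Ω) (h : Cy (pb H φ Ω) L) (hL : 0 < L) :
    Cy H L := by
  obtain ⟨a, b, S, h1, h2⟩ := h
  exact ⟨_, _, _, h1.map hφ hL, h2.2.2⟩

theorem Pa.up {G : SimpleGraph ℤ} (i j : ℤ) (hij : i ≤ j)
    (h : ∀ t, i ≤ t → t < j → G.Adj t (t + 1)) : Pa G i j (j - i).toNat (Icc i j) := by
  refine ⟨fun t => i + t, by simp, by simp only; omega, fun t ht => ?_,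
    fun s t _ _ e => by simpa using e, fun t ht => ⟨by simp, by simp only; omega⟩⟩
  have := h (i + t) (by omega) (by omega)
  rwa [add_assoc] at this

end Pool.Agent.Work.MP_3cad78_co
end

-- merged part: Pool.Agent.Work.MP_3cad78_co.Cyc
section
/-! Ears and fans on an odd cycle of a graph without the two obstructions. -/

set_option linter.unusedSectionVars false

namespace Pool.Agent.Work.MP_3cad78_co

open Set

variable {W : Type} {H : SimpleGraph W}

/-- A cycle of length `n`, listed periodically. -/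
structure Cyc (H : SimpleGraph W) (n : ℤ) (c : ℤ → W) : Prop where
  adj : ∀ i, H.Adj (c i) (c (i + 1))
  per : ∀ i, c (i + n) = c i
  inj : ∀ i j, i < j → j < i + n → c i ≠ c j

theorem Cy.cyc {L : ℕ} (h : Cy H L) : ∃ c, Cyc H (L + 1) c := by
  obtain ⟨a, b, S, ⟨p, h1, h2, h3, h4, -⟩, h5⟩ := h
  have pos : (0 : ℤ) < L + 1 := by omega
  refine ⟨fun i => p (i % (L + 1)).toNat, fun i => ?_, fun i => by simp, fun i j hij hj e => ?_⟩
  · have a1 := Int.emod_nonneg i pos.ne'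
    have a2 := Int.emod_lt_of_pos i pos
    rw [← Int.emod_add_emod i]
    generalize i % (L + 1) = r at a1 a2
    obtain ⟨r, rfl⟩ := Int.eq_ofNat_of_zero_le a1
    by_cases e : r = L
    · subst e
      simpa [h1, h2] using h5
    · rw [Int.emod_eq_of_lt (by omega) (by omega)]
      exact h3 r (by omega)
  · have a1 := Int.emod_nonneg i pos.ne'
    have a2 := Int.emod_lt_of_pos i pos
    have b1 := Int.emod_nonneg j pos.ne'
    have b2 := Int.emod_lt_of_pos j pos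
    have k := h4 _ _ (by omega) (by omega) e
    have k' : i % (L + 1) = j % (L + 1) := by omega
    have := Int.le_of_dvd (by omega) (Int.ModEq.dvd k')
    omega

namespace Cyc

variable {n : ℤ} {c : ℤ → W} (h : Cyc H n c)
include h

theorem shift (a : ℤ) : Cyc H n fun i => c (i + a) :=
  ⟨fun i => by simpa [add_right_comm] using h.adj (i + a),
    fun i => by simpa [add_right_comm] using h.per (i + a),
    fun i j h1 h2 => h.inj _ _ (by omega) (by omega)⟩

theorem rev (a : ℤ) : Cyc H n fun i => c (a - i) :=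
  ⟨fun i => by
      have := (h.adj (a - (i + 1))).symm
      rwa [show a - (i + 1) + 1 = a - i by ring] at this,
    fun i => by
      have := h.per (a - (i + n))
      rw [show a - (i + n) + n = a - i by ring] at this
      exact this.symm,
    fun i j h1 h2 => (h.inj _ _ (by omega) (by omega)).symm⟩

theorem eq {i j : ℤ} (e : c i = c j) (h1 : i < j + n) (h2 : j < i + n) : i = j := by
  rcases lt_trichotomy i j with k | k | k
  · exact (h.inj i j k h2 e).elim
  · exact k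
  · exact (h.inj j i k h1 e.symm).elim

theorem per' {i j : ℤ} (e : j = i + n) : c j = c i := e ▸ h.per i

theorem norm (hn : 0 < n) (lo k : ℤ) : ∃ k', lo ≤ k' ∧ k' < lo + n ∧ ∀ d, c (k' + d) = c (k + d) := by
  have a1 := Int.emod_nonneg (k - lo) hn.ne'
  have a2 := Int.emod_lt_of_pos (k - lo) hn
  refine ⟨lo + (k - lo) % n, by omega, by omega, fun d => ?_⟩
  have := (Function.Periodic.int_mul h.per ((k - lo) / n)) (lo + (k - lo) % n + d)
  rw [← this]
  congr 1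
  have := Int.emod_add_mul_ediv (k - lo) n
  simp only [Int.cast_id]
  linarith

theorem norm0 (hn : 0 < n) (lo : ℤ) {z : W} (hz : z ∈ range c) :
    ∃ k, lo ≤ k ∧ k < lo + n ∧ c k = z := by
  obtain ⟨k, rfl⟩ := hz
  obtain ⟨k', a, b, e⟩ := h.norm hn lo k
  exact ⟨k', a, b, by simpa using e 0⟩

theorem arc (i j : ℤ) (hij : i ≤ j) (hj : j < i + n) :
    Pa H (c i) (c j) (j - i).toNat (c '' Icc i j) := by
  refine ⟨fun t => c (i + t), by simp, congrArg c (by omega), fun t _ => ?_, fun s t hs ht e => ?_,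
    fun t ht => ⟨_, ⟨by simp, by omega⟩, rfl⟩⟩
  · have := h.adj (i + t)
    rwa [add_assoc] at this
  · have := h.eq e (by omega) (by omega)
    omega

theorem arcs {i j k : ℤ} (h1 : i ≤ j) (h2 : j ≤ k) (h3 : k ≤ i + n) :
    ∀ z ∈ c '' Icc i j ∩ c '' Icc j k, z = c j ∨ z = c i ∧ k = i + n := by
  rintro _ ⟨⟨a, ha, rfl⟩, b, hb, e⟩
  by_cases k' : b < a + n
  · have := h.eq e k' (by have := ha.2; have := hb.1; omega)
    left
    congr 1
    have := ha.2
    have := hb.1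
    omega
  · have := ha.1
    have := hb.2
    exact Or.inr ⟨by congr 1; omega, by omega⟩

theorem pull (y u : W) : ∃ G : SimpleGraph ℤ, (Theta G → Theta H) ∧
    (∀ L, 0 < L → Cy G L → Cy H L) ∧
    (∀ i j, 0 ≤ i → i < n → 0 ≤ j → j < n → H.Adj (c i) (c j) → G.Adj i j) ∧
    (∀ i j, 0 ≤ i → i ≤ j → j < n → Pa G i j (j - i).toNat (Icc i j)) ∧
    (y ∉ range c → ∀ i, 0 ≤ i → i < n → H.Adj y (c i) → G.Adj (-1) i) ∧
    (u ∉ range c → u ≠ y → ∀ i, 0 ≤ i → i < n → H.Adj u (c i) → G.Adj (-2) i) := by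
  let φ : ℤ → W := fun i => if i = -1 then y else if i = -2 then u else c i
  let Ω : Set ℤ := {i | 0 ≤ i ∧ i < n ∨ i = -1 ∧ y ∉ range c ∨ i = -2 ∧ u ∉ range c ∧ u ≠ y}
  have e : ∀ i, 0 ≤ i → φ i = c i := fun i hi => by
    simp [φ, show i ≠ -1 by omega, show i ≠ -2 by omega]
  have hφ : InjOn φ Ω := by
    rintro i (hi | ⟨rfl, hi⟩ | ⟨rfl, hi⟩) j (hj | ⟨rfl, hj⟩ | ⟨rfl, hj⟩) k
    · rw [e i hi.1, e j hj.1] at k
      exact h.eq k (by omega) (by omega)
    · exact (hj ⟨i, (e i hi.1).symm.trans k⟩).elim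
    · exact (hj.1 ⟨i, (e i hi.1).symm.trans k⟩).elim
    · exact (hi ⟨j, (e j hj.1).symm.trans k.symm⟩).elim
    · rfl
    · exact (hj.2 k.symm).elim
    · exact (hi.1 ⟨j, (e j hj.1).symm.trans k.symm⟩).elim
    · exact (hi.2 k).elim
    · rfl
  have ad : ∀ i j, 0 ≤ i → i < n → 0 ≤ j → j < n → H.Adj (c i) (c j) → (pb H φ Ω).Adj i j :=
    fun i j a b a' b' k => ⟨Or.inl ⟨a, b⟩, Or.inl ⟨a', b'⟩, by rwa [e i a, e j a']⟩
  exact ⟨pb H φ Ω, Theta.map hφ, fun L a b => b.map hφ a, ad,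
    fun i j a b d => Pa.up i j b fun t t1 t2 =>
      ad _ _ (by omega) (by omega) (by omega) (by omega) (h.adj t),
    fun hy i a b k => ⟨Or.inr (Or.inl ⟨rfl, hy⟩), Or.inl ⟨a, b⟩, by rwa [e i a]⟩,
    fun hu hy i a b k => ⟨Or.inr (Or.inr ⟨rfl, hu, hy⟩), Or.inl ⟨a, b⟩, by rwa [e i a]⟩⟩

variable (hn : 5 ≤ n) (ho : n % 2 = 1) (hT : ¬ Theta H)
include hn ho hT

theorem ear {i j : ℤ} {L : ℕ} {S : Set W} (hij : i < j) (hj : j < i + n)
    (hp : Pa H (c i) (c j) L S) (hS : S ∩ range c ⊆ {c i, c j}) (hL : L % 2 = 1) :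
    L = 1 ∧ (j = i + 1 ∨ j = i + 2 ∨ j = i + n - 2 ∨ j = i + n - 1) := by
  by_contra k
  have a1 := h.arc i j hij.le hj
  have a2 := (h.arc j (i + n) hj.le (by omega)).symm
  rw [h.per] at a2
  have d1 : S ∩ c '' Icc i j ⊆ {c i, c j} := fun z hz => hS ⟨hz.1, image_subset_range _ _ hz.2⟩
  have d2 : S ∩ c '' Icc j (i + n) ⊆ {c i, c j} :=
    fun z hz => hS ⟨hz.1, image_subset_range _ _ hz.2⟩
  have d3 : c '' Icc i j ∩ c '' Icc j (i + n) ⊆ {c i, c j} := fun z hz =>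
    (h.arcs hij.le hj.le le_rfl z hz).elim Or.inr fun e => Or.inl e.1
  by_cases e : (j - i) % 2 = 1
  · exact hT ⟨_, _, _, _, _, _, _, _, hp, a1, a2, d1, d2, d3, hL, by omega, by omega, by omega,
      by omega, by omega⟩
  · exact hT ⟨_, _, _, _, _, _, _, _, hp, a2, a1, d2, d1, inter_comm _ _ ▸ d3, hL, by omega,
      by omega, by omega, by omega, by omega⟩

theorem chord {i j : ℤ} (hij : i < j) (hj : j < i + n) (a : H.Adj (c i) (c j)) :
    j = i + 1 ∨ j = i + 2 ∨ j = i + n - 2 ∨ j = i + n - 1 :=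
  (h.ear hn ho hT hij hj (Pa.edge a) inter_subset_left rfl).2

theorem ear_even {a b : W} {L : ℕ} {S : Set W} (ha : a ∈ range c) (hb : b ∈ range c) (hab : a ≠ b)
    (hp : Pa H a b L S) (hS : S ∩ range c ⊆ {a, b}) (hL : 2 ≤ L) : L % 2 = 0 := by
  obtain ⟨i, rfl⟩ := ha
  obtain ⟨j, j1, j2, rfl⟩ := h.norm0 (by omega) i hb
  by_contra k
  have := (h.ear hn ho hT (lt_of_le_of_ne j1 fun e => hab (e ▸ rfl)) j2 hp hS (by omega)).1
  omega

theorem one_odd {v : W} {i j k : ℤ} {l1 l2 l3 : ℕ} {S1 S2 S3 : Set W}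
    (hij : i < j) (hjk : j < k) (hk : k < i + n) (p1 : Pa H v (c i) l1 S1)
    (p2 : Pa H v (c j) l2 S2) (p3 : Pa H v (c k) l3 S3) (d1 : S1 ∩ range c ⊆ {c i})
    (d2 : S2 ∩ range c ⊆ {c j}) (d3 : S3 ∩ range c ⊆ {c k}) (d4 : S1 ∩ S2 ⊆ {v})
    (d5 : S1 ∩ S3 ⊆ {v}) (d6 : S2 ∩ S3 ⊆ {v}) (o1 : l1 % 2 = 1) (o2 : l2 % 2 = 1)
    (o3 : l3 % 2 = 1) (e1 : (j - i) % 2 = 1) (e2 : (k - j) % 2 = 0) :
    j = i + 1 ∧ l1 = 1 ∧ l2 = 1 := by
  by_contra q
  have r1 := image_subset_range c (Icc i j)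
  have r2 := image_subset_range c (Icc j k)
  have a1 := p1.cat (h.arc i j hij.le (by omega)) fun z hz => d1 ⟨hz.1, r1 hz.2⟩
  have a2 := p3.cat (h.arc j k hjk.le (by omega)).symm fun z hz => d3 ⟨hz.1, r2 hz.2⟩
  have m1 : c i ∉ c '' Icc j k := by
    rintro ⟨t, ht, e⟩
    exact h.inj i t (by have := ht.1; omega) (by have := ht.2; omega) e.symm
  have m2 : c k ∉ c '' Icc i j := by
    rintro ⟨t, ht, e⟩
    exact h.inj t k (by have := ht.2; omega) (by have := ht.1; omega) e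
  have m3 := h.arcs hij.le hjk.le hk.le
  refine hT ⟨_, _, _, _, _, _, _, _, p2, a2, a1, ?_, ?_, ?_, o2, by omega, by omega, by omega,
    by omega, by omega⟩
  · rintro z ⟨a, b | b⟩
    · exact Or.inl (d6 ⟨a, b⟩)
    · exact Or.inr (d2 ⟨a, r2 b⟩)
  · rintro z ⟨a, b | b⟩
    · exact Or.inl (d4 ⟨b, a⟩)
    · exact Or.inr (d2 ⟨a, r1 b⟩)
  · rintro z ⟨a | a, b | b⟩
    · exact Or.inl (d5 ⟨b, a⟩)
    · exact (m2 ((d3 ⟨a, r1 b⟩ : z = c k) ▸ b)).elim
    · exact (m1 ((d1 ⟨b, r2 a⟩ : z = c i) ▸ a)).elim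
    · exact (m3 z ⟨b, a⟩).elim Or.inr fun e => by omega

variable (hK : ¬ OddK4 H)
include hK

theorem fan3 {v : W} {i j k : ℤ} {l1 l2 l3 : ℕ} {S1 S2 S3 : Set W}
    (hij : i < j) (hjk : j < k) (hk : k < i + n) (p1 : Pa H v (c i) l1 S1)
    (p2 : Pa H v (c j) l2 S2) (p3 : Pa H v (c k) l3 S3) (d1 : S1 ∩ range c ⊆ {c i})
    (d2 : S2 ∩ range c ⊆ {c j}) (d3 : S3 ∩ range c ⊆ {c k}) (d4 : S1 ∩ S2 ⊆ {v})
    (d5 : S1 ∩ S3 ⊆ {v}) (d6 : S2 ∩ S3 ⊆ {v}) (o1 : l1 % 2 = 1) (o2 : l2 % 2 = 1)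
    (o3 : l3 % 2 = 1) :
    j = i + 1 ∧ l1 = 1 ∧ l2 = 1 ∨ k = j + 1 ∧ l2 = 1 ∧ l3 = 1 ∨
      i + n = k + 1 ∧ l3 = 1 ∧ l1 = 1 := by
  by_cases e1 : (j - i) % 2 = 1 <;> by_cases e2 : (k - j) % 2 = 1
  · by_contra q
    have a3 := h.arc k (i + n) hk.le (by omega)
    rw [h.per] at a3
    have r : c '' Icc i j ∪ c '' Icc j k ∪ c '' Icc k (i + n) ⊆ range c :=
      union_subset (union_subset (image_subset_range _ _) (image_subset_range _ _))
        (image_subset_range _ _)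
    refine hK ⟨v, _, _, _, _, _, _, _, _, _, _, _, _, _, _, _, p1, p2, p3,
      h.arc i j hij.le (by omega), h.arc j k hjk.le (by omega), a3, d4, d5, d6, ?_, ?_, ?_,
      fun z hz => d1 ⟨hz.1, r hz.2⟩, fun z hz => d2 ⟨hz.1, r hz.2⟩, fun z hz => d3 ⟨hz.1, r hz.2⟩,
      o1, o2, o3, by omega, by omega, by omega, by omega, by omega, by omega, by omega⟩
    · exact fun z hz => (h.arcs hij.le hjk.le hk.le z hz).elim id fun e => by omega
    · exact fun z hz => (h.arcs hjk.le hk.le (by omega) z hz).elim id fun e => by omega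
    · rintro _ ⟨⟨a, ha, rfl⟩, b, hb, e⟩
      have := ha.1
      have := ha.2
      have := hb.1
      have := hb.2
      have := h.eq (e.symm.trans (h.per b).symm) (by omega) (by omega)
      exact h.per' (by omega)
  · exact Or.inl (h.one_odd hn ho hT hij hjk hk p1 p2 p3 d1 d2 d3 d4 d5 d6 o1 o2 o3 e1
      (by omega))
  · rw [← h.per i] at p1 d1
    exact Or.inr (Or.inl (h.one_odd hn ho hT hjk hk (by omega) p2 p3 p1 d2 d3 d1 d6
      (inter_comm _ _ ▸ d4) (inter_comm _ _ ▸ d5) o2 o3 o1 e2 (by omega)))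
  · rw [← h.per i] at p1 d1
    rw [← h.per j] at p2 d2
    exact Or.inr (Or.inr (h.one_odd hn ho hT hk (by omega) (by omega) p3 p1 p2 d3 d1 d2
      (inter_comm _ _ ▸ d5) (inter_comm _ _ ▸ d6) d4 o3 o1 o2 (by omega) (by omega)))

theorem three {v : W} {i j k : ℤ} (hv : v ∉ range c) (hij : i + 2 ≤ j) (hjk : j + 2 ≤ k)
    (hk : k + 2 ≤ i + n) (a1 : H.Adj v (c i)) (a2 : H.Adj v (c j)) (a3 : H.Adj v (c k)) :
    False := by
  have d : ∀ t, {v, c t} ∩ range c ⊆ {c t} := by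
    rintro t z ⟨rfl | a, b⟩
    · exact (hv b).elim
    · exact a
  have d' : ∀ s t, s < t → t < s + n → ({v, c s} : Set W) ∩ {v, c t} ⊆ {v} := by
    intro s t a b
    have := h.inj s t a b
    grind
  have := h.fan3 hn ho hT hK (by omega) (by omega) (by omega) (Pa.edge a1) (Pa.edge a2)
    (Pa.edge a3) (d i) (d j) (d k) (d' _ _ (by omega) (by omega)) (d' _ _ (by omega) (by omega))
    (d' _ _ (by omega) (by omega)) rfl rfl rfl
  omega

theorem consec [Finite W] (h3 : Conn3 H) {v : W} {k : ℤ} (hv : v ∉ range c)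
    (hk : H.Adj v (c k)) : ∃ a, H.Adj v (c a) ∧ H.Adj v (c (a + 1)) := by
  obtain ⟨a, L, S, f1, f2⟩ := h3.fan hv fun x y => by
    have n1 := h.inj 0 1 (by omega) (by omega)
    have n2 := h.inj 0 2 (by omega) (by omega)
    have n3 := h.inj 1 2 (by omega) (by omega)
    by_contra q
    push Not at q
    have q0 := q _ ⟨0, rfl⟩
    have q1 := q _ ⟨1, rfl⟩
    have q2 := q _ ⟨2, rfl⟩
    by_cases e0 : c 0 = x <;> by_cases e1 : c 1 = x <;> by_cases e2 : c 2 = x <;> grind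
  have pos : ∀ i, 0 < L i := fun i => (f1 i).2.1.pos fun e => hv (e ▸ (f1 i).1)
  have ne : ∀ i j, i ≠ j → a i ≠ a j := fun i j hij e =>
    hv ((f2 i j hij ⟨(f1 i).2.1.right, e ▸ (f1 j).2.1.right⟩ : a i = v) ▸ (f1 i).1)
  have ev : ∀ i j, i ≠ j → (L i + L j) % 2 = 0 := fun i j hij =>
    h.ear_even hn ho hT (f1 i).1 (f1 j).1 (ne i j hij) ((f1 i).2.1.symm.cat (f1 j).2.1 (f2 i j hij))
      (by
        rintro z ⟨b | b, d⟩
        · exact Or.inl ((f1 i).2.2 ⟨b, d⟩)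
        · exact Or.inr ((f1 j).2.2 ⟨b, d⟩)) (by have := pos i; have := pos j; omega)
  have od : ∀ i, a i ≠ c k → (1 + L i) % 2 = 0 := fun i hi =>
    h.ear_even hn ho hT ⟨k, rfl⟩ (f1 i).1 hi.symm ((Pa.edge hk.symm).cat (f1 i).2.1 (by
        rintro z ⟨rfl | b, d⟩
        · exact (hi ((f1 i).2.2 ⟨d, k, rfl⟩ : c k = a i).symm).elim
        · exact b))
      (by
        rintro z ⟨(b | rfl) | b, d⟩
        · exact Or.inl b
        · exact (hv d).elim
        · exact Or.inr ((f1 i).2.2 ⟨b, d⟩)) (by have := pos i; omega)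
  have e1 := ev 0 1 (by decide)
  have e2 := ev 0 2 (by decide)
  have o0 : L 0 % 2 = 1 := by
    by_cases e : a 0 = c k
    · have := od 1 fun e' => ne 0 1 (by decide) (e.trans e'.symm)
      omega
    · have := od 0 e
      omega
  obtain ⟨i, hi⟩ := (f1 0).1
  have key : ∀ s t : Fin 3, 0 ≠ s → 0 ≠ t → s ≠ t → L s % 2 = 1 → L t % 2 = 1 → ∀ j l, i ≤ j →
      j < l → l < i + n → c j = a s → c l = a t → ∃ a, H.Adj v (c a) ∧ H.Adj v (c (a + 1)) := by
    intro s t n1 n2 n3 o1 o2 j l b1 b2 b3 b4 b5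
    obtain ⟨-, p0, d0⟩ := f1 0
    obtain ⟨-, p1, d1⟩ := f1 s
    obtain ⟨-, p2, d2⟩ := f1 t
    have b6 : i < j := lt_of_le_of_ne b1 fun e => ne 0 s n1 (by rw [← hi, e, b4])
    rw [← hi] at p0 d0
    rw [← b4] at p1 d1
    rw [← b5] at p2 d2
    rcases h.fan3 hn ho hT hK b6 b2 b3 p0 p1 p2 d0 d1 d2 (f2 _ _ n1) (f2 _ _ n2) (f2 _ _ n3)
      o0 o1 o2 with ⟨rfl, q1, q2⟩ | ⟨rfl, q1, q2⟩ | ⟨q0, q1, q2⟩
    · exact ⟨i, (q1 ▸ p0).adj, (q2 ▸ p1).adj⟩
    · exact ⟨j, (q1 ▸ p1).adj, (q2 ▸ p2).adj⟩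
    · exact ⟨l, (q1 ▸ p2).adj, by rw [← q0, h.per]; exact (q2 ▸ p0).adj⟩
  obtain ⟨j, j1, j2, j3⟩ := h.norm0 (by omega) i (f1 1).1
  obtain ⟨l, l1, l2, l3⟩ := h.norm0 (by omega) i (f1 2).1
  rcases lt_trichotomy j l with q | q | q
  · exact key 1 2 (by decide) (by decide) (by decide) (by omega) (by omega) j l j1 q l2 j3 l3
  · exact (ne 1 2 (by decide) (by rw [← j3, q, l3])).elim
  · exact key 2 1 (by decide) (by decide) (by decide) (by omega) (by omega) l j l1 q j2 l3 j3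

end Cyc

end Pool.Agent.Work.MP_3cad78_co
end

-- merged part: Pool.Agent.Work.MP_3cad78_co.Small
section
/-! The case of at most one vertex outside the cycle. -/

set_option linter.unusedSectionVars false

namespace Pool.Agent.Work.MP_3cad78_co

open Set

variable {W : Type} {H : SimpleGraph W}

theorem theta_of_ear {x y : W} {A B : ℕ} {S1 S2 S3 : Set W} (p1 : Pa H x y 3 S1)
    (p2 : Pa H x y A S2) (p3 : Pa H x y B S3) (d1 : S1 ∩ S2 ⊆ {x, y}) (d2 : S1 ∩ S3 ⊆ {x, y})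
    (d3 : S2 ∩ S3 ⊆ {x, y}) (h1 : (A + B) % 2 = 1) (h2 : 5 ≤ A + B) (h3 : 0 < A) (h4 : 0 < B) :
    Theta H := by
  by_cases e : A % 2 = 1
  · exact ⟨_, _, _, _, _, _, _, _, p1, p2, p3, d1, d2, d3, rfl, e, by omega, by omega, by omega,
      by omega⟩
  · exact ⟨_, _, _, _, _, _, _, _, p1, p3, p2, d2, d1, inter_comm _ _ ▸ d3, rfl, by omega, by omega,
      by omega, by omega, by omega⟩

theorem window (J D : ℤ → Prop) (f1 : ∀ k, J (k - 1) ∨ J (k + 1) ∨ D k)
    (f2 : ∀ k, J (k - 1) → J k → J (k + 1) → False)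
    (f4 : ∀ k, ¬ J (k - 1) → ¬ J (k + 2) → D k ∨ D (k + 1))
    (f5 : ∀ k, D (k - 2) → D k → D (k + 2) → False)
    (f6 : ∀ i j, J i → J j → D i → i + 2 ≤ j ∧ j ≤ i + 5 ∨ j + 2 ≤ i ∧ i ≤ j + 5 → False) :
    False := by
  have key : ∀ i, J i → D i → False := by
    intro i a b
    have n : ∀ j, i + 2 ≤ j ∧ j ≤ i + 5 ∨ j + 2 ≤ i ∧ i ≤ j + 5 → ¬ J j :=
      fun j q e => f6 i j a e b q
    have d : ∀ j, i + 3 ≤ j ∧ j ≤ i + 4 ∨ j + 3 ≤ i ∧ i ≤ j + 4 → D j := fun j q =>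
      ((f1 j).resolve_left (n _ (by omega))).resolve_left (n _ (by omega))
    by_cases e : J (i + 1)
    · have e' : ¬ J (i - 2 + 1) := fun k => f2 i (by rwa [show i - 2 + 1 = i - 1 by ring] at k) a e
      exact f5 (i - 2) (d _ (by omega))
        (((f1 (i - 2)).resolve_left (n _ (by omega))).resolve_left e') (by simpa using b)
    · have e' : ¬ J (i + 2 - 1) := fun k => e (by rwa [show i + 2 - 1 = i + 1 by ring] at k)
      exact f5 (i + 2) (by simpa using b)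
        (((f1 (i + 2)).resolve_left e').resolve_left (n _ (by omega))) (d _ (by omega))
  have two : ∀ r, J r → J (r + 1) → False := by
    intro r a b
    rcases f4 r (fun k => f2 r k a b) (fun k => f2 (r + 1) (by simpa using a) b
      (by rwa [show r + 1 + 1 = r + 2 by ring])) with k | k
    · exact key _ a k
    · exact key _ b k
  have no : ∀ r, ¬ J r := fun r a => by
    rcases f1 r with k | k | k
    · exact two _ k (by simpa using a)
    · exact two _ a k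
    · exact key _ a k
  have all : ∀ r, D r := fun r => ((f1 r).resolve_left (no _)).resolve_left (no _)
  exact f5 0 (all _) (all _) (all _)

namespace Cyc

variable {n : ℤ} {c : ℤ → W} (h : Cyc H n c) (hT : ¬ Theta H)
include h hT

theorem chords3 (hn : 7 ≤ n) (ho : n % 2 = 1) (a1 : H.Adj (c 0) (c 2)) (a2 : H.Adj (c 1) (c 3))
    (a3 : H.Adj (c 2) (c 4)) : False := by
  obtain ⟨G, g1, -, g3, g4, -⟩ := h.pull (c 0) (c 0)
  have e : G.Adj (n - 1) 0 := g3 _ _ (by omega) (by omega) le_rfl (by omega) (by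
    have := h.adj (n - 1)
    rwa [h.per' (show n - 1 + 1 = 0 + n by ring)] at this)
  have b1 := g3 0 2 le_rfl (by omega) (by omega) (by omega) a1
  have b2 := g3 1 3 (by omega) (by omega) (by omega) (by omega) a2
  have b3 := g3 2 4 (by omega) (by omega) (by omega) (by omega) a3
  refine hT (g1 (theta_of_ear
    (((g4 0 1 le_rfl (by omega) (by omega)).cat (Pa.edge b2) (by grind)).cat
      (g4 3 4 (by omega) (by omega) (by omega)) (by grind))
    ((Pa.edge b1).cat (Pa.edge b3) (by grind))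
    ((g4 4 (n - 1) (by omega) (by omega) (by omega)).cat (Pa.edge e) (by grind)).symm
    (by grind) (by grind) (by grind) (by omega) (by omega) (by omega) (by omega)))

theorem chords2 (hn : 7 ≤ n) (ho : n % 2 = 1) {y : W} {j k : ℤ} (hy : y ∉ range c) (j1 : 1 ≤ j)
    (j2 : j ≤ n - 3) (k1 : 0 ≤ k) (k2 : k ≤ n - 2) (hkj : k ≠ j) (a1 : H.Adj (c (n - 2)) (c 0))
    (a2 : H.Adj (c (j - 1)) (c (j + 1))) (a3 : H.Adj y (c (n - 1))) (a4 : H.Adj y (c k)) :
    False := by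
  obtain ⟨G, g1, -, g3, g4, g5, -⟩ := h.pull y y
  have e : G.Adj (n - 1) 0 := g3 _ _ (by omega) (by omega) le_rfl (by omega) (by
    have := h.adj (n - 1)
    rwa [h.per' (show n - 1 + 1 = 0 + n by ring)] at this)
  have b1 := g3 _ _ (by omega) (by omega) le_rfl (by omega) a1
  have b2 := g3 _ _ (by omega) (by omega) (by omega) (by omega) a2
  have b3 := g5 hy _ (by omega) (by omega) a3
  have b4 := g5 hy _ (by omega) (by omega) a4
  by_cases e0 : k = 0
  · subst e0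
    have q := (g4 (n - 2) (n - 1) (by omega) (by omega) (by omega)).symm
    rw [show (n - 1 - (n - 2)).toNat = 1 by omega] at q
    exact hT (g1 (theta_of_ear
      (((Pa.edge b4.symm).cat (Pa.edge b3) (by grind)).cat q (by grind)) (Pa.edge b1.symm)
      (((g4 0 (j - 1) le_rfl (by omega) (by omega)).cat (Pa.edge b2) (by grind)).cat
        (g4 (j + 1) (n - 2) (by omega) (by omega) (by omega)) (by grind))
      (by grind) (by (clear * - hn ho j1 j2; grind)) (by grind) (by omega) (by omega) (by omega) (by omega)))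
  have q := ((Pa.edge e.symm).cat (Pa.edge b3.symm) (by grind)).cat (Pa.edge b4) (by grind)
  by_cases e1 : k < j
  · exact hT (g1 (theta_of_ear q (g4 0 k le_rfl k1 (by omega))
      ((((g4 k (j - 1) k1 (by omega) (by omega)).cat (Pa.edge b2) (by grind)).cat
        (g4 (j + 1) (n - 2) (by omega) (by omega) (by omega)) (by grind)).cat (Pa.edge b1)
        (by (clear * - e0 e1 hn j1 k1; grind))).symm
      (by grind) (by (clear * - e1 hn ho j1 j2 k1 k2; grind)) (by (clear * - e0 e1 ho j2 k1 k2; grind)) (by omega) (by omega) (by omega) (by omega)))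
  · exact hT (g1 (theta_of_ear q
      (((g4 0 (j - 1) le_rfl (by omega) (by omega)).cat (Pa.edge b2) (by grind)).cat
        (g4 (j + 1) k (by omega) (by omega) (by omega)) (by grind))
      ((g4 k (n - 2) k1 k2 (by omega)).cat (Pa.edge b1) (by grind)).symm
      (by (clear * - e1 hkj hn ho j1 j2 k2; grind)) (by (clear * - e1 hn ho j1 k1 k2; grind)) (by (clear * - e1 hkj hn ho j1 j2 k2; grind)) (by omega) (by omega) (by omega) (by omega)))

theorem nbr (hn : 5 ≤ n) (ho : n % 2 = 1) {k : ℤ} {w : W} (a : H.Adj (c k) w) (hw : w ∈ range c) :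
    w = c (k + 1) ∨ w = c (k + 2) ∨ w = c (k - 2) ∨ w = c (k - 1) := by
  obtain ⟨j, j1, j2, rfl⟩ := h.norm0 (by omega) k hw
  rcases h.chord hn ho hT (lt_of_le_of_ne j1 fun e => a.ne (e ▸ rfl)) j2 a with e | e | e | e
  · exact Or.inl (e ▸ rfl)
  · exact Or.inr (Or.inl (e ▸ rfl))
  · exact Or.inr (Or.inr (Or.inl (h.per' (by omega))))
  · exact Or.inr (Or.inr (Or.inr (h.per' (by omega))))

theorem third [Finite W] (hn : 5 ≤ n) (ho : n % 2 = 1) (h3 : Conn3 H) (hc : 4 ≤ Nat.card W)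
    (k : ℤ) : H.Adj (c k) (c (k + 2)) ∨ H.Adj (c k) (c (k - 2)) ∨ ∃ w ∉ range c, H.Adj w (c k) := by
  obtain ⟨w, a, b, d⟩ := h3.third hc (c k) (c (k + 1)) (c (k - 1))
    (h.inj _ _ (by omega) (by omega)) (h.inj _ _ (by omega) (by omega)).symm
  by_cases hw : w ∈ range c
  · rcases h.nbr hT hn ho a hw with e | e | e | e
    · exact (b e).elim
    · exact Or.inl (e ▸ a)
    · exact Or.inr (Or.inl (e ▸ a))
    · exact (d e).elim
  · exact Or.inr (Or.inr ⟨w, hw, a.symm⟩)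

theorem small [Finite W] (hn : 7 ≤ n) (ho : n % 2 = 1) (hK : ¬ OddK4 H) (h3 : Conn3 H)
    (hc : 4 ≤ Nat.card W) (y : W) (hy : ∀ v ∉ range c, v = y) : False := by
  have hn' : 5 ≤ n := by omega
  refine window (fun k => H.Adj (c (k - 1)) (c (k + 1))) (fun k => y ∉ range c ∧ H.Adj y (c k))
    (fun k => ?_) (fun k a1 a2 a3 => ?_) (fun k a1 a2 => ?_) (fun k a1 a2 a3 => ?_)
    fun i j a1 a2 a3 a4 => ?_
  · rcases h.third hT hn' ho h3 hc k with e | e | ⟨w, a, b⟩
    · exact Or.inr (Or.inl (by simpa [add_assoc] using e))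
    · exact Or.inl (by simpa [sub_sub] using e.symm)
    · exact Or.inr (Or.inr (hy w a ▸ ⟨a, b⟩))
  · refine (h.shift (k - 2)).chords3 hT hn ho ?_ ?_ ?_
    · rwa [show 0 + (k - 2) = k - 1 - 1 by ring, show 2 + (k - 2) = k - 1 + 1 by ring]
    · rwa [show 1 + (k - 2) = k - 1 by ring, show 3 + (k - 2) = k + 1 by ring]
    · rwa [show 2 + (k - 2) = k + 1 - 1 by ring, show 4 + (k - 2) = k + 1 + 1 by ring]
  · have ne : ∀ s t, s < t → t ≤ s + 4 → c s ≠ c t := fun s t a b => h.inj s t a (by omega)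
    obtain ⟨u, w, b1, b2, -, b4, b5⟩ := (h3 (c (k - 1)) (c (k + 2)) (c k) (c (k + 3))
      (ne _ _ (by omega) (by omega)).symm (ne _ _ (by omega) (by omega))
      (ne _ _ (by omega) (by omega)).symm (ne _ _ (by omega) (by omega)).symm).enter
      (C := {z | z ≠ c k ∧ z ≠ c (k + 1)}) (fun q => q.1 rfl)
      ⟨(ne _ _ (by omega) (by omega)).symm, (ne _ _ (by omega) (by omega)).symm⟩
    have hu : u = c k ∨ u = c (k + 1) := by
      by_contra q
      exact b1 (not_or.1 q)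
    by_cases hw : w ∈ range c
    · exfalso
      rcases hu with rfl | rfl <;> rcases h.nbr hT hn' ho b5 hw with rfl | rfl | rfl | rfl
      · exact b2.2 rfl
      · exact b4.2 rfl
      · exact a1 (by simpa [sub_sub] using b5.symm)
      · exact b4.1 rfl
      · exact b4.2 (congrArg c (by ring))
      · exact a2 (by
          rwa [show k + 2 - 1 = k + 1 by ring, show k + 2 + 1 = k + 1 + 2 by ring])
      · exact b4.1 (congrArg c (by ring))
      · exact b2.1 (congrArg c (by ring))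
    · obtain rfl := hy w hw
      rcases hu with rfl | rfl
      · exact Or.inl ⟨hw, b5.symm⟩
      · exact Or.inr ⟨hw, b5.symm⟩
  · exact h.three hn' ho hT hK a1.1 (by omega) (by omega) (by omega) a1.2 a2.2 a3.2
  · obtain ⟨j', j1, j2, j3⟩ : ∃ j', i + 2 ≤ j' ∧ j' ≤ i + n - 2 ∧ ∀ d, c (j' + d) = c (j + d) := by
      rcases a4 with a4 | a4
      · exact ⟨j, a4.1, by omega, fun _ => rfl⟩
      · exact ⟨j + n, by omega, by omega, fun d => h.per' (by ring)⟩
    obtain ⟨w, b1, b2, b3⟩ := h3.third hc y (c i) (c j') (fun e => a3.1 ⟨_, e.symm⟩)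
      fun e => a3.1 ⟨_, e.symm⟩
    have hw : w ∈ range c := by
      by_contra q
      exact b1.ne (hy w q).symm
    obtain ⟨k, k1, k2, rfl⟩ := h.norm0 (by omega) (i + 1) hw
    have k3 : k ≠ i + n := fun e => b2 (h.per' e)
    have k4 : k ≠ j' := fun e => b3 (e ▸ rfl)
    refine (h.shift (i + 1)).chords2 hT hn ho (y := y) (j := j' - i - 1) (k := k - i - 1)
      (fun ⟨t, e⟩ => a3.1 ⟨_, e⟩) (by omega) (by omega) (by omega) (by omega) (by omega)
      ?_ ?_ ?_ ?_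
    · rwa [h.per' (show n - 2 + (i + 1) = i - 1 + n by ring), zero_add]
    · rwa [show j' - i - 1 - 1 + (i + 1) = j' + -1 by ring,
        show j' - i - 1 + 1 + (i + 1) = j' + 1 by ring, j3, j3]
    · rw [h.per' (show n - 1 + (i + 1) = i + n by ring)]
      exact a3.2
    · rwa [show k - i - 1 + (i + 1) = k by ring]

end Cyc

end Pool.Agent.Work.MP_3cad78_co
end

-- merged part: Pool.Agent.Work.MP_3cad78_co.Big
section
/-! The structure theorem for three-connected graphs with an odd cycle. -/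

set_option linter.unusedSectionVars false

namespace Pool.Agent.Work.MP_3cad78_co

open Set

variable {W : Type} {H : SimpleGraph W}

theorem Pa.last {a b : W} {L : ℕ} {S : Set W} (h : Pa H a b L S) (hL : 0 < L) :
    ∃ z ∈ S, H.Adj z b := by
  obtain ⟨p, -, h2, h3, -, h5⟩ := h
  have := h3 (L - 1) (by omega)
  rw [show L - 1 + 1 = L by omega, h2] at this
  exact ⟨_, h5 _ (by omega), this⟩

namespace Cyc

variable {n : ℤ} {c : ℤ → W} (h : Cyc H n c) (hn : 5 ≤ n) (ho : n % 2 = 1)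
include h hn ho

theorem close : H.Adj (c (n - 1)) (c 0) := by
  have := h.adj (n - 1)
  rwa [h.per' (show n - 1 + 1 = 0 + n by ring)] at this

theorem same0 (hmax : ∀ L : ℕ, L % 2 = 0 → Cy H L → (L : ℤ) + 1 ≤ n) {v w : W} {b : ℤ}
    (hv : v ∉ range c) (hw : w ∉ range c) (hne : w ≠ v) (b1 : 0 ≤ b) (b2 : b ≤ n - 2)
    (a1 : H.Adj v (c (n - 1))) (a2 : H.Adj v (c 0)) (a3 : H.Adj w (c b))
    (a4 : H.Adj w (c (b + 1))) : False := by
  obtain ⟨G, -, g2, -, g4, g5, g6⟩ := h.pull v w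
  have e1 := g5 hv _ (by omega) (by omega) a1
  have e2 := g5 hv _ le_rfl (by omega) a2
  have e3 := g6 hw hne _ (by omega) (by omega) a3
  have e4 := g6 hw hne _ (by omega) (by omega) a4
  have := hmax _ (by omega) (g2 _ (by omega) ⟨_, _, _, ((((Pa.edge e2).cat
    (g4 0 b le_rfl b1 (by omega)) (by grind)).cat (Pa.edge e3.symm) (by (clear * - b1; grind))).cat (Pa.edge e4)
    (by (clear * - b1 ho; grind))).cat (g4 (b + 1) (n - 1) (by omega) (by omega) (by omega)) (by (clear * - b1 b2 ho; grind)), e1.symm⟩)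
  omega

theorem same (hmax : ∀ L : ℕ, L % 2 = 0 → Cy H L → (L : ℤ) + 1 ≤ n) {v w : W} {a b : ℤ}
    (hv : v ∉ range c) (hw : w ∉ range c) (hne : w ≠ v)
    (a1 : H.Adj v (c a)) (a2 : H.Adj v (c (a + 1))) (a3 : H.Adj w (c b))
    (a4 : H.Adj w (c (b + 1))) : H.Adj w (c a) ∧ H.Adj w (c (a + 1)) := by
  obtain ⟨b', b1, b2, b3⟩ := h.norm (by omega) (a + 1) b
  have b4 := b3 0
  rw [add_zero, add_zero] at b4
  rw [← b4] at a3
  rw [← b3] at a4
  by_cases e : b' = a + n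
  · rw [h.per' e] at a3
    rw [h.per' (show b' + 1 = a + 1 + n by omega)] at a4
    exact ⟨a3, a4⟩
  · refine ((h.shift (a + 1)).same0 hn ho hmax (v := v) (w := w) (b := b' - (a + 1))
      (fun ⟨t, e⟩ => hv ⟨_, e⟩) (fun ⟨t, e⟩ => hw ⟨_, e⟩) hne (by omega) (by omega)
      ?_ ?_ ?_ ?_).elim
    · rwa [h.per' (show n - 1 + (a + 1) = a + n by ring)]
    · rwa [zero_add]
    · rwa [sub_add_cancel]
    · rwa [show b' - (a + 1) + 1 + (a + 1) = b' + 1 by ring]

variable (hT : ¬ Theta H) {u u' : W} (hu : u ∉ range c) (hu' : u' ∉ range c) (hne : u' ≠ u)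
  (a0 : H.Adj u (c 0)) (a1 : H.Adj u (c 1)) (a0' : H.Adj u' (c 0)) (a1' : H.Adj u' (c 1))
include hT hu hu' hne a0 a1 a0' a1'

theorem odd_idx {k : ℤ} (k1 : 2 ≤ k) (k2 : k < n) (a : H.Adj u (c k)) : k % 2 = 1 := by
  by_contra q
  obtain ⟨G, g1, -, g3, g4, g5, g6⟩ := h.pull u u'
  have e := g3 _ _ (by omega) (by omega) le_rfl (by omega) (h.close hn ho)
  have e0 := g5 hu _ le_rfl (by omega) a0
  have e1 := g5 hu _ (by omega) (by omega) a1
  have e2 := g6 hu' hne _ le_rfl (by omega) a0'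
  have e3 := g6 hu' hne _ (by omega) (by omega) a1'
  have e4 := g5 hu _ (by omega) k2 a
  by_cases q' : k = n - 1
  · exact hT (g1 (theta_of_ear
      (((Pa.edge e0).cat (Pa.edge e2.symm) (by grind)).cat (Pa.edge e3) (by grind)) (Pa.edge e1)
      ((Pa.edge e4).cat (g4 1 k (by omega) (by omega) k2).symm (by grind))
      (by grind) (by (clear * - hn ho q q'; grind)) (by grind) (by omega) (by omega) (by omega) (by omega)))
  · exact hT (g1 (theta_of_ear
      (((Pa.edge e1).cat (Pa.edge e3.symm) (by grind)).cat (Pa.edge e2) (by grind)) (Pa.edge e0)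
      (((Pa.edge e4).cat (g4 k (n - 1) (by omega) (by omega) (by omega)) (by grind)).cat
        (Pa.edge e) (by (clear * - hn k1 q; grind)))
      (by grind) (by (clear * - hn ho k1 k2 q q'; grind)) (by grind) (by omega) (by omega) (by omega) (by omega)))

theorem nochord0 {k m : ℤ} (k1 : 2 ≤ k) (k2 : k + 1 ≤ m) (k3 : m < n) (k4 : k % 2 = 0)
    (k5 : m % 2 = 1) (a : H.Adj u (c m)) (b : H.Adj (c k) (c (k + 2))) : False := by
  obtain ⟨G, g1, -, g3, g4, g5, g6⟩ := h.pull u u'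
  have e0 := g5 hu _ le_rfl (by omega) a0
  have e1 := g5 hu _ (by omega) (by omega) a1
  have e2 := g6 hu' hne _ le_rfl (by omega) a0'
  have e3 := g6 hu' hne _ (by omega) (by omega) a1'
  have e4 := g5 hu _ (by omega) k3 a
  have e5 := g3 _ _ (by omega) (by omega) (by omega) (by omega) b
  have q := ((Pa.edge e0).cat (Pa.edge e2.symm) (by grind)).cat (Pa.edge e3) (by grind)
  have r := (Pa.edge e5.symm).cat (g4 1 k (by omega) (by omega) (by omega)).symm (by (clear * - k4; grind))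
  by_cases q' : m = k + 1
  · exact hT (g1 (theta_of_ear q (Pa.edge e1)
      (((Pa.edge e4).cat (g4 m (k + 2) (by omega) (by omega) (by omega)) (by (clear * - k1 k4 k5 q'; grind))).cat r
        (by (clear * - k1 k2 k4 k5 q'; grind)))
      (by grind) (by (clear * - k1 k2 k4 k5 q'; grind)) (by grind) (by omega) (by omega) (by omega) (by omega)))
  · exact hT (g1 (theta_of_ear q (Pa.edge e1)
      (((Pa.edge e4).cat (g4 (k + 2) m (by omega) (by omega) (by omega)).symm (by (clear * - k1 k4; grind))).cat r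
        (by (clear * - k2 k4 k5 q'; grind)))
      (by grind) (by (clear * - k1 k2 k4 k5 q'; grind)) (by grind) (by omega) (by omega) (by omega) (by omega)))

theorem nochord {k m : ℤ} (k1 : 2 ≤ k) (k2 : k + 2 < n) (k3 : 2 ≤ m) (k3' : m < n)
    (k4 : k % 2 = 0) (a : H.Adj u (c m)) (b : H.Adj (c k) (c (k + 2))) : False := by
  have k5 := h.odd_idx hn ho hT hu hu' hne a0 a1 a0' a1' k3 k3' a
  by_cases q : k + 1 ≤ m
  · exact h.nochord0 hn ho hT hu hu' hne a0 a1 a0' a1' k1 q k3' k4 k5 a b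
  · refine (h.rev 1).nochord0 hn ho hT (u := u) (u' := u') (fun ⟨t, e⟩ => hu ⟨_, e⟩)
      (fun ⟨t, e⟩ => hu' ⟨_, e⟩) hne a1 a0 a1' a0' (k := n - 1 - k) (m := n + 1 - m) (by omega)
      (by omega) (by omega) (by omega) (by omega) ?_ ?_
    · rwa [← h.per' (show m = 1 - (n + 1 - m) + n by ring)]
    · rw [← h.per' (show k + 2 = 1 - (n - 1 - k) + n by ring),
        ← h.per' (show k = 1 - (n - 1 - k + 2) + n by ring)]
      exact b.symm

end Cyc

theorem Cyc.big [Finite W] {n : ℤ} {c : ℤ → W} (h : Cyc H n c) (hn : 5 ≤ n) (ho : n % 2 = 1)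
    (hT : ¬ Theta H) (h3 : Conn3 H) (hc : 8 ≤ Nat.card W)
    (hmax : ∀ L : ℕ, L % 2 = 0 → Cy H L → (L : ℤ) + 1 ≤ n)
    (hY : ∀ v ∉ range c, ∀ k, H.Adj v (c k) → H.Adj v (c 0) ∧ H.Adj v (c 1))
    {u1 u2 : W} (h1 : u1 ∉ range c) (h2 : u2 ∉ range c) (hne : u1 ≠ u2) (a1 : H.Adj u1 (c 0))
    (a2 : H.Adj u2 (c 0)) : K35e H := by
  have ne : ∀ s t, s < t → t ≤ s + 4 → c s ≠ c t := fun s t a b => h.inj s t a (by omega)
  have oth : ∀ u, ∃ u' ∉ range c, u' ≠ u ∧ H.Adj u' (c 0) ∧ H.Adj u' (c 1) := fun u => by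
    by_cases e : u1 = u
    · exact ⟨u2, h2, e ▸ hne.symm, hY _ h2 _ a2⟩
    · exact ⟨u1, h1, e, hY _ h1 _ a1⟩
  have od : ∀ u ∉ range c, ∀ k, 2 ≤ k → k < n → H.Adj u (c k) → k % 2 = 1 := by
    intro u hu k k1 k2 a
    obtain ⟨u', b1, b2, b3, b4⟩ := oth u
    exact h.odd_idx hn ho hT hu b1 b2 (hY _ hu _ a).1 (hY _ hu _ a).2 b3 b4 k1 k2 a
  have out : ∀ v ∉ range c, ∃ m L T, 2 ≤ m ∧ m < n ∧ Pa H v (c m) L T ∧ T ∩ range c ⊆ {c m} ∧
      ∃ u ∉ range c, H.Adj u (c m) := by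
    intro v hv
    have n0 : v ≠ c 0 := fun e => hv ⟨_, e.symm⟩
    have n1 : v ≠ c 1 := fun e => hv ⟨_, e.symm⟩
    obtain ⟨b, b1, L, T, b2, b3, b4⟩ := (h3 (c 0) (c 1) v (c 2) n0 n1
      (ne _ _ (by omega) (by omega)).symm (ne _ _ (by omega) (by omega)).symm).first_hit
      (C := range c) ⟨2, rfl⟩ ⟨n0, n1⟩
    obtain ⟨m, m1, m2, rfl⟩ := h.norm0 (by omega) 0 b1
    have m3 : m ≠ 0 := fun e => (b2 b3.right).1 (e ▸ rfl)
    have m4 : m ≠ 1 := fun e => (b2 b3.right).2 (e ▸ rfl)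
    obtain ⟨z, z1, z2⟩ := b3.last (b3.pos fun e => hv ⟨_, e.symm⟩)
    exact ⟨m, L, T, by omega, by omega, b3, b4, z, fun q => z2.ne (b4 ⟨z1, q⟩), z2⟩
  have nc : ∀ k, 2 ≤ k → k + 2 < n → k % 2 = 0 → ¬ H.Adj (c k) (c (k + 2)) := by
    intro k k1 k2 k3 b
    obtain ⟨m, -, -, m1, m2, -, -, u, hu, a⟩ := out u1 h1
    obtain ⟨u', b1, b2, b3, b4⟩ := oth u
    exact h.nochord hn ho hT hu b1 b2 (hY _ hu _ a).1 (hY _ hu _ a).2 b3 b4 k1 k2 m1 m2 k3 a b
  have th : ∀ k, 2 ≤ k → k < n → k % 2 = 0 →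
      H.Adj (c k) (c (k + 2)) ∨ H.Adj (c k) (c (k - 2)) := by
    intro k k1 k2 k3
    rcases h.third hT hn ho h3 (by omega) k with e | e | ⟨w, a, b⟩
    · exact Or.inl e
    · exact Or.inr e
    · have := od w a k k1 k2 b
      omega
  have n24 := nc 2 le_rfl (by omega) rfl
  have c4 : H.Adj (c 4) (c (4 + 2)) :=
    (th 4 (by omega) (by omega) rfl).resolve_right fun e => n24 e.symm
  obtain rfl : n = 5 := by
    by_contra q
    exact nc 4 (by omega) (by omega) rfl c4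
  have c2 : H.Adj (c 2) (c 0) := (th 2 le_rfl (by omega) rfl).resolve_left n24
  rw [h.per' (show (4 : ℤ) + 2 = 1 + 5 by rfl)] at c4
  have c40 : H.Adj (c 4) (c 0) := h.close hn ho
  have c3 : ∀ v ∉ range c, H.Adj v (c 0) → H.Adj v (c 3) := by
    intro v hv a
    obtain ⟨m, L, T, m1, m2, b1, b2, u, hu, b3⟩ := out v hv
    obtain rfl : m = 3 := by
      have := od u hu m m1 m2 b3
      omega
    have pos := b1.pos fun e => hv ⟨_, e.symm⟩
    have m0 : ∀ t, t < 3 → 0 ≤ t → c t ∉ T := fun t t1 t2 q =>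
      ne t 3 t1 (by omega) (b2 ⟨q, t, rfl⟩)
    have p0 := (Pa.edge a.symm).cat b1 (by
      rintro z ⟨rfl | e, d⟩
      · exact (m0 0 (by omega) le_rfl d).elim
      · exact e)
    have ev := h.ear_even hn ho hT ⟨0, rfl⟩ ⟨3, rfl⟩ (ne _ _ (by omega) (by omega)) p0 (by
      rintro z ⟨(e | rfl) | e, d⟩
      · exact Or.inl e
      · exact (hv d).elim
      · exact Or.inr (b2 ⟨e, d⟩)) (by omega)
    have := hmax _ (by omega) ⟨_, _, _, p0.cat (h.arc 1 3 (by omega) (by omega)).symm (by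
      rintro _ ⟨e, t, ⟨t1, t2⟩, rfl⟩
      rcases e with (e | e) | e
      · exact (ne 0 t (by omega) (by omega) e.symm).elim
      · exact (hv ⟨t, e⟩).elim
      · exact b2 ⟨e, t, rfl⟩), (h.adj 0).symm⟩
    obtain rfl : L = 1 := by omega
    exact b1.adj
  obtain ⟨z, hz⟩ := exists_other [c 0, c 1, c 2, c 3, c 4, u1, u2] hc
  simp only [List.mem_cons, List.not_mem_nil, or_false, not_or] at hz
  obtain ⟨z0, z1, z2, z3, z4, z5, z6⟩ := hz
  have hz : z ∉ range c := fun q => by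
    obtain ⟨k, k1, k2, rfl⟩ := h.norm0 (by omega) 0 q
    have k3 : k < 5 := by omega
    interval_cases k <;> contradiction
  obtain ⟨u3, _, h4, ⟨k, rfl⟩, ⟨n1, n2⟩, -, a3⟩ := (h3 u1 u2 z (c 0) z5 z6
    (fun e => h1 ⟨_, e⟩) fun e => h2 ⟨_, e⟩).enter (C := range c) hz ⟨0, rfl⟩
  have y1 := hY _ h1 _ a1
  have y2 := hY _ h2 _ a2
  have y3 := hY _ h4 _ a3
  refine ⟨c 0, c 1, c 3, ![c 2, c 4, u1, u2, u3], h.adj 0, ne _ _ (by omega) (by omega),
    ne _ _ (by omega) (by omega), ?_, ?_⟩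
  · have := ne 2 4 (by omega) (by omega)
    simp only [mem_range, not_exists] at h1 h2 h4
    have e1 := fun t => Ne.symm (h1 t)
    have e2 := fun t => Ne.symm (h2 t)
    have e3 := fun t => Ne.symm (h4 t)
    intro i j
    fin_cases i <;> fin_cases j <;>
      simp [h1, h2, h4, e1, e2, e3, this, this.symm, hne, hne.symm, n1, n2, n1.symm, n2.symm]
  · intro i
    fin_cases i
    · exact ⟨c2.symm, h.adj 1, (h.adj 2).symm⟩
    · exact ⟨c40.symm, c4.symm, h.adj 3⟩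
    · exact ⟨y1.1.symm, y1.2.symm, (c3 _ h1 y1.1).symm⟩
    · exact ⟨y2.1.symm, y2.2.symm, (c3 _ h2 y2.1).symm⟩
    · exact ⟨y3.1.symm, y3.2.symm, (c3 _ h4 y3.1).symm⟩

theorem Conn3.long [Finite W] (h3 : Conn3 H) (hc : 5 ≤ Nat.card W) (h : Cy H 2) :
    ∃ L, L % 2 = 0 ∧ 4 ≤ L ∧ Cy H L := by
  by_contra q
  obtain ⟨x, z, S, ⟨p, rfl, rfl, a, -⟩, b⟩ := h
  have a1 := a 0 (by omega)
  have a2 := a 1 (by omega)
  generalize p 0 = x, p 1 = y, p 2 = z at a1 a2 b
  have n1 := a1.ne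
  have n2 := a2.ne
  have n3 := b.ne
  have a1' := a1.symm
  have a2' := a2.symm
  have b' := b.symm
  have key : ∀ v, v ∉ ({x, y, z} : Set W) → H.Adj v x ∧ H.Adj v y ∧ H.Adj v z := by
    intro v hv
    obtain ⟨a, L, S, f1, f2⟩ := h3.fan hv fun s t => by
      by_contra k
      push Not at k
      have q0 := k x (by simp)
      have q1 := k y (by simp)
      have q2 := k z (by simp)
      by_cases e0 : x = s <;> by_cases e1 : y = s <;> by_cases e2 : z = s <;> grind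
    have pos : ∀ i, 0 < L i := fun i => (f1 i).2.1.pos fun e => hv (e ▸ (f1 i).1)
    have ne : ∀ i j, i ≠ j → a i ≠ a j := fun i j hij e =>
      hv ((f2 i j hij ⟨(f1 i).2.1.right, e ▸ (f1 j).2.1.right⟩ : a i = v) ▸ (f1 i).1)
    have ad : ∀ i j, i ≠ j → H.Adj (a i) (a j) := fun i j hij => by
      have := ne i j hij
      have := (f1 i).1
      have := (f1 j).1
      grind
    have one : ∀ i j k, i ≠ j → i ≠ k → j ≠ k → H.Adj v (a i) := by
      intro i j k m1 m2 m3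
      have p0 := (f1 i).2.1.symm.cat (f1 j).2.1 (f2 i j m1)
      have := pos i
      have := pos j
      by_cases e : (L i + L j) % 2 = 0
      · have e' : L i = 1 := by
          by_contra k
          exact q ⟨_, e, by omega, _, _, _, p0, ad j i m1.symm⟩
        exact (e' ▸ (f1 i).2.1).adj
      · refine (q ⟨_, by omega, by omega, _, _, _, p0.cat (Pa.edge (ad j k m3)) ?_,
          ad k i m2.symm⟩).elim
        rintro w ⟨d | d, rfl | rfl⟩
        · rfl
        · exact (ne _ _ m2 ((f1 i).2.2 ⟨d, (f1 k).1⟩ : a k = a i).symm).elim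
        · rfl
        · exact (ne _ _ m3 ((f1 j).2.2 ⟨d, (f1 k).1⟩ : a k = a j).symm).elim
    have o0 := one 0 1 2 (by decide) (by decide) (by decide)
    have o1 := one 1 0 2 (by decide) (by decide) (by decide)
    have o2 := one 2 0 1 (by decide) (by decide) (by decide)
    have := ne 0 1 (by decide)
    have := ne 0 2 (by decide)
    have := ne 1 2 (by decide)
    rcases (f1 0).1 with e0 | e0 | e0 <;> rcases (f1 1).1 with e1 | e1 | e1 <;>
      rcases (f1 2).1 with e2 | e2 | e2 <;> grind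
  obtain ⟨v, hv⟩ := exists_other [x, y, z] (by simp only [List.length]; omega)
  obtain ⟨w, hw⟩ := exists_other [x, y, z, v] hc
  simp only [List.mem_cons, List.not_mem_nil, or_false, not_or] at hv hw
  obtain ⟨v1, v2, -⟩ := key v (by grind)
  obtain ⟨-, w2, w3⟩ := key w (by grind)
  exact q ⟨_, rfl, le_rfl, _, _, _, (((Pa.edge v1.symm).cat (Pa.edge v2) (by grind)).cat
    (Pa.edge w2.symm) (by grind)).cat (Pa.edge w3) (by grind), b⟩

theorem Conn3.structure [Finite W] (h3 : Conn3 H) (hc : 8 ≤ Nat.card W) (hb : ¬ H.Colorable 2) :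
    Theta H ∨ OddK4 H ∨ K35e H := by
  classical
  by_contra q
  simp only [not_or] at q
  obtain ⟨hT, hK, hQ⟩ := q
  obtain ⟨L0, l1, l2, l3⟩ : ∃ L, L % 2 = 0 ∧ 4 ≤ L ∧ Cy H L := by
    obtain ⟨L, a, b, d⟩ := exists_odd_cycle hb
    by_cases e : L = 2
    · exact h3.long (by omega) (e ▸ d)
    · exact ⟨L, a, by omega, d⟩
  have bd : ∀ L, Cy H L → L ≤ Nat.card W := fun L ⟨_, _, _, a, _⟩ => a.le_card.le
  have sp := Nat.findGreatest_spec (P := fun L => L % 2 = 0 ∧ Cy H L) (bd _ l3) ⟨l1, l3⟩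
  have mx := fun L (a : L % 2 = 0) (b : Cy H L) =>
    Nat.le_findGreatest (P := fun L => L % 2 = 0 ∧ Cy H L) (bd _ b) ⟨a, b⟩
  generalize Nat.findGreatest (fun L => L % 2 = 0 ∧ Cy H L) (Nat.card W) = M at sp mx
  obtain ⟨c, h⟩ := sp.2.cyc
  have l4 := mx _ l1 l3
  have hn : 5 ≤ (M : ℤ) + 1 := by omega
  have ho : ((M : ℤ) + 1) % 2 = 1 := by omega
  have hmax : ∀ L : ℕ, L % 2 = 0 → Cy H L → (L : ℤ) + 1 ≤ M + 1 := fun L a b => by
    have := mx L a b
    omega
  generalize (M : ℤ) + 1 = n at h hn ho hmax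
  by_cases e : ∃ u1 u2, u1 ≠ u2 ∧ (u1 ∉ range c ∧ ∃ k, H.Adj u1 (c k)) ∧
      u2 ∉ range c ∧ ∃ k, H.Adj u2 (c k)
  · obtain ⟨u1, u2, hne, ⟨h1, k1, a1⟩, h2, k2, a2⟩ := e
    obtain ⟨a, b1, b2⟩ := h.consec hn ho hT hK h3 h1 a1
    have all : ∀ v ∉ range c, ∀ k, H.Adj v (c k) → H.Adj v (c a) ∧ H.Adj v (c (a + 1)) := by
      intro v hv k hk
      by_cases e : v = u1
      · exact e ▸ ⟨b1, b2⟩
      · obtain ⟨b, b3, b4⟩ := h.consec hn ho hT hK h3 hv hk
        exact h.same hn ho hmax h1 hv e b1 b2 b3 b4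
    have r : (range fun i => c (i + a)) = range c :=
      (add_right_surjective a).range_comp c
    refine hQ ((h.shift a).big hn ho hT h3 hc hmax (fun v hv k hk => ?_) (r ▸ h1) (r ▸ h2) hne
      ?_ ?_)
    · rw [zero_add, add_comm]
      exact all v (r ▸ hv) _ hk
    · rwa [zero_add]
    · rw [zero_add]
      exact (all _ h2 _ a2).1
  · obtain ⟨y, hy⟩ : ∃ y, ∀ u ∉ range c, ∀ k, H.Adj u (c k) → u = y := by
      by_cases e' : ∃ y ∉ range c, ∃ k, H.Adj y (c k)
      · obtain ⟨y, hy⟩ := e'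
        exact ⟨y, fun u a k b => by_contra fun q => e ⟨u, y, q, ⟨a, k, b⟩, hy⟩⟩
      · exact ⟨c 0, fun u a k b => (e' ⟨u, a, k, b⟩).elim⟩
    have hy' : ∀ v ∉ range c, v = y := by
      intro v hv
      by_contra q
      obtain ⟨t, ht⟩ : ∃ t, c t ≠ y := by
        by_cases e0 : c 0 = y
        · exact ⟨1, e0 ▸ (h.adj 0).ne'⟩
        · exact ⟨0, e0⟩
      obtain ⟨u, _, a, ⟨k, rfl⟩, b, -, d⟩ := (h3 y y v (c t) q q ht ht).enter hv ⟨t, rfl⟩
      exact b.1 (hy u a k d)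
    refine h.small hT ?_ ho hK h3 (by omega) y hy'
    by_contra q
    obtain rfl : n = 5 := by omega
    obtain ⟨z, hz⟩ := exists_other [c 0, c 1, c 2, c 3, c 4, y] (by simp only [List.length]; omega)
    simp only [List.mem_cons, List.not_mem_nil, or_false, not_or] at hz
    obtain ⟨z0, z1, z2, z3, z4, z5⟩ := hz
    refine z5 (hy' z fun q => ?_)
    obtain ⟨k, k1, k2, rfl⟩ := h.norm0 (by omega) 0 q
    have k3 : k < 5 := by omega
    interval_cases k <;> contradiction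

end Pool.Agent.Work.MP_3cad78_co
end

-- merged part: Pool.Agent.Work.MP_3cad78_co.Three
section
/-! Three-connected graphs with at least eight vertices are contractible exactly if bipartite. -/

namespace Pool.Agent.Work.MP_3cad78_co

variable {W : Type} {H : SimpleGraph W}

theorem conn3_of (h3 : ∀ x y : W, (H.induce {v | v ≠ x ∧ v ≠ y}).Connected) : Conn3 H := by
  intro x y a b a1 a2 b1 b2
  obtain ⟨q⟩ := (h3 x y).preconnected ⟨a, a1, a2⟩ ⟨b, b1, b2⟩
  have key : ∀ (a b : ({v | v ≠ x ∧ v ≠ y} : Set W)) (_ : (H.induce {v | v ≠ x ∧ v ≠ y}).Walk a b),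
      Conn H {v | v ≠ x ∧ v ≠ y} a.1 b.1 := by
    intro a b q
    induction q with
    | nil => exact Conn.refl _
    | @cons a b _ h _ ih => exact (Conn.step a.2 b.2 h).trans ih
  exact key _ _ q

theorem contractible_iff_of_three [Finite W] (hc : 8 ≤ Nat.card W)
    (h3 : ∀ x y : W, (H.induce {v | v ≠ x ∧ v ≠ y}).Connected) :
    Contractible H ↔ H.IsBipartite := by
  refine ⟨fun h => ?_, contractible_of_bipartite H⟩
  by_contra hb
  rcases (conn3_of h3).structure hc hb with k | k | k <;> exact k.not_contractible h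

end Pool.Agent.Work.MP_3cad78_co
end
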